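import Mathlib
import Pool.Agent.K4H29.HC.Defs
import Pool.Agent.K4H29.HC.Prod

/-!
# The defect of an abelian variety with complex multiplication, and Weil classes of CM fields:
definitions

Complex abelian varieties `AV` (given by `H = H_1(X, ℚ)`, the tangent space `T` and the period map
`per`), homomorphisms `IsHom` and Hodge classes `IsHodge` are as in `Pool.Agent.Y90.Defs`; CM types
`CMPair` as in `Pool.Agent.W547.KB.Defs`; `IsCMFactor A X` says that the CM type `A` is primitive and
that the simple abelian variety of type `A` is (isogenous to) an abelian subvariety of `X`; `pow X n`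
is the power `X ^ n`.
-/

set_option autoImplicit false

namespace Pool.Agent.K4H21.DB

open Module NumberField Pool.Agent.Y90 Pool.Agent.R915 Pool.Agent.W547.KB Pool.Agent.K4H29.HC
open Pool.Agent.H204R3.CM (IsHodge)

open Classical in
/-- The sign vector of an embedding `φ` of the CM field `E` of the CM type `A = (E, Φ)`: the function
on the group of the automorphisms `τ` of the field of complex numbers with the value `1` if
`τ ∘ φ ∈ Φ` and `-1` otherwise. -/
noncomputable def signs (A : CMPair) (φ : A.E →+* ℂ) : (ℂ ≃+* ℂ) → ℚ :=
  fun τ => if (τ : ℂ →+* ℂ).comp φ ∈ A.Φ then 1 else -1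

/-- The sign vectors of the embeddings of the CM fields of all simple factors of `X` with complex
multiplication. If `X` has complex multiplication and `X'` is the product of the pairwise
non-isogenous simple factors of `X`, this is a set of `2 dim X'` vectors (`X'` has as many weights,
and isogenous factors have the same sign vectors), and the dimension of its span is the dimension of
the Hodge group of `X` (the Mumford-Tate group is a torus of one dimension more). -/
def SV (X : AV) : Set ((ℂ ≃+* ℂ) → ℚ) :=
  {s | ∃ A : CMPair, IsCMFactor A X ∧ ∃ φ : A.E →+* ℂ, s = signs A φ}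

/-- The defect `r = dim X' - dim Hg (X)` of the abelian variety `X` with complex multiplication,
where `X'` is the product of the pairwise non-isogenous simple factors of `X` and `Hg (X)` the Hodge
group: half of the number of the sign vectors minus the dimension of their span. -/
noncomputable def defect (X : AV) : ℕ :=
  (SV X).ncard / 2 - finrank ℚ (Submodule.span ℚ (SV X))

/-- An abelian variety `B` with an action of a CM field `T` (up to isogeny), such that the rational
homology has dimension `n` over `T`. -/
structure WeilData where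
  /-- the field -/
  T : Type
  [field : Field T]
  [numberField : NumberField T]
  [cm : IsCMField T]
  /-- the abelian variety -/
  B : AV
  /-- the action -/
  act : T →+* Module.End ℚ B.H
  hom : ∀ t, IsHom B B (act t)
  /-- the dimension -/
  n : ℕ
  rank : finrank ℚ B.H = n * finrank ℚ T

attribute [instance] WeilData.field WeilData.numberField WeilData.cm

/-- `f ∈ H^n(B, ℚ)` is a Weil class of the CM field `T`: a Hodge class such that the endomorphisms in
`T` may be moved in `f` from each variable to each other variable, so that `f` lies in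
`Λ^n_T H¹(B, ℚ)`, which is a vector space of dimension one over `T`. -/
def WeilData.IsWeil (W : WeilData) (f : W.B.H [⋀^Fin W.n]→ₗ[ℚ] ℚ) : Prop :=
  IsHodge W.B.per f ∧ ∀ (t : W.T) (v : Fin W.n → W.B.H) (k l : Fin W.n),
    f (Function.update v k (W.act t (v k))) = f (Function.update v l (W.act t (v l)))

/-- The ring generated by the classes of divisors: the smallest system of cohomology classes
`f ∈ H^κ(X, ℚ)` of the abelian variety `X` which contains the classes of degree zero and the Hodge
classes of degree two, and which is stable under linear combinations and cup products. -/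
inductive Lef (X : AV) : (κ : Type) → (X.H [⋀^κ]→ₗ[ℚ] ℚ) → Prop
  /-- classes of degree zero -/
  | unit {κ : Type} [IsEmpty κ] (f : X.H [⋀^κ]→ₗ[ℚ] ℚ) : Lef X κ f
  /-- Hodge classes of degree two -/
  | divisor {κ : Type} (hκ : Nat.card κ = 2) (f : X.H [⋀^κ]→ₗ[ℚ] ℚ) (hf : IsHodge X.per f) :
      Lef X κ f
  | zero (κ : Type) : Lef X κ 0
  | add {κ : Type} (f g : X.H [⋀^κ]→ₗ[ℚ] ℚ) (hf : Lef X κ f) (hg : Lef X κ g) : Lef X κ (f + g)
  | smul {κ : Type} (a : ℚ) (f : X.H [⋀^κ]→ₗ[ℚ] ℚ) (hf : Lef X κ f) : Lef X κ (a • f)
  /-- renaming of the variables -/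
  | reindex {κ κ' : Type} (e : κ ≃ κ') (f : X.H [⋀^κ]→ₗ[ℚ] ℚ) (hf : Lef X κ f) :
      Lef X κ' (f.domDomCongr e)
  /-- cup products (up to a factor) -/
  | cup {κ κ' : Type} [Fintype κ] [DecidableEq κ] [Fintype κ'] [DecidableEq κ']
      (f : X.H [⋀^κ]→ₗ[ℚ] ℚ) (g : X.H [⋀^κ']→ₗ[ℚ] ℚ) (hf : Lef X κ f) (hg : Lef X κ' g)
      (h : X.H [⋀^κ ⊕ κ']→ₗ[ℚ] ℚ)
      (hh : ∀ v : κ ⊕ κ' → X.H, h v = ∑ σ : Equiv.Perm (κ ⊕ κ'), ((Equiv.Perm.sign σ : ℤ) : ℚ) *
        (f (fun k => v (σ (Sum.inl k))) * g (fun k => v (σ (Sum.inr k))))) : Lef X (κ ⊕ κ') h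

/-- `B` is, up to isogeny, a factor of a power of `X`. -/
def IsPowerFactor (B X : AV) : Prop :=
  ∃ (m : ℕ) (i : B.H →ₗ[ℚ] (pow X m).H) (p : (pow X m).H →ₗ[ℚ] B.H),
    IsHom B (pow X m) i ∧ IsHom (pow X m) B p ∧ ∀ v, p (i v) = v

/-- The conditions on the simple factors `Y` of `X` without complex multiplication: the dimension is
at most three, or `Y` belongs to one of the classes `QuadMult`, `RealMult`, `FiveDim`, `FullHodge` of
`Pool.Agent.R915.Stm`; and if an imaginary quadratic field acts on `Y` with two different
multiplicities on the tangent space then an elliptic curve with complex multiplication by this field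
is a factor of `X`. -/
def Nice (X Y : AV) : Prop :=
  (finrank ℚ Y.H ≤ 6 ∨ QuadMult Y ∨ RealMult Y ∨ FiveDim Y ∨ FullHodge Y) ∧
    ∀ d, Unbalanced Y d → ∃ E, IsFactor E X ∧ finrank ℚ E.H = 2 ∧ Unbalanced E d

/-- The field `T` acts on the simple abelian variety of CM type `A = (E, Φ)`, by an embedding `ψ` of
`T` in `E`, with a multiplicity at least `n` on the tangent space: an embedding `τ` of `T` in the field
of complex numbers is the restriction to `T` of at least `n` elements of the CM type. -/
def Acts (T : Type) [Field T] (A : CMPair) (n : ℕ) : Prop :=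
  ∃ (ψ : T →+* A.E) (τ : T →+* ℂ), n ≤ {φ ∈ A.Φ | φ.comp ψ = τ}.ncard

/-- The family `w` of Weil classes of CM fields, on factors of powers of `X`, controls the Hodge
classes on all powers of `X`: for every system `𝒜` of classes on complex abelian varieties (in
particular the algebraic classes) all Hodge classes on all powers of `X` belong to `𝒜` if and only if
all `w i` belong to `𝒜`. A system contains the Hodge classes of degree two and the Weil classes of
imaginary quadratic fields on abelian fourfolds and on abelian sixfolds with trivial discriminant,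
and it is stable under linear combinations, cup products, pull-backs and push-forwards. Imaginary
quadratic fields `T` occur only with `n ≥ 8`, and only if `T` acts on a simple factor of `X` with
complex multiplication, of dimension at least five, with a multiplicity at least four. -/
structure Controls (X : AV) {ι : Type} (W : ι → WeilData)
    (w : ∀ i, (W i).B.H [⋀^Fin (W i).n]→ₗ[ℚ] ℚ) : Prop where
  factor : ∀ i, IsPowerFactor (W i).B X
  cm : ∀ i Y, IsFactor Y (W i).B → HasCMult Y
  weil : ∀ i, (W i).IsWeil (w i)
  ne_zero : ∀ i, w i ≠ 0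
  four_le : ∀ i, 4 ≤ (W i).n
  even : ∀ i, Even (W i).n
  eight_le : ∀ i, finrank ℚ (W i).T = 2 → 8 ≤ (W i).n
  acts : ∀ i, finrank ℚ (W i).T = 2 →
    ∃ A, IsCMFactor A X ∧ 8 < finrank ℚ A.E ∧ Acts (W i).T A 4
  iff : ∀ 𝒜 : Sys, (∀ m, 𝒜.AllHodge (pow X m)) ↔ ∀ i, 𝒜.A (W i).B (Fin (W i).n) (w i)

end Pool.Agent.K4H21.DB
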