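import Pool.Agent.K4H21.DB.Core
import Pool.Agent.K4H34.DB.Pol
import Pool.Agent.R915.H2
import Pool.Agent.K4H21.DB.Defs

/-!
# The classes on abelian varieties of CM type which belong to a system
-/

set_option linter.unusedSectionVars false
set_option linter.unusedVariables false
set_option autoImplicit false

namespace Pool.Agent.K4H21.DB

open Module NumberField Pool.Agent.Y90 Pool.Agent.R915
open Pool.Agent.H204R3.CM (IsHodge)
open Pool.Agent.W547.KB (CMPair CMAV)
open Pool.Agent.W547.LD (DWRing)
open Pool.Agent.K4H34.DB (exists_pol)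

noncomputable section

/-- An abelian variety of CM type as an abelian variety. -/
def toAV (C : CMAV) : AV := avC C (exists_pol C)

theorem isHom_toAV {X Y : CMAV} {h : X.H1 →ₗ[ℚ] Y.H1} (hh : Pool.Agent.W547.KB.IsHom X Y h) :
    IsHom (toAV X) (toAV Y) h := hh

section prod

variable (X Y : CMAV)

def inl : X.H1 →ₗ[ℚ] (X.prod Y).H1 where
  toFun w := X.pair Y w 0
  map_add' v w := by
    funext s
    rcases s with i | i
    · rfl
    · exact (add_zero (0 : (Y.factor i).E)).symm
  map_smul' c v := by
    funext s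
    rcases s with i | i
    · rfl
    · exact (smul_zero c : c • (0 : (Y.factor i).E) = 0).symm

def inr : Y.H1 →ₗ[ℚ] (X.prod Y).H1 where
  toFun w := X.pair Y 0 w
  map_add' v w := by
    funext s
    rcases s with i | i
    · exact (add_zero (0 : (X.factor i).E)).symm
    · rfl
  map_smul' c v := by
    funext s
    rcases s with i | i
    · exact (smul_zero c : c • (0 : (X.factor i).E) = 0).symm
    · rfl

def inlT : X.Tan →ₗ[ℂ] (X.prod Y).Tan where
  toFun u := fun s => Sum.rec (motive := fun s => ((X.prod Y).factor s).Φ → ℂ) (fun i => u i)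
    (fun i => 0) s
  map_add' v w := by
    funext s
    rcases s with i | i
    · rfl
    · exact (add_zero (0 : (Y.factor i).Φ → ℂ)).symm
  map_smul' c v := by
    funext s
    rcases s with i | i
    · rfl
    · exact (smul_zero c : c • (0 : (Y.factor i).Φ → ℂ) = 0).symm

def inrT : Y.Tan →ₗ[ℂ] (X.prod Y).Tan where
  toFun u := fun s => Sum.rec (motive := fun s => ((X.prod Y).factor s).Φ → ℂ) (fun i => 0)
    (fun i => u i) s
  map_add' v w := by
    funext s
    rcases s with i | i
    · exact (add_zero (0 : (X.factor i).Φ → ℂ)).symm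
    · rfl
  map_smul' c v := by
    funext s
    rcases s with i | i
    · exact (smul_zero c : c • (0 : (X.factor i).Φ → ℂ) = 0).symm
    · rfl

theorem isHom_inl : IsHom (toAV X) (toAV (X.prod Y)) (inl X Y) := by
  refine ⟨inlT X Y, fun v => ?_⟩
  funext s
  rcases s with i | i
  · rfl
  · funext φ
    exact (map_zero φ.1).symm

theorem isHom_inr : IsHom (toAV Y) (toAV (X.prod Y)) (inr X Y) := by
  refine ⟨inrT X Y, fun v => ?_⟩
  funext s
  rcases s with i | i
  · funext φ
    exact (map_zero φ.1).symm
  · rfl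

theorem bij_in : Function.Bijective fun w : X.H1 × Y.H1 => inl X Y w.1 + inr X Y w.2 := by
  constructor
  · intro w w' h
    refine Prod.ext (funext fun i => ?_) (funext fun i => ?_)
    · have h1 := congrFun h (Sum.inl i)
      have h2 : w.1 i + 0 = w'.1 i + 0 := h1
      rwa [add_zero, add_zero] at h2
    · have h1 := congrFun h (Sum.inr i)
      have h2 : 0 + w.2 i = 0 + w'.2 i := h1
      rwa [zero_add, zero_add] at h2
  · intro w
    refine ⟨⟨fun i => w (Sum.inl i), fun i => w (Sum.inr i)⟩, ?_⟩
    funext s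
    rcases s with i | i
    · exact add_zero (w (Sum.inl i))
    · exact zero_add (w (Sum.inr i))

end prod

/-- The classes on abelian varieties of CM type which belong to the system. -/
def csys (𝒜 : Sys) : CSys where
  A := fun X κ f => 𝒜.A (toAV X) κ f
  ring := fun X =>
    { unit := fun f => 𝒜.unit (X := toAV X) f
      divisor := fun hκ f hf => 𝒜.divisor (X := toAV X) hκ f hf
      zero := fun κ => 𝒜.zero (toAV X) κ
      add := fun f g hf hg => 𝒜.add (X := toAV X) f g hf hg
      smul := fun a f hf => 𝒜.smul (X := toAV X) a f hf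
      reindex := fun e f hf => 𝒜.reindex (X := toAV X) e f hf
      cup := fun f g hf hg h hh => 𝒜.cup (X := toAV X) f g hf hg h hh }
  pull := fun {X Y κ} h hh f hf => 𝒜.pull (X := toAV X) (Y := toAV Y) h (isHom_toAV hh) f hf
  push := fun {X Y κ κ'} b f hf g hg => 𝒜.push (X := toAV X) (Y := toAV Y) (P := toAV (X.prod Y))
    (inl X Y) (isHom_inl X Y) (inr X Y) (isHom_inr X Y) (bij_in X Y) b f hf g hg

theorem dw_mem (𝒜 : Sys) (X : CMAV) (κ : Type) (f : X.H1 [⋀^κ]→ₗ[ℚ] ℚ) (hf : DWRing X κ f) :
    (csys 𝒜).A X κ f :=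
  ring_alg 𝒜 hf (toAV X) LinearMap.id LinearMap.id fun _ => rfl

end

end Pool.Agent.K4H21.DB
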