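import Pool.Agent.K4H21.DB.One

/-!
# The result for an abelian variety isogenous to a given abelian variety of CM type
-/

set_option linter.unusedSectionVars false
set_option linter.unusedVariables false
set_option autoImplicit false

namespace Pool.Agent.K4H21.DB

open Module NumberField Pool.Agent.Y90 Pool.Agent.R915 Pool.Agent.K4H29.HC
open Pool.Agent.H204R3.CM (IsHodge)
open Pool.Agent.W547.KB (CMPair CMAV Wt ev St IsHalf isHalf_St exists_cm Balanced)
open Pool.Agent.W547.LD (tr mem_tr tr_one tr_tr tr_compl tr_inv_tr tr_tr_inv stab mem_stab Orb)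

noncomputable section

theorem lef_ring (X : CMAV) : IsRing X (Lef (toAV X)) where
  unit := fun f => Lef.unit (X := toAV X) f
  divisor := fun hκ f hf => Lef.divisor (X := toAV X) hκ f hf
  zero := fun κ => Lef.zero (X := toAV X) κ
  add := fun f g hf hg => Lef.add (X := toAV X) f g hf hg
  smul := fun a f hf => Lef.smul (X := toAV X) a f hf
  reindex := fun e f hf => Lef.reindex (X := toAV X) e f hf
  cup := fun f g hf hg h hh => Lef.cup (X := toAV X) f g hf hg h hh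

theorem Lef.pull {X Y : AV} {h : X.H →ₗ[ℚ] Y.H} (hh : IsHom X Y h) {κ : Type}
    {f : Y.H [⋀^κ]→ₗ[ℚ] ℚ} (hf : Lef Y κ f) : Lef X κ (f.compLinearMap h) := by
  induction hf with
  | unit f => exact Lef.unit _
  | divisor hκ f hf => exact Lef.divisor hκ _ (isHodge_pull hh hf)
  | zero κ => exact Lef.zero _
  | add f g _ _ ihf ihg => exact Lef.add _ _ ihf ihg
  | smul a f _ ih => exact Lef.smul a _ ih
  | reindex e f _ ih => exact Lef.reindex e _ ih
  | cup f g _ _ k hk ihf ihg => exact Lef.cup _ _ ihf ihg _ fun v => hk fun i => h (v i)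

section iso

variable {X : AV} {X0 : CMAV} (e : X.H ≃ₗ[ℚ] X0.H1) (Θ : X.T ≃ₗ[ℂ] X0.Tan)
  (hΘ : ∀ v, Θ (X.per v) = X0.per (e v))

include hΘ in
/-- The powers of `X` are isogenous to the powers of `X0`. -/
theorem exists_pow (n : ℕ) : ∃ (ε : (pow X n).H →ₗ[ℚ] (powC X0 n).H1)
    (ε' : (powC X0 n).H1 →ₗ[ℚ] (pow X n).H), IsHom (pow X n) (toAV (powC X0 n)) ε ∧
      IsHom (toAV (powC X0 n)) (pow X n) ε' ∧ ∀ v, ε' (ε v) = v := by
  let ε : (pow X n).H →ₗ[ℚ] (powC X0 n).H1 :=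
    { toFun := fun v k => e (v k.1) k.2
      map_add' := fun v w => by
        funext k
        exact congrFun (map_add e (v k.1) (w k.1)) k.2
      map_smul' := fun c v => by
        funext k
        exact congrFun (map_smul e c (v k.1)) k.2 }
  let ε' : (powC X0 n).H1 →ₗ[ℚ] (pow X n).H :=
    { toFun := fun v k => e.symm fun i => v (k, i)
      map_add' := fun v w => by
        funext k
        exact map_add e.symm (fun i => v (k, i)) (fun i => w (k, i))
      map_smul' := fun c v => by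
        funext k
        exact map_smul e.symm c (fun i => v (k, i)) }
  let Θ1 : (pow X n).T →ₗ[ℂ] (powC X0 n).Tan :=
    { toFun := fun v k => Θ (v k.1) k.2
      map_add' := fun v w => by
        funext k
        exact congrFun (map_add Θ (v k.1) (w k.1)) k.2
      map_smul' := fun c v => by
        funext k
        exact congrFun (map_smul Θ c (v k.1)) k.2 }
  let Θ2 : (powC X0 n).Tan →ₗ[ℂ] (pow X n).T :=
    { toFun := fun v k => Θ.symm fun i => v (k, i)
      map_add' := fun v w => by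
        funext k
        exact map_add Θ.symm (fun i => v (k, i)) (fun i => w (k, i))
      map_smul' := fun c v => by
        funext k
        exact map_smul Θ.symm c (fun i => v (k, i)) }
  have h1 : IsHom (pow X n) (toAV (powC X0 n)) ε := by
    refine ⟨Θ1, fun v => ?_⟩
    funext k
    exact congrFun (hΘ (v k.1)) k.2
  have h2 : IsHom (toAV (powC X0 n)) (pow X n) ε' := by
    refine ⟨Θ2, fun v => ?_⟩
    funext k
    change Θ.symm (X0.per fun i => v (k, i)) = X.per (e.symm fun i => v (k, i))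
    rw [LinearEquiv.symm_apply_eq, hΘ, e.apply_symm_apply]
  exact ⟨ε, ε', h1, h2, fun v => funext fun k => e.symm_apply_apply (v k)⟩

variable {L : Type} [Field L] [NumberField L] [IsCMField L] [IsGalois ℚ L] (j : L →+* ℂ)
  (hj : ∀ i, ∀ ψ : (X0.factor i).E →+* ℂ, ∃ φ : (X0.factor i).E →+* L, j.comp φ = ψ)

include hΘ hj in
theorem allHodge_of_ok (𝒜 : Sys) (h : ∀ a ∈ Lam (PX j X0), Ok (csys 𝒜) j a) (n : ℕ) :
    𝒜.AllHodge (pow X n) :=
  allHodge_pow e Θ hΘ 𝒜 n fun κ _ f hf =>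
    mem_of_ok (csys 𝒜) (compl_PX j X0) (powC X0 n) j (fun i => hj i.2)
      (fun x => ⟨⟨x.1.2, x.2⟩, rfl⟩) h f hf

include hΘ hj in
theorem main_av :
    ∃ (ι : Type) (_ : Fintype ι) (W : ι → WeilData)
      (w : ∀ i, (W i).B.H [⋀^Fin (W i).n]→ₗ[ℚ] ℚ),
      Fintype.card ι ≤ 2 ^ finrank ℤ (Lam (PX j X0)) - 1 ∧
      ∑ i, finrank ℚ (W i).T ≤ 2 ^ (finrank ℤ (Lam (PX j X0)) + 1) - 2 ∧
      (∀ i, IsPowerFactor (W i).B X ∧ (W i).IsWeil (w i) ∧ w i ≠ 0 ∧ 4 ≤ (W i).n ∧
        Even (W i).n ∧ (finrank ℚ (W i).T = 2 → 8 ≤ (W i).n)) ∧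
      ∀ 𝒜 : Sys, (∀ n, 𝒜.AllHodge (pow X n)) ↔ ∀ i, 𝒜.A (W i).B (Fin (W i).n) (w i) := by
  obtain ⟨ι, hι, W, w, h1, h2, h3, h4, h5⟩ := exists_family j (isHalf_PX j X0) (tr_PX j X0)
  have h6 : ∀ i, IsPowerFactor (W i).B X := fun i => powerFactor_trans e Θ hΘ (h4 X0 rfl i)
  refine ⟨ι, hι, W, w, h1, h2, fun i => ⟨h6 i, h3 i⟩, fun 𝒜 => ⟨fun h i => ?_, fun h n => ?_⟩⟩
  · exact mem_of_powerFactor 𝒜 (h6 i) h _ (w i) (h3 i).1.1
  · exact allHodge_of_ok e Θ hΘ j hj 𝒜 (h5 𝒜 h) n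

include hΘ hj in
theorem one_av (hr : finrank ℤ (Lam (PX j X0)) = 1) {m : ℕ} {κ : Type} [Finite κ]
    (hκ : Nat.card κ ≤ 7) (f : (pow X m).H [⋀^κ]→ₗ[ℚ] ℚ) (hf : IsHodge (pow X m).per f)
    (hL : ¬Lef (pow X m) κ f) (𝒜 : Sys) (n : ℕ) : 𝒜.AllHodge (pow X n) := by
  classical
  have _ : Fintype κ := Fintype.ofFinite κ
  obtain ⟨ε, ε', h1, h2, h3⟩ := exists_pow e Θ hΘ m
  have h4 : ¬Lef (toAV (powC X0 m)) κ (f.compLinearMap ε') := by
    intro h
    apply hL
    have h5 := Lef.pull h1 h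
    have h6 : (f.compLinearMap ε').compLinearMap ε = f := by
      ext v
      rw [AlternatingMap.compLinearMap_apply, AlternatingMap.compLinearMap_apply]
      congr 1
      funext k
      exact h3 (v k)
    exact (congrArg (Lef (pow X m) κ) h6).mp h5
  have h5 : IsHodge (powC X0 m).per (f.compLinearMap ε') := isHodge_pull h2 hf
  obtain ⟨I, h6, h7⟩ := exists_odd (lef_ring (powC X0 m)) j (fun i => hj i.2)
    (f.compLinearMap ε') h5 h4
  refine allHodge_of_ok e Θ hΘ j hj 𝒜 (ok_one (isHalf_PX j X0) (tr_PX j X0) 𝒜 j hr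
    (fun k => St j (I k)) (odd_mem (compl_PX j X0) (fun k => ?_) h6) h7 ?_) n
  · exact ⟨⟨(I k).1.2, (I k).2⟩, rfl⟩
  · rwa [← Nat.card_eq_fintype_card]

end iso

end

end Pool.Agent.K4H21.DB
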