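import Pool.Agent.K4H21.DB.Av

/-!
# The Weil classes belonging to a basis of the relations
-/

set_option linter.unusedSectionVars false
set_option linter.unusedVariables false
set_option autoImplicit false

namespace Pool.Agent.K4H21.DB

open Module NumberField Pool.Agent.Y90 Pool.Agent.R915 Pool.Agent.K4H29.HC
open Pool.Agent.H204R3.CM (IsHodge)
open Pool.Agent.W547.KB (CMPair CMAV Wt ev St IsHalf isHalf_St exists_cm Balanced cc)
open Pool.Agent.W547.LD (tr mem_tr tr_one tr_tr tr_compl tr_inv_tr tr_tr_inv stab mem_stab Orb)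
open Pool.Agent.K4H34.VR (Short card_short)

noncomputable section

variable {L : Type} [Field L] [NumberField L] [IsCMField L] [IsGalois ℚ L]

/-- If generators belong to the system then so do all relations. -/
theorem ok_of_span (𝒞 : CSys) {j : L →+* ℂ} {P : Set (Set (L ≃ₐ[ℚ] L))}
    (hH : ∀ S ∈ P, IsHalf S) (hst : ∀ (τ : L ≃ₐ[ℚ] L), ∀ S ∈ P, tr τ S ∈ P)
    {s : Set (Set (L ≃ₐ[ℚ] L) → ℤ)} (hs : s ⊆ Lam P) (h : ∀ v ∈ s, Ok 𝒞 j v) :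
    ∀ a ∈ Submodule.span ℤ s, Ok 𝒞 j a := by
  have key : ∀ a ∈ Submodule.span ℤ s, Ok 𝒞 j a ∧ Ok 𝒞 j (-a) := by
    intro a ha
    induction ha using Submodule.span_induction with
    | mem v hv =>
      refine ⟨h v hv, ?_⟩
      have h1 := (h v hv).gal 𝒞 (cc L)
      have h2 : (fun S => v (tr (cc L) S)) = -v := funext fun S => tr_cc_neg hH hst j (hs hv) S
      rwa [h2] at h1
    | zero => exact ⟨ok_zero 𝒞 j, by rw [neg_zero]; exact ok_zero 𝒞 j⟩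
    | add a b _ _ ha hb =>
      refine ⟨ha.1.add 𝒞 hb.1, ?_⟩
      rw [neg_add]
      exact ha.2.add 𝒞 hb.2
    | smul c a _ ha =>
      have hn : ∀ n : ℕ, Ok 𝒞 j ((n : ℤ) • a) ∧ Ok 𝒞 j (-((n : ℤ) • a)) := by
        intro n
        induction n with
        | zero =>
          rw [Nat.cast_zero, zero_smul, neg_zero]
          exact ⟨ok_zero 𝒞 j, ok_zero 𝒞 j⟩
        | succ n ih =>
          have h1 : ((n + 1 : ℕ) : ℤ) • a = (n : ℤ) • a + a := by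
            push_cast
            rw [add_smul, one_smul]
          rw [h1, neg_add]
          exact ⟨ih.1.add 𝒞 ha.1, ih.2.add 𝒞 ha.2⟩
      obtain ⟨n, rfl | rfl⟩ := c.eq_nat_or_neg
      · exact hn n
      · rw [neg_smul, neg_neg]
        exact ⟨(hn n).2, (hn n).1⟩
  exact fun a ha => (key a ha).1

/-- The Weil classes belonging to a basis of the relations. -/
theorem exists_basis_family (j : L →+* ℂ) {P : Set (Set (L ≃ₐ[ℚ] L))} (hH : ∀ S ∈ P, IsHalf S)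
    (hst : ∀ (τ : L ≃ₐ[ℚ] L), ∀ S ∈ P, tr τ S ∈ P) :
    ∃ (ι : Type) (_ : Fintype ι) (W : ι → WeilData)
      (w : ∀ i, (W i).B.H [⋀^Fin (W i).n]→ₗ[ℚ] ℚ),
      Fintype.card ι ≤ finrank ℤ (Lam P) ∧
      (∀ i, (W i).IsWeil (w i) ∧ w i ≠ 0 ∧ 4 ≤ (W i).n ∧ Even (W i).n ∧
        (finrank ℚ (W i).T = 2 → 8 ≤ (W i).n)) ∧
      (∀ X0 : CMAV, P = PX j X0 → ∀ i, IsPowerFactor (W i).B (toAV X0)) ∧
      ∀ 𝒜 : Sys, (∀ i, 𝒜.A (W i).B (Fin (W i).n) (w i)) → ∀ a ∈ Lam P, Ok (csys 𝒜) j a := by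
  classical
  let b : Basis (Fin (finrank ℤ (Lam P))) ℤ (Lam P) := Module.finBasis ℤ (Lam P)
  let v : Fin (finrank ℤ (Lam P)) → Set (L ≃ₐ[ℚ] L) → ℤ := fun i => (b i).1
  have hv0 : ∀ i, v i ≠ 0 := fun i h => b.ne_zero i (Subtype.ext h)
  have hvL : ∀ i, v i ∈ Lam P := fun i => (b i).2
  have hspan : ∀ a ∈ Lam P, a ∈ Submodule.span ℤ (Set.range v) := by
    intro a ha
    have h1 := b.sum_repr ⟨a, ha⟩
    have h2 : a = ∑ i, b.repr ⟨a, ha⟩ i • v i := by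
      have h3 : ((∑ i, b.repr ⟨a, ha⟩ i • b i : Lam P) : Set (L ≃ₐ[ℚ] L) → ℤ) = a :=
        congrArg Subtype.val h1
      refine h3.symm.trans ?_
      rw [Submodule.coe_sum]
      rfl
    rw [h2]
    exact Submodule.sum_mem _ fun i _ => Submodule.smul_mem _ _ (Submodule.subset_span ⟨i, rfl⟩)
  choose W w hW1 hW2 hW3 hW4 hW5 hW6 using fun i => exists_weil hH hst j (hvL i) (hv0 i)
  let ι' : Type := {i : Fin (finrank ℤ (Lam P)) // ¬(finrank ℚ (fK (stv (v i))) = 2 ∧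
    Fintype.card (Orb (stv (v i)) (xV (v i))) ≤ 7)}
  refine ⟨ι', inferInstance, fun i => W i.1, fun i => w i.1, ?_, fun i => ⟨hW1 i.1, hW2 i.1,
    ?_, ?_, fun h2 => ?_⟩, fun X0 hX0 i => hW5 i.1 X0 hX0, fun 𝒜 hA => ?_⟩
  · exact (Fintype.card_subtype_le _).trans_eq (Fintype.card_fin _)
  · rw [hW4]
    exact (card_orbV (hvL i.1) (hv0 i.1)).1
  · rw [hW4]
    exact (card_orbV (hvL i.1) (hv0 i.1)).2
  · rw [hW3] at h2
    rw [hW4]
    by_contra hcon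
    exact i.2 ⟨h2, by omega⟩
  · intro a ha
    refine ok_of_span (csys 𝒜) hH hst (s := Set.range v) ?_ ?_ a (hspan a ha)
    · rintro _ ⟨i, rfl⟩
      exact hvL i
    · rintro _ ⟨i, rfl⟩
      by_cases hi : finrank ℚ (fK (stv (v i))) = 2 ∧
          Fintype.card (Orb (stv (v i)) (xV (v i))) ≤ 7
      · exact ok_imag hH hst (csys 𝒜) (dw_mem 𝒜) j (hvL i) (hv0 i) hi.1 hi.2
      · exact hW6 i 𝒜 (hA ⟨i, hi⟩)

section iso

variable {X : AV} {X0 : CMAV} (e : X.H ≃ₗ[ℚ] X0.H1) (Θ : X.T ≃ₗ[ℂ] X0.Tan)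
  (hΘ : ∀ v, Θ (X.per v) = X0.per (e v))
  (j : L →+* ℂ)
  (hj : ∀ i, ∀ ψ : (X0.factor i).E →+* ℂ, ∃ φ : (X0.factor i).E →+* L, j.comp φ = ψ)

include hΘ hj in
theorem basis_av :
    ∃ (ι : Type) (_ : Fintype ι) (W : ι → WeilData)
      (w : ∀ i, (W i).B.H [⋀^Fin (W i).n]→ₗ[ℚ] ℚ),
      Fintype.card ι ≤ finrank ℤ (Lam (PX j X0)) ∧
      (∀ i, IsPowerFactor (W i).B X ∧ (W i).IsWeil (w i) ∧ w i ≠ 0 ∧ 4 ≤ (W i).n ∧
        Even (W i).n ∧ (finrank ℚ (W i).T = 2 → 8 ≤ (W i).n)) ∧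
      ∀ 𝒜 : Sys, (∀ n, 𝒜.AllHodge (pow X n)) ↔ ∀ i, 𝒜.A (W i).B (Fin (W i).n) (w i) := by
  obtain ⟨ι, hι, W, w, h1, h3, h4, h5⟩ := exists_basis_family j (isHalf_PX j X0) (tr_PX j X0)
  have h6 : ∀ i, IsPowerFactor (W i).B X := fun i => powerFactor_trans e Θ hΘ (h4 X0 rfl i)
  refine ⟨ι, hι, W, w, h1, fun i => ⟨h6 i, h3 i⟩, fun 𝒜 => ⟨fun h i => ?_, fun h n => ?_⟩⟩
  · exact mem_of_powerFactor 𝒜 (h6 i) h _ (w i) (h3 i).1.1
  · exact allHodge_of_ok e Θ hΘ j hj 𝒜 (h5 𝒜 h) n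

end iso

end

end Pool.Agent.K4H21.DB
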