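import Pool.Agent.K4H21.DB.Rep
import Pool.Agent.W547.LD.OrbAlg
import Pool.Agent.W547.KB.Final

/-!
# Representatives of the short relations, Weil classes of imaginary quadratic fields, and all Hodge
classes
-/

set_option linter.unusedSectionVars false
set_option linter.unusedVariables false
set_option autoImplicit false

namespace Pool.Agent.K4H21.DB

open NumberField Pool.Agent.H204R3.CM Equiv Module
open Pool.Agent.W547.KB (CMPair CMAV IsHom Wt ev evLin mono monoAlt mono_apply mono_eq_det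
  St Balanced trForm trForm_apply isHodge_trForm cc emb_cc cc_cc cc_ne cc_comm comp_surjective
  IsHalf isHalf_St exists_dual)
open Pool.Agent.W547.LD (tr mem_tr tr_one tr_tr tr_compl tr_inv_tr tr_tr_inv tr_injective stab
  mem_stab tr_cc ne_compl isHalf_tr isCM_of_conj Orb mono_scale mono_mem_of_pull IsImag AlgX
  algX_orb DWRing)
open Pool.Agent.K4H34.DB (IsW isW_mem_span)
open Pool.Agent.K4H34.VR (Short span_short short_neg card_short short_comp)

noncomputable section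

variable {L : Type} [Field L] [NumberField L] [IsCMField L] [IsGalois ℚ L]

section reps

variable {P : Set (Set (L ≃ₐ[ℚ] L))}

/-- Representatives of the short relations modulo the Galois group. -/
theorem exists_reps (hst : ∀ (τ : L ≃ₐ[ℚ] L), ∀ S ∈ P, tr τ S ∈ P) :
    ∃ (ι : Type) (_ : Fintype ι) (v : ι → Set (L ≃ₐ[ℚ] L) → ℤ),
      (∀ i, v i ∈ Short (Lam P)) ∧ (∀ w ∈ Short (Lam P), ∃ i, w ∈ trs (v i)) ∧
      ∑ i, finrank ℚ (fK (stv (v i))) = (Short (Lam P)).ncard := by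
  classical
  have hfin : (Short (Lam P)).Finite := (card_short (Lam P)).1
  have _ : Finite (Short (Lam P)) := hfin.to_subtype
  let f : Short (Lam P) → Set (Set (L ≃ₐ[ℚ] L) → ℤ) := fun w => trs w.1
  have _ : Finite (Set.range f) := (Set.finite_range f).to_subtype
  have _ : Fintype (Set.range f) := Fintype.ofFinite _
  have hsub : ∀ v ∈ Short (Lam P), ∀ w ∈ trs v, w ∈ Short (Lam P) := by
    rintro v hv _ ⟨τ, rfl⟩
    exact tr_mem_Short hst hv τ
  choose g hg using fun i : Set.range f => i.2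
  refine ⟨Set.range f, inferInstance, fun i => (g i).1, fun i => (g i).2, fun w hw => ?_, ?_⟩
  · refine ⟨⟨f ⟨w, hw⟩, ⟨w, hw⟩, rfl⟩, ?_⟩
    have h1 := hg ⟨f ⟨w, hw⟩, ⟨w, hw⟩, rfl⟩
    change trs (g _).1 = trs w at h1
    rw [h1]
    exact mem_trs_self w
  · have h1 : Nat.card (Short (Lam P)) = ∑ i : Set.range f,
        Nat.card {w : Short (Lam P) // (⟨f w, w, rfl⟩ : Set.range f) = i} := by
      rw [← Nat.card_sigma]
      exact Nat.card_congr (Equiv.sigmaFiberEquiv fun w : Short (Lam P) =>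
        (⟨f w, w, rfl⟩ : Set.range f)).symm
    rw [← Nat.card_coe_set_eq, h1]
    refine Finset.sum_congr rfl fun i _ => ?_
    rw [← ncard_trs, ← Nat.card_coe_set_eq]
    have hi : trs (g i).1 = i.1 := hg i
    refine Nat.card_congr
      { toFun := fun w => ⟨⟨w.1, hsub _ (g i).2 _ w.2⟩, ?_⟩
        invFun := fun w => ⟨w.1.1, ?_⟩
        left_inv := fun w => rfl
        right_inv := fun w => rfl }
    · refine Subtype.ext ?_
      change trs w.1 = i.1
      rw [trs_eq w.2, hi]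
    · have h2 : trs w.1.1 = i.1 := congrArg Subtype.val w.2
      rw [hi, ← h2]
      exact mem_trs_self _

end reps

section imag

variable {P : Set (Set (L ≃ₐ[ℚ] L))} (hH : ∀ S ∈ P, IsHalf S)
  (hst : ∀ (τ : L ≃ₐ[ℚ] L), ∀ S ∈ P, tr τ S ∈ P)

include hH hst in
theorem isImag_stv (j : L →+* ℂ) {v : Set (L ≃ₐ[ℚ] L) → ℤ} (hv : v ∈ Lam P) (h0 : v ≠ 0)
    (h2 : finrank ℚ (fK (stv v)) = 2) : IsImag (stv v) := by
  have hc := cc_notMem_stv hH hst j hv h0
  refine ⟨hc, fun τ hτ => ?_⟩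
  have h3 := finrank_fK (stv v)
  rw [h2, ← IsGalois.card_aut_eq_finrank] at h3
  have h4 : (stv v).index = 2 := by
    have h5 := (stv v).index_mul_card
    have h6 : 0 < Nat.card (stv v) := Nat.card_pos
    rw [← h3] at h5
    exact Nat.eq_of_mul_eq_mul_right h6 h5
  rw [Subgroup.mul_mem_iff_of_index_two h4]
  exact iff_of_false hc hτ

include hH hst in
theorem stab_le_stv (j : L →+* ℂ) {v : Set (L ≃ₐ[ℚ] L) → ℤ} (hv : v ∈ Lam P) (h0 : v ≠ 0)
    (h2 : finrank ℚ (fK (stv v)) = 2) (q : QV v) : stab (xV v q) ≤ stv v := by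
  intro τ hτ
  by_contra hcon
  have h3 := (isImag_stv hH hst j hv h0 h2).2 τ hcon
  have h4 := h3 (xV v q)
  rw [← tr_tr, tr_cc_neg hH hst j hv, (mem_stab _ _).1 hτ] at h4
  have h5 := xV_pos v q
  omega

include hH in
theorem isHalf_xV {v : Set (L ≃ₐ[ℚ] L) → ℤ} (hv : v ∈ Lam P) (q : QV v) : IsHalf (xV v q) := by
  refine hH _ ?_
  by_contra h
  have h1 := xV_pos v q
  rw [hv.1 _ h] at h1
  exact lt_irrefl _ h1

theorem balanced_sV {v : Set (L ≃ₐ[ℚ] L) → ℤ} (hv : v ∈ Lam P) : Balanced (sV v) := by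
  apply balanced_of_odd (P := P)
  rw [odd_sV v hv.2.1]
  exact hv

theorem card_orbV {v : Set (L ≃ₐ[ℚ] L) → ℤ} (hv : v ∈ Lam P) (h0 : v ≠ 0) :
    4 ≤ Fintype.card (Orb (stv v) (xV v)) ∧ Even (Fintype.card (Orb (stv v) (xV v))) := by
  classical
  have hbal := balanced_sV hv
  have h1 : Even (Fintype.card (Orb (stv v) (xV v))) := by
    have h2 := hbal 1
    have h3 : ∑ k : Orb (stv v) (xV v),
        (if (1 : L ≃ₐ[ℚ] L) ∈ sV v k then (1 : ℤ) else -1) = 0 := h2
    rw [Finset.sum_ite, Finset.sum_const, Finset.sum_const, nsmul_eq_mul, nsmul_eq_mul] at h3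
    have h5 := Fintype.card_subtype (fun k : Orb (stv v) (xV v) => (1 : L ≃ₐ[ℚ] L) ∈ sV v k)
    have h6 := Fintype.card_subtype (fun k : Orb (stv v) (xV v) => ¬(1 : L ≃ₐ[ℚ] L) ∈ sV v k)
    rw [← h5, ← h6] at h3
    have h7 := Fintype.card_subtype_compl (fun k : Orb (stv v) (xV v) =>
      (1 : L ≃ₐ[ℚ] L) ∈ sV v k)
    have h8 := Fintype.card_subtype_le (fun k : Orb (stv v) (xV v) => (1 : L ≃ₐ[ℚ] L) ∈ sV v k)
    refine ⟨Fintype.card {k : Orb (stv v) (xV v) // (1 : L ≃ₐ[ℚ] L) ∈ sV v k}, ?_⟩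
    omega
  refine ⟨?_, h1⟩
  obtain ⟨k0⟩ := nonempty_orb v hv.2.1 h0
  by_contra hcon
  have hpos : 0 < Fintype.card (Orb (stv v) (xV v)) := Fintype.card_pos_iff.2 ⟨k0⟩
  have h2 : Fintype.card (Orb (stv v) (xV v)) = 2 := by
    obtain ⟨m, hm⟩ := h1
    omega
  obtain ⟨k1, hk1⟩ : ∃ k1, k1 ≠ k0 := by
    by_contra h3
    push Not at h3
    have h4 : Fintype.card (Orb (stv v) (xV v)) ≤ 1 := Fintype.card_le_one_iff.2 fun a b => by
      rw [h3 a, h3 b]
    omega
  have huniv : (Finset.univ : Finset (Orb (stv v) (xV v))) = {k0, k1} := by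
    symm
    apply Finset.eq_univ_of_card
    rw [Finset.card_pair (Ne.symm hk1), h2]
  have hc : sV v k1 = (sV v k0)ᶜ := by
    ext σ
    have h3 := hbal σ
    have h4 : ∑ k : Orb (stv v) (xV v), (if σ ∈ sV v k then (1 : ℤ) else -1) = 0 := h3
    rw [huniv, Finset.sum_pair (Ne.symm hk1)] at h4
    rw [Set.mem_compl_iff]
    by_cases h5 : σ ∈ sV v k0
    · by_cases h6 : σ ∈ sV v k1
      · rw [if_pos h5, if_pos h6] at h4
        omega
      · exact iff_of_false h6 (fun h => h h5)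
    · by_cases h6 : σ ∈ sV v k1
      · exact iff_of_true h6 h5
      · rw [if_neg h5, if_neg h6] at h4
        omega
  have h3 := sV_pos v k1
  have h4 := sV_pos v k0
  rw [hc, hv.2.1] at h3
  omega

include hH hst in
/-- Relations belonging to Weil classes of imaginary quadratic fields in dimension four or six. -/
theorem ok_imag (𝒞 : CSys) (h𝒞 : ∀ (X : CMAV) (κ : Type) (f : X.H1 [⋀^κ]→ₗ[ℚ] ℚ),
      DWRing X κ f → 𝒞.A X κ f) (j : L →+* ℂ) {v : Set (L ≃ₐ[ℚ] L) → ℤ} (hv : v ∈ Lam P)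
    (h0 : v ≠ 0) (h2 : finrank ℚ (fK (stv v)) = 2)
    (hn : Fintype.card (Orb (stv v) (xV v)) ≤ 7) : Ok 𝒞 j v := by
  obtain ⟨h4, ⟨m, hm⟩⟩ := card_orbV hv h0
  refine ok_of_sV 𝒞 hH hv fun X I hI => ?_
  have h5 := algX_orb j (stv v) (xV v) (isHalf_xV hH hv) (isImag_stv hH hst j hv h0 h2)
    (stab_le_stv hH hst j hv h0 h2) (by omega) (balanced_sV hv) X I hI
  refine Submodule.span_mono ?_ h5
  rintro g ⟨f, hf, rfl⟩
  exact ⟨f, h𝒞 X _ f hf, rfl⟩

end imag

section all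

/-- The half systems of the weights of an abelian variety of CM type. -/
def PX (j : L →+* ℂ) (X0 : CMAV) : Set (Set (L ≃ₐ[ℚ] L)) := Set.range fun x : Wt X0 L => St j x

theorem isHalf_PX (j : L →+* ℂ) (X0 : CMAV) : ∀ S ∈ PX j X0, IsHalf S := by
  rintro _ ⟨x, rfl⟩
  exact isHalf_St j x

theorem tr_PX (j : L →+* ℂ) (X0 : CMAV) : ∀ (τ : L ≃ₐ[ℚ] L), ∀ S ∈ PX j X0, tr τ S ∈ PX j X0 := by
  rintro τ _ ⟨x, rfl⟩
  exact ⟨⟨x.1, (τ : L →+* L).comp x.2⟩, rfl⟩

theorem compl_PX (j : L →+* ℂ) (X0 : CMAV) : ∀ S ∈ PX j X0, Sᶜ ∈ PX j X0 := by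
  intro S hS
  rw [← tr_cc j (isHalf_PX j X0 S hS)]
  exact tr_PX j X0 _ S hS

/-- A Hodge class belongs to a ring of classes if the balanced monomials belong to its span. -/
theorem mem_of_mono {X : CMAV} {A : (κ : Type) → (X.H1 [⋀^κ]→ₗ[ℚ] ℚ) → Prop} (hA : IsRing X A)
    (j : L →+* ℂ)
    (hj : ∀ i, ∀ ψ : (X.factor i).E →+* ℂ, ∃ φ : (X.factor i).E →+* L, j.comp φ = ψ)
    {κ : Type} [Fintype κ] [DecidableEq κ] (f : X.H1 [⋀^κ]→ₗ[ℚ] ℚ) (hf : IsHodge X.per f)
    (h : ∀ I : κ → Wt X L, Balanced (fun k => St j (I k)) → mono I ∈ LS L A κ) : A κ f := by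
  classical
  rcases isEmpty_or_nonempty κ with hκ | ⟨⟨k0⟩⟩
  · exact hA.unit f
  apply of_LS (L := L) hA
  obtain ⟨c, hc⟩ := form_coeff (E := fun i : X.I => (X.factor i).E) (fun i : X.I => i) j hj
    f.toMultilinearMap
  have hmono : ∀ I : κ → Wt X L, c I ≠ 0 → mono I ∈ LS L A κ := by
    intro I hI
    have h1 : Balanced (fun k => St j (I k)) := by
      intro σ
      have h2 := balanced_of_hodge (E := fun i : X.I => (X.factor i).E)
        (Φ := fun i : X.I => (X.factor i).Φ) (fun i : X.I => i) j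
        (fun i => (X.factor i).isCMType) hj f hf c hc I hI σ
      exact h2
    exact h I h1
  have hsum : ((Fintype.card (Perm κ) : ℕ) : L) • (fun v : κ → X.H1 => ((f v : ℚ) : L)) =
      ∑ I : κ → Wt X L, c I • mono I := by
    funext v
    rw [Finset.sum_apply, Pi.smul_apply, smul_eq_mul]
    have h1 : ∀ σ : Perm κ, ((f v : ℚ) : L) = ((Perm.sign σ : ℤ) : L) *
        ∑ I : κ → Wt X L, c I * ∏ k, ev (v (σ k)) (I k) := by
      intro σ
      have h2 : ((f (fun k => v (σ k)) : ℚ) : L) =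
          ∑ I : κ → Wt X L, c I * ∏ k, ev (v (σ k)) (I k) := hc (fun k => v (σ k))
      rw [← h2]
      have h3 : f (fun k => v (σ k)) = Perm.sign σ • f v := f.map_perm v σ
      rw [h3, Units.smul_def, zsmul_eq_mul, Rat.cast_mul, Rat.cast_intCast, ← mul_assoc,
        ← Int.cast_mul, ← Units.val_mul, Int.units_mul_self, Units.val_one, Int.cast_one, one_mul]
    have h4 : ((Fintype.card (Perm κ) : ℕ) : L) * ((f v : ℚ) : L) =
        ∑ σ : Perm κ, ((Perm.sign σ : ℤ) : L) *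
          ∑ I : κ → Wt X L, c I * ∏ k, ev (v (σ k)) (I k) := by
      rw [← Finset.sum_congr rfl (fun σ _ => h1 σ), Finset.sum_const, Finset.card_univ,
        nsmul_eq_mul]
    rw [h4]
    simp only [Finset.mul_sum]
    rw [Finset.sum_comm]
    refine Finset.sum_congr rfl fun I _ => ?_
    rw [Pi.smul_apply, smul_eq_mul, mono_apply, Finset.mul_sum]
    refine Finset.sum_congr rfl fun σ _ => ?_
    ring
  have h5 : ((Fintype.card (Perm κ) : ℕ) : L) • (fun v : κ → X.H1 => ((f v : ℚ) : L)) ∈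
      LS L A κ := by
    rw [hsum]
    refine Submodule.sum_mem _ fun I _ => ?_
    by_cases hI : c I = 0
    · rw [hI, zero_smul]
      exact Submodule.zero_mem _
    · exact Submodule.smul_mem _ _ (hmono I hI)
  have hne : ((Fintype.card (Perm κ) : ℕ) : L) ≠ 0 := Nat.cast_ne_zero.2 Fintype.card_ne_zero
  have h6 := Submodule.smul_mem _ (((Fintype.card (Perm κ) : ℕ) : L))⁻¹ h5
  rwa [smul_smul, inv_mul_cancel₀ hne, one_smul] at h6

/-- All Hodge classes belong to the system if the relations belong to the system. -/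
theorem mem_of_ok (𝒞 : CSys) {P : Set (Set (L ≃ₐ[ℚ] L))} (hP : ∀ S ∈ P, Sᶜ ∈ P) (X : CMAV)
    (j : L →+* ℂ)
    (hj : ∀ i, ∀ ψ : (X.factor i).E →+* ℂ, ∃ φ : (X.factor i).E →+* L, j.comp φ = ψ)
    (hXP : ∀ x : Wt X L, St j x ∈ P) (h : ∀ a ∈ Lam P, Ok 𝒞 j a) {κ : Type} [Finite κ]
    (f : X.H1 [⋀^κ]→ₗ[ℚ] ℚ) (hf : IsHodge X.per f) : 𝒞.A X κ f := by
  classical
  have := Fintype.ofFinite κ
  exact mem_of_mono (𝒞.ring X) j hj f hf fun I hI =>
    (h _ (odd_mem hP (fun k => hXP (I k)) hI)).alg 𝒞 (fun k => isHalf_St j (I k)) rfl X I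
      fun k => rfl

/-- A Hodge class outside of a ring which contains the Hodge classes of degree two gives a balanced
family with a nonzero odd part. -/
theorem exists_odd {X : CMAV} {A : (κ : Type) → (X.H1 [⋀^κ]→ₗ[ℚ] ℚ) → Prop} (hA : IsRing X A)
    (j : L →+* ℂ)
    (hj : ∀ i, ∀ ψ : (X.factor i).E →+* ℂ, ∃ φ : (X.factor i).E →+* L, j.comp φ = ψ)
    {κ : Type} [Fintype κ] [DecidableEq κ] (f : X.H1 [⋀^κ]→ₗ[ℚ] ℚ) (hf : IsHodge X.per f)
    (hfA : ¬A κ f) : ∃ I : κ → Wt X L, Balanced (fun k => St j (I k)) ∧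
      odd (fun k => St j (I k)) ≠ 0 := by
  by_contra hcon
  push Not at hcon
  refine hfA (mem_of_mono hA j hj f hf fun I hI => ?_)
  exact algR_of_odd hA j _ κ rfl (fun k => St j (I k)) (fun S => congrFun (hcon I hI) S) I
    fun k => rfl

end all

end

end Pool.Agent.K4H21.DB
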