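import Mathlib
import Pool.Agent.R915.H2

/-!
# Elliptic curves with complex multiplication by the same field
-/

set_option linter.unusedSectionVars false
set_option linter.unusedVariables false
set_option autoImplicit false

namespace Pool.Agent.K4H21.DB

open Module Pool.Agent.Y90 Pool.Agent.R915

noncomputable section

theorem per_smul (F : AV) (a : ℚ) (w : F.H) : F.per (a • w) = (a : ℂ) • F.per w := by
  have h1 := map_ratCast_smul F.per ℚ ℂ a w
  rwa [Rat.cast_id] at h1

/-- The structure of an elliptic curve with complex multiplication. -/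
theorem exists_ell {E : AV} {d : ℚ} (h2 : finrank ℚ E.H = 2) (hE : Unbalanced E d) :
    ∃ (h : E.H →ₗ[ℚ] E.H) (c : ℂ) (v : E.H), c * c = -(d : ℂ) ∧ (∀ w, E.per (h w) = c • E.per w) ∧
      E.per v ≠ 0 := by
  obtain ⟨hd, h, Ψ, s, hΨ, hsq, hs, -⟩ := hE
  have hT : finrank ℂ E.T = 1 := by
    have h1 := E.rank
    omega
  obtain ⟨v, hv⟩ : ∃ v, E.per v ≠ 0 := by
    by_contra hcon
    push Not at hcon
    have h1 : Submodule.span ℝ (Set.range E.per) = ⊥ := by
      rw [Submodule.span_eq_bot]
      rintro _ ⟨w, rfl⟩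
      exact hcon w
    rw [E.span] at h1
    have h3 : ∀ t : E.T, t = 0 := fun t => by
      have h4 : t ∈ (⊥ : Submodule ℝ E.T) := by
        rw [← h1]
        exact Submodule.mem_top
      exact (Submodule.mem_bot ℝ).1 h4
    have _ : Subsingleton E.T := ⟨fun a b => by rw [h3 a, h3 b]⟩
    have h5 : finrank ℂ E.T = 0 := finrank_zero_of_subsingleton
    omega
  obtain ⟨c, hc⟩ := exists_smul_eq_of_finrank_eq_one hT hv (Ψ (E.per v))
  have hall : ∀ t, Ψ t = c • t := by
    intro t
    obtain ⟨a, ha⟩ := exists_smul_eq_of_finrank_eq_one hT hv t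
    rw [← ha, map_smul, ← hc, smul_comm]
  refine ⟨h, c, v, ?_, fun w => by rw [← hΨ, hall], hv⟩
  have h3 : (c * c) • E.per v = (-(d : ℂ)) • E.per v := by
    rw [mul_smul, ← hall, ← hall, hΨ, hΨ, hsq, map_neg, neg_smul, per_smul]
  exact smul_left_injective ℂ hv h3

/-- Two elliptic curves with complex multiplication by the same field are isogenous. -/
theorem iso_of_unbalanced {E E' : AV} {d : ℚ} (h2 : finrank ℚ E.H = 2) (h2' : finrank ℚ E'.H = 2)
    (hE : Unbalanced E d) (hE' : Unbalanced E' d) :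
    ∃ (e : E'.H ≃ₗ[ℚ] E.H) (Θ : E'.T ≃ₗ[ℂ] E.T), ∀ v, Θ (E'.per v) = E.per (e v) := by
  have hd : 0 < d := hE.1
  obtain ⟨h, c, v, hc, hh, hv⟩ := exists_ell h2 hE
  obtain ⟨h₁, c', v', hc', hh₁, hv'⟩ := exists_ell h2' hE'
  -- the sign
  obtain ⟨h', hh'⟩ : ∃ h' : E'.H →ₗ[ℚ] E'.H, ∀ w, E'.per (h' w) = c • E'.per w := by
    have h3 : (c - c') * (c + c') = 0 := by
      linear_combination hc - hc'
    rcases mul_eq_zero.1 h3 with h4 | h4
    · have h5 : c = c' := sub_eq_zero.1 h4
      exact ⟨h₁, fun w => by rw [hh₁, h5]⟩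
    · have h5 : c = -c' := eq_neg_of_add_eq_zero_left h4
      refine ⟨-h₁, fun w => ?_⟩
      rw [LinearMap.neg_apply, map_neg, hh₁, h5, neg_smul]
  have hind : ∀ (F : AV) (g : F.H →ₗ[ℚ] F.H) (w : F.H), (∀ w, F.per (g w) = c • F.per w) →
      F.per w ≠ 0 → LinearIndependent ℚ ![w, g w] := by
    intro F g w hg hw
    rw [LinearIndependent.pair_iff]
    intro a b hab
    have h3 : ((a : ℂ) + (b : ℂ) * c) • F.per w = 0 := by
      have h4 := congrArg F.per hab
      rw [map_add, map_zero] at h4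
      rw [per_smul, per_smul, hg, smul_smul, ← add_smul] at h4
      exact h4
    have h4 : (a : ℂ) + (b : ℂ) * c = 0 := by
      rcases smul_eq_zero.1 h3 with h5 | h5
      · exact h5
      · exact absurd h5 hw
    have h5 : ((a ^ 2 + d * b ^ 2 : ℚ) : ℂ) = 0 := by
      push_cast
      linear_combination ((a : ℂ) - (b : ℂ) * c) * h4 + (b : ℂ) ^ 2 * hc
    have h6 : a ^ 2 + d * b ^ 2 = 0 := by exact_mod_cast h5
    have h7 : a ^ 2 = 0 := by nlinarith [sq_nonneg a, mul_nonneg hd.le (sq_nonneg b)]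
    have h8 : a = 0 := pow_eq_zero_iff two_ne_zero |>.1 h7
    have h9 : d * b ^ 2 = 0 := by linarith
    have h10 : b = 0 := by
      rcases mul_eq_zero.1 h9 with h | h
      · exact absurd h hd.ne'
      · exact pow_eq_zero_iff two_ne_zero |>.1 h
    exact ⟨h8, h10⟩
  let b := basisOfLinearIndependentOfCardEqFinrank (hind E h v hh hv) (by rw [h2]; rfl)
  let b' := basisOfLinearIndependentOfCardEqFinrank (hind E' h' v' hh' hv') (by rw [h2']; rfl)
  have hT : finrank ℂ E.T = 1 := by
    have h1 := E.rank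
    omega
  have hT' : finrank ℂ E'.T = 1 := by
    have h1 := E'.rank
    omega
  have hlin : ∀ (F : AV) (w : F.H), F.per w ≠ 0 →
      LinearIndependent ℂ (fun _ : Unit => F.per w) := by
    intro F w hw
    exact LinearIndependent.of_subsingleton () hw
  let t := basisOfLinearIndependentOfCardEqFinrank (hlin E v hv) (by rw [hT]; rfl)
  let t' := basisOfLinearIndependentOfCardEqFinrank (hlin E' v' hv') (by rw [hT']; rfl)
  have ht : t () = E.per v := congrFun (coe_basisOfLinearIndependentOfCardEqFinrank _ _) ()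
  have ht' : t' () = E'.per v' := congrFun (coe_basisOfLinearIndependentOfCardEqFinrank _ _) ()
  have hΘv : (t'.equiv t (Equiv.refl _)) (E'.per v') = E.per v := by
    rw [← ht', Basis.equiv_apply, ← ht]
  have hb : ∀ k, b k = ![v, h v] k := fun k =>
    congrFun (coe_basisOfLinearIndependentOfCardEqFinrank _ _) k
  have hb' : ∀ k, b' k = ![v', h' v'] k := fun k =>
    congrFun (coe_basisOfLinearIndependentOfCardEqFinrank _ _) k
  have hk : ∀ k, (t'.equiv t (Equiv.refl _)) (E'.per (b' k)) =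
      E.per ((b'.equiv b (Equiv.refl _)) (b' k)) := by
    intro k
    rw [Basis.equiv_apply, Equiv.refl_apply, hb, hb']
    fin_cases k
    · exact hΘv
    · change (t'.equiv t (Equiv.refl _)) (E'.per (h' v')) = E.per (h v)
      rw [hh', hh, map_smul, hΘv]
  refine ⟨b'.equiv b (Equiv.refl _), t'.equiv t (Equiv.refl _), fun w => ?_⟩
  rw [← b'.sum_repr w]
  simp only [map_sum, map_smul, per_smul, hk]

end

end Pool.Agent.K4H21.DB
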