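import Pool.Agent.K4H21.DB.Lat
import Pool.Agent.W547.LD.WeilVar

/-!
# CM fields and CM types belonging to subgroups of the stabilizer of a half system
-/

set_option linter.unusedSectionVars false
set_option linter.unusedVariables false
set_option autoImplicit false

namespace Pool.Agent.K4H21.DB

open NumberField Pool.Agent.H204R3.CM Equiv Module
open Pool.Agent.W547.KB (CMPair CMAV IsHom Wt ev evLin mono monoAlt mono_apply mono_eq_det
  St Balanced trForm trForm_apply isHodge_trForm cc emb_cc cc_cc cc_ne cc_comm comp_surjective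
  IsHalf)
open Pool.Agent.W547.LD (tr mem_tr tr_one tr_tr tr_compl tr_inv_tr tr_tr_inv tr_injective stab
  mem_stab tr_cc ne_compl isHalf_tr isCM_of_conj)

noncomputable section

variable {L : Type} [Field L] [NumberField L] [IsCMField L] [IsGalois ℚ L]

/-- The fixed field of a subgroup. -/
abbrev fK (K : Subgroup (L ≃ₐ[ℚ] L)) : IntermediateField ℚ L := IntermediateField.fixedField K

theorem mem_fK (K : Subgroup (L ≃ₐ[ℚ] L)) (x : L) : x ∈ fK K ↔ ∀ τ ∈ K, τ x = x :=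
  IntermediateField.mem_fixedField_iff _ _

theorem mem_K_iff (K : Subgroup (L ≃ₐ[ℚ] L)) (τ : L ≃ₐ[ℚ] L) : τ ∈ K ↔ ∀ x ∈ fK K, τ x = x := by
  have h := IntermediateField.fixingSubgroup_fixedField K
  constructor
  · intro h1 x hx
    exact (mem_fK K x).1 hx τ h1
  · intro h1
    rw [← h, IntermediateField.mem_fixingSubgroup_iff]
    exact h1

theorem fK_le {H K : Subgroup (L ≃ₐ[ℚ] L)} (h : K ≤ H) {x : L} (hx : x ∈ fK H) : x ∈ fK K :=
  (mem_fK K x).2 fun τ hτ => (mem_fK H x).1 hx τ (h hτ)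

/-- The embedding of the fixed field given by an automorphism. -/
def emK (K : Subgroup (L ≃ₐ[ℚ] L)) (τ : L ≃ₐ[ℚ] L) : fK K →+* L :=
  (τ : L →+* L).comp (algebraMap (fK K) L)

theorem emK_apply (K : Subgroup (L ≃ₐ[ℚ] L)) (τ : L ≃ₐ[ℚ] L) (x : fK K) : emK K τ x = τ x := rfl

theorem emK_eq_iff (K : Subgroup (L ≃ₐ[ℚ] L)) (τ τ' : L ≃ₐ[ℚ] L) :
    emK K τ = emK K τ' ↔ τ⁻¹ * τ' ∈ K := by
  rw [mem_K_iff]
  constructor
  · intro h x hx
    have h2 : τ x = τ' x := RingHom.congr_fun h ⟨x, hx⟩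
    change τ⁻¹ (τ' x) = x
    rw [← h2]
    exact τ.symm_apply_apply x
  · intro h
    ext x
    have h2 : τ⁻¹ (τ' x) = x := h x x.2
    rw [emK_apply, emK_apply]
    calc τ x = τ (τ⁻¹ (τ' x)) := by rw [h2]
      _ = τ' x := τ.apply_symm_apply _

theorem exists_emK (K : Subgroup (L ≃ₐ[ℚ] L)) (φ : fK K →+* L) : ∃ τ : L ≃ₐ[ℚ] L, φ = emK K τ := by
  let φ' : fK K →ₐ[ℚ] L := RingHom.equivRatAlgHom (fK K) L φ
  let f : L →ₐ[ℚ] L := φ'.liftNormal L
  have hf : Function.Bijective f := AlgHom.bijective f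
  refine ⟨AlgEquiv.ofBijective f hf, ?_⟩
  ext x
  exact (φ'.liftNormal_commutes L x).symm

theorem exists_emKC (j : L →+* ℂ) (K : Subgroup (L ≃ₐ[ℚ] L)) (ψ : fK K →+* ℂ) :
    ∃ τ : L ≃ₐ[ℚ] L, ψ = j.comp (emK K τ) := by
  obtain ⟨τ, hτ⟩ := comp_surjective j (ComplexEmbedding.lift L ψ)
  refine ⟨τ, ?_⟩
  have h1 : (ComplexEmbedding.lift L ψ).comp (algebraMap (fK K) L) = ψ :=
    ComplexEmbedding.lift_comp_algebraMap L ψ
  rw [← h1, ← hτ]
  rfl

/-- The CM type belonging to a half system. -/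
def tyK (j : L →+* ℂ) (K : Subgroup (L ≃ₐ[ℚ] L)) (S : Set (L ≃ₐ[ℚ] L)) : Set (fK K →+* ℂ) :=
  {ψ | ∃ σ ∈ S, ψ = j.comp (emK K σ)}

theorem mem_tyK (j : L →+* ℂ) {K : Subgroup (L ≃ₐ[ℚ] L)} {S : Set (L ≃ₐ[ℚ] L)}
    (hK : K ≤ stab S) (σ : L ≃ₐ[ℚ] L) : j.comp (emK K σ) ∈ tyK j K S ↔ σ ∈ S := by
  constructor
  · rintro ⟨σ', hσ', h⟩
    have h1 : emK K σ' = emK K σ := by
      ext x
      exact j.injective (RingHom.congr_fun h x).symm
    rw [emK_eq_iff] at h1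
    have h2 := (mem_stab _ S).1 (hK h1)
    have h3 : σ' ∈ tr (σ'⁻¹ * σ) S := by
      rw [h2]
      exact hσ'
    rw [mem_tr, mul_inv_cancel_left] at h3
    exact h3
  · intro h
    exact ⟨σ, h, rfl⟩

theorem conj_emK (j : L →+* ℂ) (K : Subgroup (L ≃ₐ[ℚ] L)) (σ : L ≃ₐ[ℚ] L) :
    ComplexEmbedding.conjugate (j.comp (emK K σ)) = j.comp (emK K (cc L * σ)) := by
  ext x
  rw [ComplexEmbedding.conjugate_coe_eq]
  change starRingEnd ℂ (j (σ x)) = j (cc L (σ x))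
  rw [emb_cc]

theorem isCMType_tyK (j : L →+* ℂ) {K : Subgroup (L ≃ₐ[ℚ] L)} {S : Set (L ≃ₐ[ℚ] L)}
    (hK : K ≤ stab S) (hS : IsHalf S) : IsCMType (tyK j K S) := by
  intro ψ
  obtain ⟨σ, rfl⟩ := exists_emKC j K ψ
  rw [conj_emK, mem_tyK j hK, mem_tyK j hK]
  exact hS σ

theorem cc_mem_fK (j : L →+* ℂ) (K : Subgroup (L ≃ₐ[ℚ] L)) {x : L} (hx : x ∈ fK K) :
    cc L x ∈ fK K := by
  rw [mem_fK]
  intro τ hτ
  have h1 : (τ * cc L) x = (cc L * τ) x := by rw [cc_comm j]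
  change (τ * cc L) x = cc L x
  rw [h1]
  exact congrArg (cc L) ((mem_fK K x).1 hx τ hτ)

/-- Complex conjugation on the fixed field. -/
def ccK (j : L →+* ℂ) (K : Subgroup (L ≃ₐ[ℚ] L)) : fK K ≃ₐ[ℚ] fK K :=
  AlgEquiv.ofAlgHom
    (((cc L : L →ₐ[ℚ] L).comp (fK K).val).codRestrict (fK K).toSubalgebra
      (fun x => cc_mem_fK j K x.2))
    (((cc L : L →ₐ[ℚ] L).comp (fK K).val).codRestrict (fK K).toSubalgebra
      (fun x => cc_mem_fK j K x.2))
    (by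
      ext x
      exact IsCMField.complexConj_apply_apply L x)
    (by
      ext x
      exact IsCMField.complexConj_apply_apply L x)

theorem coe_ccK (j : L →+* ℂ) (K : Subgroup (L ≃ₐ[ℚ] L)) (x : fK K) : (ccK j K x : L) = cc L x :=
  rfl

theorem isCM_fK (j : L →+* ℂ) {K : Subgroup (L ≃ₐ[ℚ] L)} (hc : cc L ∉ K) : IsCMField (fK K) := by
  have hconj : ∀ φ : fK K →+* ℂ, ComplexEmbedding.IsConj φ (ccK j K) := by
    intro φ
    obtain ⟨σ, rfl⟩ := exists_emKC j K φ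
    change ComplexEmbedding.conjugate (j.comp (emK K σ)) = _
    rw [conj_emK]
    ext x
    change j (cc L (σ x)) = j (σ (ccK j K x))
    rw [coe_ccK]
    have h1 : (cc L * σ) x = (σ * cc L) x := by rw [cc_comm j]
    exact congrArg j h1
  have htc : IsTotallyComplex (fK K) := by
    refine ⟨fun w => ?_⟩
    rw [InfinitePlace.isComplex_iff]
    intro hreal
    obtain ⟨σ, hσ⟩ := exists_emKC j K w.embedding
    rw [hσ] at hreal
    have h1 : ComplexEmbedding.conjugate (j.comp (emK K σ)) = j.comp (emK K σ) := hreal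
    rw [conj_emK] at h1
    have h2 : emK K (cc L * σ) = emK K σ := by
      ext x
      exact j.injective (RingHom.congr_fun h1 x)
    rw [emK_eq_iff] at h2
    have h5 : (cc L * σ)⁻¹ * σ = cc L := by
      rw [cc_comm j, mul_inv_rev, mul_assoc, inv_mul_cancel, mul_one]
      exact inv_eq_of_mul_eq_one_left cc_cc
    rw [h5] at h2
    exact hc h2
  exact isCM_of_conj (fK K) hconj

theorem cc_notMem (j : L →+* ℂ) {K : Subgroup (L ≃ₐ[ℚ] L)} {S : Set (L ≃ₐ[ℚ] L)}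
    (hS : IsHalf S) (hK : K ≤ stab S) : cc L ∉ K := by
  intro h
  have h1 := (mem_stab _ S).1 (hK h)
  rw [tr_cc j hS] at h1
  exact ne_compl S h1.symm

/-- The CM type belonging to a half system and to a subgroup of its stabilizer. -/
def pairK (j : L →+* ℂ) (K : Subgroup (L ≃ₐ[ℚ] L)) (S : Set (L ≃ₐ[ℚ] L)) (hS : IsHalf S)
    (hK : K ≤ stab S) : CMPair :=
  letI := isCM_fK j (cc_notMem j hS hK)
  ⟨fK K, tyK j K S, isCMType_tyK j hK hS⟩

theorem finrank_fK (K : Subgroup (L ≃ₐ[ℚ] L)) : finrank ℚ (fK K) * Nat.card K = finrank ℚ L := by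
  have h1 : finrank (fK K) L = Nat.card K := IntermediateField.finrank_fixedField_eq_card _
  rw [← h1]
  exact finrank_mul_finrank ℚ (fK K) L

theorem card_emK (j : L →+* ℂ) (K : Subgroup (L ≃ₐ[ℚ] L)) :
    Nat.card (fK K →+* L) = finrank ℚ (fK K) := by
  have h2 : Function.Bijective (fun φ : fK K →+* L => j.comp φ) := by
    constructor
    · intro φ φ' h
      ext a
      exact j.injective (RingHom.congr_fun h a)
    · intro ψ
      obtain ⟨τ, hτ⟩ := exists_emKC j K ψ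
      exact ⟨emK K τ, hτ.symm⟩
  rw [Nat.card_eq_of_bijective _ h2, Nat.card_eq_fintype_card, Embeddings.card]

section orb

/-- The number of the elements of an orbit. -/
theorem card_orb (H : Subgroup (L ≃ₐ[ℚ] L)) (S : Set (L ≃ₐ[ℚ] L)) :
    Nat.card {S' : Set (L ≃ₐ[ℚ] L) // ∃ τ ∈ H, tr τ S = S'} *
      Nat.card (H ⊓ stab S : Subgroup (L ≃ₐ[ℚ] L)) = Nat.card H := by
  classical
  let f : H → {S' : Set (L ≃ₐ[ℚ] L) // ∃ τ ∈ H, tr τ S = S'} := fun τ => ⟨tr τ.1 S, τ.1, τ.2, rfl⟩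
  have h1 : Nat.card H = ∑ y : {S' : Set (L ≃ₐ[ℚ] L) // ∃ τ ∈ H, tr τ S = S'},
      Nat.card {τ : H // f τ = y} := by
    rw [← Nat.card_sigma]
    exact Nat.card_congr (Equiv.sigmaFiberEquiv f).symm
  have h2 : ∀ y : {S' : Set (L ≃ₐ[ℚ] L) // ∃ τ ∈ H, tr τ S = S'},
      Nat.card {τ : H // f τ = y} = Nat.card (H ⊓ stab S : Subgroup (L ≃ₐ[ℚ] L)) := by
    rintro ⟨_, τ0, hτ0, rfl⟩
    refine Nat.card_congr
      { toFun := fun τ => ⟨τ0⁻¹ * τ.1.1, H.mul_mem (H.inv_mem hτ0) τ.1.2, ?_⟩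
        invFun := fun σ => ⟨⟨τ0 * σ.1, H.mul_mem hτ0 σ.2.1⟩, ?_⟩
        left_inv := fun τ => ?_
        right_inv := fun σ => ?_ }
    · have h3 : tr τ.1.1 S = tr τ0 S := congrArg Subtype.val τ.2
      change tr (τ0⁻¹ * τ.1.1) S = S
      rw [← tr_tr, h3, tr_inv_tr]
    · refine Subtype.ext ?_
      change tr (τ0 * σ.1) S = tr τ0 S
      have h3 : tr σ.1 S = S := σ.2.2
      rw [← tr_tr, h3]
    · refine Subtype.ext (Subtype.ext ?_)
      exact mul_inv_cancel_left _ _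
    · refine Subtype.ext ?_
      exact inv_mul_cancel_left _ _
  rw [h1, Finset.sum_congr rfl fun y _ => h2 y, Finset.sum_const, Finset.card_univ, smul_eq_mul,
    Nat.card_eq_fintype_card]

theorem finrank_inf (H : Subgroup (L ≃ₐ[ℚ] L)) (S : Set (L ≃ₐ[ℚ] L)) :
    finrank ℚ (fK (H ⊓ stab S)) =
      Nat.card {S' : Set (L ≃ₐ[ℚ] L) // ∃ τ ∈ H, tr τ S = S'} * finrank ℚ (fK H) := by
  have h1 := finrank_fK (H ⊓ stab S)
  have h2 := finrank_fK H
  have h3 := card_orb H S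
  have h4 : 0 < Nat.card (H ⊓ stab S : Subgroup (L ≃ₐ[ℚ] L)) := Nat.card_pos
  rw [← h2, ← h3] at h1
  refine Nat.eq_of_mul_eq_mul_right h4 (h1.trans ?_)
  ring

end orb

end

end Pool.Agent.K4H21.DB
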