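import Pool.Agent.K4H21.DB.Sy
import Pool.Agent.K4H34.VR.Short

/-!
# The lattice of relations between half systems, and balanced families
-/

set_option linter.unusedSectionVars false
set_option linter.unusedVariables false
set_option autoImplicit false

namespace Pool.Agent.K4H21.DB

open NumberField Pool.Agent.H204R3.CM Equiv Module
open Pool.Agent.W547.KB (CMPair CMAV IsHom Wt ev evLin mono monoAlt St Balanced cc IsHalf)
open Pool.Agent.K4H34.VR (Short span_short short_neg)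

noncomputable section

open Classical in
/-- The sign function of a set. -/
def sg {G : Type} (S : Set G) (σ : G) : ℤ := if σ ∈ S then 1 else -1

theorem sg_compl {G : Type} (S : Set G) (σ : G) : sg Sᶜ σ = -sg S σ := by
  unfold sg
  by_cases h : σ ∈ S
  · rw [if_pos h, if_neg (by simpa using h)]
  · rw [if_neg h, if_pos (by simpa using h), neg_neg]

/-- The odd integral relations between the sign functions of the sets in `P`. -/
def Lam {G : Type} [Fintype G] (P : Set (Set G)) : Submodule ℤ (Set G → ℤ) where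
  carrier := {a | (∀ S, S ∉ P → a S = 0) ∧ (∀ S, a Sᶜ = -a S) ∧ ∀ σ, ∑ S, a S * sg S σ = 0}
  zero_mem' := ⟨fun _ _ => rfl, fun _ => by simp, fun _ => by simp⟩
  add_mem' := by
    rintro a b ⟨h1, h2, h3⟩ ⟨h1', h2', h3'⟩
    refine ⟨fun S hS => ?_, fun S => ?_, fun σ => ?_⟩
    · rw [Pi.add_apply, h1 S hS, h1' S hS, add_zero]
    · rw [Pi.add_apply, Pi.add_apply, h2, h2']
      ring
    · simp only [Pi.add_apply, add_mul, Finset.sum_add_distrib]
      rw [h3, h3', add_zero]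
  smul_mem' := by
    rintro c a ⟨h1, h2, h3⟩
    refine ⟨fun S hS => ?_, fun S => ?_, fun σ => ?_⟩
    · rw [Pi.smul_apply, h1 S hS, smul_zero]
    · rw [Pi.smul_apply, Pi.smul_apply, h2, smul_neg]
    · simp only [Pi.smul_apply, smul_eq_mul, mul_assoc]
      rw [← Finset.mul_sum, h3, mul_zero]

theorem mem_Lam {G : Type} [Fintype G] {P : Set (Set G)} {a : Set G → ℤ} :
    a ∈ Lam P ↔ (∀ S, S ∉ P → a S = 0) ∧ (∀ S, a Sᶜ = -a S) ∧ ∀ σ, ∑ S, a S * sg S σ = 0 := Iff.rfl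

variable {L : Type} [Field L] [NumberField L] [IsCMField L] [IsGalois ℚ L]

section odd

variable {κ κ' : Type} [Fintype κ] [DecidableEq κ] [Fintype κ'] [DecidableEq κ']

theorem odd_mem {P : Set (Set (L ≃ₐ[ℚ] L))} (hP : ∀ S ∈ P, Sᶜ ∈ P) {s : κ → Set (L ≃ₐ[ℚ] L)}
    (hs : ∀ k, s k ∈ P) (hb : Balanced s) : odd s ∈ Lam P := by
  classical
  refine ⟨fun S hS => ?_, fun S => ?_, fun σ => ?_⟩
  · unfold odd
    refine Finset.sum_eq_zero fun k _ => ?_
    have e1 : s k ≠ S := fun h => hS (by rw [← h]; exact hs k)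
    have e2 : s k ≠ Sᶜ := fun h => hS (by
      have h1 := hP _ (hs k)
      rwa [h, compl_compl] at h1)
    rw [if_neg e1, if_neg e2, sub_zero]
  · unfold odd
    rw [← Finset.sum_neg_distrib]
    refine Finset.sum_congr rfl fun k _ => ?_
    rw [compl_compl]
    ring
  · unfold odd
    have h1 : ∀ S : Set (L ≃ₐ[ℚ] L), (∑ k, ((if s k = S then (1 : ℤ) else 0) -
        (if s k = Sᶜ then 1 else 0))) * sg S σ =
        ∑ k, ((if s k = S then sg S σ else 0) - (if s k = Sᶜ then sg S σ else 0)) := by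
      intro S
      rw [Finset.sum_mul]
      refine Finset.sum_congr rfl fun k _ => ?_
      split_ifs <;> ring
    rw [Finset.sum_congr rfl fun S _ => h1 S, Finset.sum_comm]
    have h2 : ∀ k, ∑ S : Set (L ≃ₐ[ℚ] L), ((if s k = S then sg S σ else 0) -
        (if s k = Sᶜ then sg S σ else 0)) = 2 * sg (s k) σ := by
      intro k
      rw [Finset.sum_sub_distrib, Finset.sum_ite_eq, if_pos (Finset.mem_univ _)]
      have h3 : ∀ S : Set (L ≃ₐ[ℚ] L), (if s k = Sᶜ then sg S σ else 0) =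
          if (s k)ᶜ = S then sg S σ else 0 := by
        intro S
        have h4 : (s k = Sᶜ) ↔ ((s k)ᶜ = S) := by
          rw [compl_eq_comm]
          exact eq_comm
        simp only [h4]
      rw [Finset.sum_congr rfl fun S _ => h3 S, Finset.sum_ite_eq, if_pos (Finset.mem_univ _),
        sg_compl]
      ring
    rw [Finset.sum_congr rfl fun k _ => h2 k, ← Finset.mul_sum]
    have h3 : ∑ k, sg (s k) σ = 0 := hb σ
    rw [h3, mul_zero]

/-- The family with the multiplicities given by the positive part of `a`. -/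
def pf (a : Set (L ≃ₐ[ℚ] L) → ℤ) : (Σ S : Set (L ≃ₐ[ℚ] L), Fin (a S).toNat) → Set (L ≃ₐ[ℚ] L) :=
  fun k => k.1

theorem sum_pf {M : Type} [AddCommMonoid M] (a : Set (L ≃ₐ[ℚ] L) → ℤ)
    (f : Set (L ≃ₐ[ℚ] L) → M) : ∑ k : (Σ S : Set (L ≃ₐ[ℚ] L), Fin (a S).toNat), f k.1 =
      ∑ S, (a S).toNat • f S := by
  rw [Fintype.sum_sigma]
  refine Finset.sum_congr rfl fun S _ => ?_
  change ∑ _y : Fin (a S).toNat, f S = _
  rw [Finset.sum_const, Finset.card_univ, Fintype.card_fin]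

theorem odd_pf {a : Set (L ≃ₐ[ℚ] L) → ℤ} (ha : ∀ S, a Sᶜ = -a S) : odd (pf a) = a := by
  classical
  funext S
  have h0 : odd (pf a) S = ∑ T, (a T).toNat • ((if T = S then (1 : ℤ) else 0) -
      (if T = Sᶜ then 1 else 0)) :=
    sum_pf a fun T => ((if T = S then (1 : ℤ) else 0) - (if T = Sᶜ then 1 else 0))
  rw [h0]
  have h1 : ∀ T : Set (L ≃ₐ[ℚ] L), (a T).toNat • ((if T = S then (1 : ℤ) else 0) -
      (if T = Sᶜ then 1 else 0)) = (if T = S then ((a T).toNat : ℤ) else 0) -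
        (if T = Sᶜ then ((a T).toNat : ℤ) else 0) := by
    intro T
    rw [nsmul_eq_mul]
    split_ifs <;> simp
  rw [Finset.sum_congr rfl fun T _ => h1 T, Finset.sum_sub_distrib, Finset.sum_ite_eq',
    Finset.sum_ite_eq', if_pos (Finset.mem_univ _), if_pos (Finset.mem_univ _), ha]
  exact Int.toNat_sub_toNat_neg _

theorem balanced_pf {a : Set (L ≃ₐ[ℚ] L) → ℤ} (ha : ∀ S, a Sᶜ = -a S)
    (hr : ∀ σ, ∑ S, a S * sg S σ = 0) : Balanced (pf a) := by
  classical
  intro σ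
  change ∑ k : (Σ S : Set (L ≃ₐ[ℚ] L), Fin (a S).toNat), sg k.1 σ = 0
  rw [sum_pf a fun S => sg S σ]
  have h1 : ∑ S, (a S).toNat • sg S σ = ∑ S, (-a S).toNat • (-sg S σ) := by
    rw [← Equiv.sum_comp (Equiv.mk compl compl (compl_compl ·) (compl_compl ·) :
      Set (L ≃ₐ[ℚ] L) ≃ Set (L ≃ₐ[ℚ] L))]
    refine Finset.sum_congr rfl fun S _ => ?_
    change (a Sᶜ).toNat • sg Sᶜ σ = _
    rw [ha, sg_compl]
  have h2 : ∑ S, (a S).toNat • sg S σ + ∑ S, (a S).toNat • sg S σ = 0 := by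
    nth_rewrite 2 [h1]
    rw [← Finset.sum_add_distrib, ← hr σ]
    refine Finset.sum_congr rfl fun S _ => ?_
    rw [nsmul_eq_mul, nsmul_eq_mul]
    have h3 : ((a S).toNat : ℤ) - ((-a S).toNat : ℤ) = a S := Int.toNat_sub_toNat_neg _
    calc ((a S).toNat : ℤ) * sg S σ + ((-a S).toNat : ℤ) * -sg S σ =
        (((a S).toNat : ℤ) - ((-a S).toNat : ℤ)) * sg S σ := by ring
      _ = a S * sg S σ := by rw [h3]
  omega

end odd

section gen

variable (𝒞 : CSys)

theorem cancel_fin (j : L →+* ℂ) (n : ℕ) : ∀ (κ : Type) [Fintype κ] [DecidableEq κ]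
    (s : κ → Set (L ≃ₐ[ℚ] L)), (∀ k, IsHalf (s k)) → ∀ t : Fin n → Set (L ≃ₐ[ℚ] L),
    (∀ k, IsHalf (t k)) → AlgC 𝒞 j (Sum.elim s (Sum.elim (fun k => (t k)ᶜ) t)) → AlgC 𝒞 j s := by
  induction n with
  | zero =>
    intro κ _ _ s hs t ht h
    refine algC_reindex 𝒞 (Equiv.sumEmpty κ (Fin 0 ⊕ Fin 0)) h ?_
    rintro (k | k | k)
    · rfl
    · exact k.elim0
    · exact k.elim0
  | succ n ih =>
    intro κ _ _ s hs t ht h
    refine ih κ s hs (fun k => t k.castSucc) (fun k => ht _) ?_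
    refine algC_cancel 𝒞 j ?_ (ht (Fin.last n)).compl ?_
    · rintro (k | k | k)
      · exact hs k
      · exact (ht _).compl
      · exact ht _
    · let e1 : Fin n ⊕ Fin 1 ≃ Fin (n + 1) := finSumFinEquiv
      let e : κ ⊕ (Fin (n + 1) ⊕ Fin (n + 1)) ≃ (κ ⊕ (Fin n ⊕ Fin n)) ⊕ Fin 2 :=
        ((Equiv.refl κ).sumCongr ((e1.symm.sumCongr e1.symm).trans
          ((Equiv.sumSumSumComm (Fin n) (Fin 1) (Fin n) (Fin 1)).trans
            ((Equiv.refl (Fin n ⊕ Fin n)).sumCongr finSumFinEquiv)))).trans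
          (Equiv.sumAssoc κ (Fin n ⊕ Fin n) (Fin 2)).symm
      refine algC_reindex 𝒞 e h ?_
      have key : ∀ x, Sum.elim s (Sum.elim (fun k => (t k)ᶜ) t) (e.symm x) =
          Sum.elim (Sum.elim s (Sum.elim (fun k => (t k.castSucc)ᶜ) fun k => t k.castSucc))
            ![(t (Fin.last n))ᶜ, (t (Fin.last n))ᶜᶜ] x := by
        rintro ((k | k | k) | k)
        · rfl
        · rfl
        · rfl
        · fin_cases k
          · rfl
          · change t _ = (t (Fin.last n))ᶜᶜ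
            rw [compl_compl]
            rfl
      intro k
      have h1 := key (e k)
      rw [Equiv.symm_apply_apply] at h1
      exact h1.symm

/-- Whether a family belongs to the system depends only on its odd part. -/
theorem alg_of_odd_eq (j : L →+* ℂ) {κ κ' : Type} [Fintype κ] [DecidableEq κ] [Fintype κ']
    [DecidableEq κ'] {s : κ → Set (L ≃ₐ[ℚ] L)} {t : κ' → Set (L ≃ₐ[ℚ] L)}
    (hs : ∀ k, IsHalf (s k)) (ht : ∀ k, IsHalf (t k)) (h : odd s = odd t) (hA : AlgC 𝒞 j t) :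
    AlgC 𝒞 j s := by
  classical
  let e : κ' ≃ Fin (Fintype.card κ') := Fintype.equivFin κ'
  let t' : Fin (Fintype.card κ') → Set (L ≃ₐ[ℚ] L) := fun k => t (e.symm k)
  refine cancel_fin 𝒞 j _ κ s hs t' (fun k => ht _) ?_
  have h1 : AlgC 𝒞 j (Sum.elim s fun k => (t k)ᶜ) := fun X =>
    algR_of_odd (𝒞.ring X) j _ _ rfl _ fun S => by
      rw [odd_sum, odd_compl, h]
      omega
  have h2 := algC_sum 𝒞 h1 hA
  refine algC_reindex 𝒞 ((Equiv.sumAssoc κ κ' κ').trans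
    ((Equiv.refl κ).sumCongr (e.sumCongr e))) h2 ?_
  rintro ((k | k) | k)
  · rfl
  · change (t (e.symm (e k)))ᶜ = (t k)ᶜ
    rw [e.symm_apply_apply]
  · change t (e.symm (e k)) = t k
    rw [e.symm_apply_apply]

/-- The relation `a` belongs to the system. -/
def Ok (j : L →+* ℂ) (a : Set (L ≃ₐ[ℚ] L) → ℤ) : Prop :=
  ∃ (κ : Type) (_ : Fintype κ) (_ : DecidableEq κ) (t : κ → Set (L ≃ₐ[ℚ] L)),
    (∀ k, IsHalf (t k)) ∧ odd t = a ∧ AlgC 𝒞 j t

theorem Ok.alg {j : L →+* ℂ} {a : Set (L ≃ₐ[ℚ] L) → ℤ} (h : Ok 𝒞 j a) {κ : Type} [Fintype κ]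
    [DecidableEq κ] {s : κ → Set (L ≃ₐ[ℚ] L)} (hs : ∀ k, IsHalf (s k)) (hsa : odd s = a) :
    AlgC 𝒞 j s := by
  obtain ⟨κ', _, _, t, ht, hta, hA⟩ := h
  exact alg_of_odd_eq 𝒞 j hs ht (hsa.trans hta.symm) hA

theorem ok_zero (j : L →+* ℂ) : Ok 𝒞 j 0 := by
  refine ⟨Empty, inferInstance, inferInstance, fun k => k.elim, fun k => k.elim, ?_, fun X =>
    algR_empty (𝒞.ring X) j _⟩
  funext S
  rfl

theorem Ok.add {j : L →+* ℂ} {a b : Set (L ≃ₐ[ℚ] L) → ℤ} (ha : Ok 𝒞 j a) (hb : Ok 𝒞 j b) :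
    Ok 𝒞 j (a + b) := by
  obtain ⟨κ, _, _, s, hs, hsa, hA⟩ := ha
  obtain ⟨κ', _, _, t, ht, hta, hB⟩ := hb
  refine ⟨κ ⊕ κ', inferInstance, inferInstance, Sum.elim s t, ?_, ?_, algC_sum 𝒞 hA hB⟩
  · rintro (k | k)
    · exact hs k
    · exact ht k
  · funext S
    rw [odd_sum, hsa, hta]
    rfl

/-- If the short relations belong to the system then so do all relations. -/
theorem ok_of_short {j : L →+* ℂ} {P : Set (Set (L ≃ₐ[ℚ] L))}
    (h : ∀ v ∈ Short (Lam P), Ok 𝒞 j v) : ∀ a ∈ Lam P, Ok 𝒞 j a := by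
  have key : ∀ a ∈ Submodule.span ℤ (Short (Lam P)), Ok 𝒞 j a ∧ Ok 𝒞 j (-a) := by
    intro a ha
    induction ha using Submodule.span_induction with
    | mem v hv => exact ⟨h v hv, h _ (short_neg hv)⟩
    | zero => exact ⟨ok_zero 𝒞 j, by rw [neg_zero]; exact ok_zero 𝒞 j⟩
    | add a b _ _ ha hb =>
      refine ⟨ha.1.add 𝒞 hb.1, ?_⟩
      rw [neg_add]
      exact ha.2.add 𝒞 hb.2
    | smul c a _ ha =>
      have hn : ∀ n : ℕ, Ok 𝒞 j ((n : ℤ) • a) ∧ Ok 𝒞 j (-((n : ℤ) • a)) := by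
        intro n
        induction n with
        | zero =>
          rw [Nat.cast_zero, zero_smul, neg_zero]
          exact ⟨ok_zero 𝒞 j, ok_zero 𝒞 j⟩
        | succ n ih =>
          have h1 : ((n + 1 : ℕ) : ℤ) • a = (n : ℤ) • a + a := by
            push_cast
            rw [add_smul, one_smul]
          rw [h1, neg_add]
          exact ⟨ih.1.add 𝒞 ha.1, ih.2.add 𝒞 ha.2⟩
      obtain ⟨n, rfl | rfl⟩ := c.eq_nat_or_neg
      · exact hn n
      · rw [neg_smul, neg_neg]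
        exact ⟨(hn n).2, (hn n).1⟩
  intro a ha
  rw [← span_short (Lam P)] at ha
  exact (key a ha).1

end gen

end

end Pool.Agent.K4H21.DB
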