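import Pool.Agent.K4H21.DB.Pf

/-!
# The Weil classes which generate all Hodge classes on the powers of an abelian variety of CM type
-/

set_option linter.unusedSectionVars false
set_option linter.unusedVariables false
set_option autoImplicit false

namespace Pool.Agent.K4H21.DB

open Module NumberField Pool.Agent.Y90 Pool.Agent.R915 Pool.Agent.K4H29.HC
open Pool.Agent.H204R3.CM (IsHodge)
open Pool.Agent.W547.KB (CMPair CMAV Wt ev St IsHalf isHalf_St exists_cm)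
open Pool.Agent.W547.LD (tr mem_tr tr_one tr_tr tr_compl tr_inv_tr tr_tr_inv stab mem_stab Orb)
open Pool.Agent.K4H34.VR (Short card_short)

noncomputable section

variable {L : Type} [Field L] [NumberField L] [IsCMField L] [IsGalois ℚ L]

section one

variable {P : Set (Set (L ≃ₐ[ℚ] L))} (hH : ∀ S ∈ P, IsHalf S)
  (hst : ∀ (τ : L ≃ₐ[ℚ] L), ∀ S ∈ P, tr τ S ∈ P)

include hst in
theorem xV_mem {v : Set (L ≃ₐ[ℚ] L) → ℤ} (hv : v ∈ Lam P) (q : QV v) : xV v q ∈ P := by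
  by_contra h
  have h1 := xV_pos v q
  rw [hv.1 _ h] at h1
  exact lt_irrefl _ h1

include hH hst in
/-- The Weil class belonging to a relation. -/
theorem exists_weil (j : L →+* ℂ) {v : Set (L ≃ₐ[ℚ] L) → ℤ} (hv : v ∈ Lam P) (h0 : v ≠ 0) :
    ∃ (W : WeilData) (w : W.B.H [⋀^Fin W.n]→ₗ[ℚ] ℚ), W.IsWeil w ∧ w ≠ 0 ∧
      finrank ℚ W.T = finrank ℚ (fK (stv v)) ∧ W.n = Fintype.card (Orb (stv v) (xV v)) ∧
      (∀ X0 : CMAV, P = PX j X0 → IsPowerFactor W.B (toAV X0)) ∧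
      ∀ 𝒜 : Sys, 𝒜.A W.B (Fin W.n) w → Ok (csys 𝒜) j v := by
  classical
  have hx := isHalf_xV hH hv
  obtain ⟨h4, -⟩ := card_orbV hv h0
  obtain ⟨α, hα⟩ := exists_trForm_ne j (stv v) (xV v) hx
    (Fintype.equivFin (Orb (stv v) (xV v)))
  let W : WeilData :=
    { T := fK (stv v)
      cm := isCM_fK j (cc_notMem_stv hH hst j hv h0)
      B := toAV (wv j (stv v) (xV v) hx)
      act := actK j (stv v) (xV v) hx
      hom := fun t => isHom_toAV (isHom_actK j (stv v) (xV v) hx t)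
      n := Fintype.card (Orb (stv v) (xV v))
      rank := finrank_wv j (stv v) (xV v) hx }
  refine ⟨W, _, ⟨isHodge_own j (stv v) (xV v) hx (Fintype.equivFin (Orb (stv v) (xV v)))
    (balanced_sV hv) α, isW_trForm j (stv v) (xV v) hx
      (Fintype.equivFin (Orb (stv v) (xV v))) α⟩, hα, rfl, rfl, fun X0 hX0 => ?_, fun 𝒜 hA => ?_⟩
  · refine powerFactor_of_wt j fun q => ?_
    have h5 := xV_mem hst hv q
    rw [hX0] at h5
    obtain ⟨y, hy⟩ := h5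
    refine ⟨(wK j (stv v) (xV v) hx q 1).2, y, ?_⟩
    have h6 := St_wK j (stv v) (xV v) hx q 1
    rw [tr_one] at h6
    exact h6.trans hy.symm
  · exact ok_of_sV (csys 𝒜) hH hv (algC_of_weil j (stv v) (xV v) hx
      (Fintype.equivFin (Orb (stv v) (xV v))) (csys 𝒜) (by omega) rfl
      (isW_trForm j (stv v) (xV v) hx (Fintype.equivFin (Orb (stv v) (xV v))) α) hα hA)

end one

theorem two_le_finrank (j : L →+* ℂ) {P : Set (Set (L ≃ₐ[ℚ] L))} (hH : ∀ S ∈ P, IsHalf S)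
    (hst : ∀ (τ : L ≃ₐ[ℚ] L), ∀ S ∈ P, tr τ S ∈ P) {v : Set (L ≃ₐ[ℚ] L) → ℤ} (hv : v ∈ Lam P)
    (h0 : v ≠ 0) : 2 ≤ finrank ℚ (fK (stv v)) := by
  have h1 := finrank_fK (stv v)
  rw [← IsGalois.card_aut_eq_finrank ℚ L] at h1
  by_contra hcon
  have h2 : 0 < finrank ℚ (fK (stv v)) := finrank_pos
  have h3 : finrank ℚ (fK (stv v)) = 1 := by omega
  rw [h3, one_mul] at h1
  have h4 : stv v = ⊤ := Subgroup.eq_top_of_card_eq _ h1
  apply cc_notMem_stv hH hst j hv h0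
  rw [h4]
  exact Subgroup.mem_top _

/-- The Weil classes belonging to the short relations. -/
theorem exists_family (j : L →+* ℂ) {P : Set (Set (L ≃ₐ[ℚ] L))} (hH : ∀ S ∈ P, IsHalf S)
    (hst : ∀ (τ : L ≃ₐ[ℚ] L), ∀ S ∈ P, tr τ S ∈ P) :
    ∃ (ι : Type) (_ : Fintype ι) (W : ι → WeilData)
      (w : ∀ i, (W i).B.H [⋀^Fin (W i).n]→ₗ[ℚ] ℚ),
      Fintype.card ι ≤ 2 ^ finrank ℤ (Lam P) - 1 ∧
      ∑ i, finrank ℚ (W i).T ≤ 2 ^ (finrank ℤ (Lam P) + 1) - 2 ∧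
      (∀ i, (W i).IsWeil (w i) ∧ w i ≠ 0 ∧ 4 ≤ (W i).n ∧ Even (W i).n ∧
        (finrank ℚ (W i).T = 2 → 8 ≤ (W i).n)) ∧
      (∀ X0 : CMAV, P = PX j X0 → ∀ i, IsPowerFactor (W i).B (toAV X0)) ∧
      ∀ 𝒜 : Sys, (∀ i, 𝒜.A (W i).B (Fin (W i).n) (w i)) → ∀ a ∈ Lam P, Ok (csys 𝒜) j a := by
  classical
  obtain ⟨ι, _, v, hv1, hv2, hsum⟩ := exists_reps (P := P) hst
  have hv0 : ∀ i, v i ≠ 0 := fun i => (hv1 i).2.1
  have hvL : ∀ i, v i ∈ Lam P := fun i => (hv1 i).1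
  choose W w hW1 hW2 hW3 hW4 hW5 hW6 using fun i => exists_weil hH hst j (hvL i) (hv0 i)
  have hle := (card_short (Lam P)).2
  rw [← hsum] at hle
  let ι' : Type := {i : ι // ¬(finrank ℚ (fK (stv (v i))) = 2 ∧
    Fintype.card (Orb (stv (v i)) (xV (v i))) ≤ 7)}
  have hs1 : ∑ i : ι', finrank ℚ (W i.1).T ≤ 2 ^ (finrank ℤ (Lam P) + 1) - 2 := by
    refine le_trans ?_ hle
    have e1 : ∑ i : ι', finrank ℚ (W i.1).T = ∑ i : ι', finrank ℚ (fK (stv (v i.1))) :=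
      Finset.sum_congr rfl fun i _ => hW3 i.1
    have e2 := Fintype.sum_subtype_add_sum_subtype (fun i : ι =>
      ¬(finrank ℚ (fK (stv (v i))) = 2 ∧ Fintype.card (Orb (stv (v i)) (xV (v i))) ≤ 7))
      (fun i => finrank ℚ (fK (stv (v i))))
    rw [e1, ← e2]
    exact Nat.le_add_right _ _
  refine ⟨ι', inferInstance, fun i => W i.1, fun i => w i.1, ?_, hs1, fun i => ⟨hW1 i.1, hW2 i.1,
    ?_, ?_, fun h2 => ?_⟩, fun X0 hX0 i => hW5 i.1 X0 hX0, fun 𝒜 hA => ?_⟩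
  · have e1 : ∑ i : ι', 2 ≤ ∑ i : ι', finrank ℚ (W i.1).T := by
      refine Finset.sum_le_sum fun i _ => ?_
      rw [hW3]
      exact two_le_finrank j hH hst (hvL i.1) (hv0 i.1)
    rw [Finset.sum_const, Finset.card_univ, smul_eq_mul] at e1
    have e2 := e1.trans hs1
    rw [pow_succ] at e2
    omega
  · rw [hW4]
    exact (card_orbV (hvL i.1) (hv0 i.1)).1
  · rw [hW4]
    exact (card_orbV (hvL i.1) (hv0 i.1)).2
  · rw [hW3] at h2
    rw [hW4]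
    by_contra hcon
    exact i.2 ⟨h2, by omega⟩
  · refine ok_of_short (csys 𝒜) fun u hu => ?_
    obtain ⟨i, τ, rfl⟩ := hv2 u hu
    refine Ok.gal (csys 𝒜) ?_ τ
    by_cases hi : finrank ℚ (fK (stv (v i))) = 2 ∧
        Fintype.card (Orb (stv (v i)) (xV (v i))) ≤ 7
    · exact ok_imag hH hst (csys 𝒜) (dw_mem 𝒜) j (hvL i) (hv0 i) hi.1 hi.2
    · exact hW6 i 𝒜 (hA ⟨i, hi⟩)

end

end Pool.Agent.K4H21.DB
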