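import Pool.Agent.K4H21.DB.Bas
import Pool.Agent.K4H21.DB.Ell
import Pool.Agent.K4H29.HC.PosG

/-!
# Abelian varieties with factors without complex multiplication
-/

set_option linter.unusedSectionVars false
set_option linter.unusedVariables false
set_option autoImplicit false

namespace Pool.Agent.K4H21.DB

open Matrix Module NumberField Pool.Agent.Y90 Pool.Agent.R915 Pool.Agent.K4H29.HC
open Pool.Agent.W437.HC
open Pool.Agent.TH504.CB (isHodge_comp)
open Pool.Agent.H204R3.CM (IsHodge)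
open Pool.Agent.W547.KB (CMPair CMAV Wt ev St IsHalf isHalf_St exists_cm Balanced)
open Pool.Agent.W547.LD (tr mem_tr tr_one tr_tr tr_compl tr_inv_tr tr_tr_inv stab mem_stab Orb)
open Pool.Agent.W547.LN (SameType)

noncomputable section

/-- A factor of a power of a factor of `X` is a factor of a power of `X`. -/
theorem powerFactor_of_retract {B C X : AV} (I : C.H →ₗ[ℚ] X.H) (R : X.H →ₗ[ℚ] C.H)
    (hI : IsHom C X I) (hR : IsHom X C R) (hRI : ∀ v, R (I v) = v) (hB : IsPowerFactor B C) :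
    IsPowerFactor B X := by
  obtain ⟨m, i, p, hi, hp, hpi⟩ := hB
  refine ⟨m, (LinearMap.pi fun k => I.comp (LinearMap.proj k)).comp i,
    p.comp (LinearMap.pi fun k => R.comp (LinearMap.proj k)),
    isHom_comp (isHom_map (X := fun _ : Fin m => C) (Y := fun _ : Fin m => X) _ fun k => hI) hi,
    isHom_comp hp (isHom_map (X := fun _ : Fin m => X) (Y := fun _ : Fin m => C) _ fun k => hR),
    fun v => ?_⟩
  have h1 : (LinearMap.pi fun k => R.comp (LinearMap.proj k))
      ((LinearMap.pi fun k => I.comp (LinearMap.proj k)) (i v)) = i v := by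
    funext k
    exact hRI (i v k)
  change p ((LinearMap.pi fun k => R.comp (LinearMap.proj k))
      ((LinearMap.pi fun k => I.comp (LinearMap.proj k)) (i v))) = v
  rw [h1, hpi]

section mix

variable {L : Type} [Field L] [NumberField L] [IsCMField L] [IsGalois ℚ L] (j : L →+* ℂ)
  {X0 : CMAV}
  (hj : ∀ i, ∀ ψ : (X0.factor i).E →+* ℂ, ∃ φ : (X0.factor i).E →+* L, j.comp φ = ψ)

include hj in
/-- Hodge classes on products of factors of `X0`. -/
theorem prod_ok (𝒜 : Sys) (hok : ∀ a ∈ Lam (PX j X0), Ok (csys 𝒜) j a) {Q : Type} [Fintype Q]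
    [DecidableEq Q] {a : Q → ℕ} {Z' : ∀ q, Matrix (Fin (a q)) (Fin (a q)) ℂ}
    (h' : ∀ q, PM (Z' q)) (hq : ∀ q, ∃ i, IsOfType (AVZ (h' q)) (X0.factor i)) :
    𝒜.AllHodge (AVQ h') := by
  choose p e Ψ hΨ using hq
  intro κ _ f hf
  let X : CMAV := ⟨Q, fun k => X0.factor (p k)⟩
  -- the isomorphism of the homology
  let ε : (BQ a → ℚ) ≃ₗ[ℚ] X.H1 :=
    { toFun := fun w q => e q (cQ q w)
      invFun := fun x y => (e y.1).symm (x y.1) y.2
      left_inv := fun w => by
        funext y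
        change (e y.1).symm (e y.1 (cQ y.1 w)) y.2 = w y
        rw [LinearEquiv.symm_apply_apply]
        rfl
      right_inv := fun x => by
        funext q
        change e q (fun i => (e q).symm (x q) i) = x q
        exact (e q).apply_symm_apply (x q)
      map_add' := fun v w => by
        funext q
        exact map_add (e q) (cQ q v) (cQ q w)
      map_smul' := fun c v => by
        funext q
        exact map_smul (e q) c (cQ q v) }
  let Θ : (AVQ h').T ≃ₗ[ℂ] X.Tan := LinearEquiv.piCongrRight Ψ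
  have hΘ : ∀ v, Θ ((AVQ h').per v) = X.per (ε v) := by
    intro v
    funext q φ
    exact hΨ q (cQ q v) φ
  have hΘs : ∀ x, Θ.symm (X.per x) = (AVQ h').per (ε.symm x) := by
    intro x
    rw [LinearEquiv.symm_apply_eq, hΘ, ε.apply_symm_apply]
  have h1 : IsHodge X.per (f.compLinearMap ε.symm.toLinearMap) :=
    isHodge_comp ε.symm.toLinearMap Θ.symm.toLinearMap hΘs hf
  have h2 : 𝒜.A (toAV X) κ (f.compLinearMap ε.symm.toLinearMap) :=
    mem_of_ok (csys 𝒜) (compl_PX j X0) X j (fun i => hj (p i))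
      (fun x => ⟨⟨p x.1, x.2⟩, rfl⟩) hok _ h1
  have h3 := 𝒜.pull (X := AVQ h') (Y := toAV X) ε.toLinearMap ⟨Θ.toLinearMap, hΘ⟩ _ h2
  have h4 : (f.compLinearMap ε.symm.toLinearMap).compLinearMap ε.toLinearMap = f := by
    ext v
    rw [AlternatingMap.compLinearMap_apply, AlternatingMap.compLinearMap_apply]
    congr 1
    funext k
    exact ε.symm_apply_apply (v k)
  exact (congrArg (𝒜.A (AVQ h') κ) h4).mp h3

include hj in
/-- All Hodge classes on the powers. -/
theorem mix_of_ok (𝒜 : Sys) {X : AV} (hX : ∀ Y, IsFactor Y X → HasCMult Y ∨ Nice X Y)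
    (h3 : ∀ Y, IsFactor Y X → HasCMult Y → ∃ i, IsOfType Y (X0.factor i))
    (hok : ∀ a ∈ Lam (PX j X0), Ok (csys 𝒜) j a) (n : ℕ) : 𝒜.AllHodge (pow X n) := by
  refine main_cm 𝒜 _ (fun a Z' h' i hi hinj hsim ha => ?_) fun Q _ _ a Z' h' hc => ?_
  · by_cases hcm : HasCMult (AVZ h')
    · exact Or.inr hcm
    refine Or.inl ⟨hcm, fun U hU => ?_⟩
    rcases hX (AVZ h') (isFactor_of_pow ⟨hsim, i, hi, hinj⟩) with k | ⟨k | k | k | k | k, -⟩
    · exact absurd k hcm
    · exact SmallDim.lc h' hsim ha ⟨k, fun h1 => absurd h1 hcm⟩ hU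
    · exact k.lc h' hU
    · exact k.lc h' hsim ha hU
    · exact k.lc h' hsim ha hU
    · exact k.lc h' hsim ha hU
  · refine prod_ok j hj 𝒜 hok h' fun q => ?_
    obtain ⟨h4, h5, h6 | ⟨h6, d, h7, Y', hY', hn, h8⟩⟩ := hc q
    · exact h3 _ (isFactor_of_pow h6) h5
    · rcases hX Y' (isFactor_of_pow hY') with k | ⟨-, k⟩
      · exact absurd k hn
      · obtain ⟨E, hE, hE2, hEd⟩ := k d h8
        obtain ⟨e, Θ, hΘ⟩ := iso_of_unbalanced hE2 h6 hEd h7
        have hs : ∀ v, Θ.symm (E.per v) = (AVZ (h' q)).per (e.symm v) := fun v => by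
          rw [LinearEquiv.symm_apply_eq, hΘ, e.apply_symm_apply]
        have hcm : HasCMult E := HasCMult.iso e.symm ⟨Θ.symm.toLinearMap, hs⟩
          ⟨Θ.toLinearMap, hΘ⟩ h5
        obtain ⟨i, e', Ψ', hΨ'⟩ := h3 E hE hcm
        refine ⟨i, e.trans e', Θ.trans Ψ', fun v φ => ?_⟩
        change Ψ' (Θ ((AVZ (h' q)).per v)) φ = φ.1 (e' (e v))
        rw [hΘ, hΨ']

end mix

end

end Pool.Agent.K4H21.DB
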