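import Pool.Agent.K4H21.DB.Main

/-!
# Relations of rank one
-/

set_option linter.unusedSectionVars false
set_option linter.unusedVariables false
set_option autoImplicit false

namespace Pool.Agent.K4H21.DB

open Module NumberField Pool.Agent.Y90 Pool.Agent.R915 Pool.Agent.K4H29.HC
open Pool.Agent.H204R3.CM (IsHodge)
open Pool.Agent.W547.KB (CMPair CMAV Wt ev St IsHalf isHalf_St exists_cm Balanced)
open Pool.Agent.W547.LD (tr mem_tr tr_one tr_tr tr_compl tr_inv_tr tr_tr_inv stab mem_stab Orb)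
open Pool.Agent.K4H34.VR (Short card_short span_short short_neg)

noncomputable section

variable {L : Type} [Field L] [NumberField L] [IsCMField L] [IsGalois ℚ L]
variable {P : Set (Set (L ≃ₐ[ℚ] L))} (hH : ∀ S ∈ P, IsHalf S)
  (hst : ∀ (τ : L ≃ₐ[ℚ] L), ∀ S ∈ P, tr τ S ∈ P)

theorem card_orb_eq (v : Set (L ≃ₐ[ℚ] L) → ℤ) :
    ∑ S, ((v S).toNat : ℤ) = (Fintype.card (Orb (stv v) (xV v)) : ℤ) := by
  have h1 := sum_cntZ (sV v) (fun _ => 1)
  rw [Finset.sum_const, Finset.card_univ, nsmul_eq_mul, mul_one] at h1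
  rw [← h1]
  refine Finset.sum_congr rfl fun S _ => ?_
  rw [cntZ_sV, mul_one]

theorem cntZ_nonneg {κ : Type} [Fintype κ] [DecidableEq κ] (s : κ → Set (L ≃ₐ[ℚ] L)) (S : Set (L ≃ₐ[ℚ] L)) :
    0 ≤ cntZ s S := Finset.sum_nonneg fun k _ => by split_ifs <;> norm_num

theorem sum_toNat_le {κ : Type} [Fintype κ] [DecidableEq κ] (s : κ → Set (L ≃ₐ[ℚ] L)) :
    ∑ S, ((odd s S).toNat : ℤ) ≤ (Fintype.card κ : ℤ) := by
  have h1 := sum_cntZ s (fun _ => 1)
  rw [Finset.sum_const, Finset.card_univ, nsmul_eq_mul, mul_one] at h1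
  rw [← h1]
  refine Finset.sum_le_sum fun S _ => ?_
  rw [mul_one, odd_eq]
  have h2 := cntZ_nonneg s S
  have h3 := cntZ_nonneg s Sᶜ
  omega

theorem sum_le_mul {v : Set (L ≃ₐ[ℚ] L) → ℤ} (ho : ∀ S, v Sᶜ = -v S) {m : ℤ} (hm : m ≠ 0) :
    ∑ S, ((v S).toNat : ℤ) ≤ ∑ S, (((m • v) S).toNat : ℤ) := by
  have hpos : ∀ (c x : ℤ), 0 < c → x.toNat ≤ (c * x).toNat := by
    intro c x hc
    rcases le_or_gt x 0 with hx | hx
    · rw [Int.toNat_eq_zero.2 hx]
      exact Nat.zero_le _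
    · apply Int.toNat_le_toNat
      nlinarith
  rcases lt_or_gt_of_ne hm with h | h
  · rw [← Equiv.sum_comp (Equiv.mk compl compl (compl_compl ·) (compl_compl ·) :
      Set (L ≃ₐ[ℚ] L) ≃ Set (L ≃ₐ[ℚ] L)) (fun S => (((m • v) S).toNat : ℤ))]
    refine Finset.sum_le_sum fun S _ => ?_
    have h1 : (m • v) Sᶜ = (-m) * v S := by
      rw [Pi.smul_apply, ho, smul_eq_mul]
      ring
    change ((v S).toNat : ℤ) ≤ (((m • v) Sᶜ).toNat : ℤ)
    rw [h1]
    exact_mod_cast hpos (-m) (v S) (by omega)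
  · refine Finset.sum_le_sum fun S _ => ?_
    rw [Pi.smul_apply, smul_eq_mul]
    exact_mod_cast hpos m (v S) h

theorem short_one (hr : finrank ℤ (Lam P) = 1) {u : Set (L ≃ₐ[ℚ] L) → ℤ}
    (hu : u ∈ Short (Lam P)) : Short (Lam P) = {u, -u} := by
  have h1 := card_short (Lam P)
  rw [hr] at h1
  have h2 : u ≠ -u := by
    intro h
    apply hu.2.1
    funext S
    have h3 := congrFun h S
    change u S = -u S at h3
    change u S = 0
    omega
  symm
  apply Set.eq_of_subset_of_ncard_le _ _ h1.1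
  · rintro w (rfl | rfl)
    · exact hu
    · exact short_neg hu
  · rw [Set.ncard_pair h2]
    exact h1.2

theorem eq_smul_one (hr : finrank ℤ (Lam P) = 1) {u : Set (L ≃ₐ[ℚ] L) → ℤ}
    (hu : u ∈ Short (Lam P)) {a : Set (L ≃ₐ[ℚ] L) → ℤ} (ha : a ∈ Lam P) :
    ∃ m : ℤ, a = m • u := by
  rw [← span_short (Lam P), short_one hr hu] at ha
  rw [Submodule.mem_span_pair] at ha
  obtain ⟨c, d, h⟩ := ha
  refine ⟨c - d, ?_⟩
  rw [← h, sub_smul, smul_neg, sub_eq_add_neg]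

include hH hst in
/-- If the relations have rank one and there is a relation of length at most six then all relations
belong to all systems. -/
theorem ok_one (𝒜 : Sys) (j : L →+* ℂ) (hr : finrank ℤ (Lam P) = 1) {κ : Type} [Fintype κ] [DecidableEq κ]
    (s : κ → Set (L ≃ₐ[ℚ] L)) (h1 : odd s ∈ Lam P) (h0 : odd s ≠ 0)
    (hκ : Fintype.card κ ≤ 7) : ∀ a ∈ Lam P, Ok (csys 𝒜) j a := by
  refine ok_of_short (csys 𝒜) fun u hu => ?_
  have h2 : finrank ℚ (fK (stv u)) = 2 := by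
    have h3 := two_le_finrank j hH hst hu.1 hu.2.1
    have h4 : trs u ⊆ Short (Lam P) := by
      rintro _ ⟨τ, rfl⟩
      exact tr_mem_Short hst hu τ
    have h5 := card_short (Lam P)
    have h6 := Set.ncard_le_ncard h4 h5.1
    rw [ncard_trs] at h6
    rw [hr] at h5
    have h7 := h6.trans h5.2
    norm_num at h7
    omega
  obtain ⟨m, hm⟩ := eq_smul_one hr hu h1
  have hm0 : m ≠ 0 := by
    rintro rfl
    rw [zero_smul] at hm
    exact h0 hm
  refine ok_imag hH hst (csys 𝒜) (dw_mem 𝒜) j hu.1 hu.2.1 h2 ?_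
  have h3 := sum_le_mul hu.1.2.1 hm0
  rw [← hm, card_orb_eq] at h3
  have h4 := h3.trans (sum_toNat_le s)
  have h5 : Fintype.card (Orb (stv u) (xV u)) ≤ Fintype.card κ := by exact_mod_cast h4
  omega

end

end Pool.Agent.K4H21.DB
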