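import Pool.Agent.K4H21.DB.Cs
import Pool.Agent.K4H29.HC.Prod

/-!
# Factors of powers, and Hodge classes on powers
-/

set_option linter.unusedSectionVars false
set_option linter.unusedVariables false
set_option autoImplicit false

namespace Pool.Agent.K4H21.DB

open Module NumberField Pool.Agent.Y90 Pool.Agent.R915 Pool.Agent.K4H29.HC
open Pool.Agent.H204R3.CM (IsHodge)
open Pool.Agent.W547.KB (CMPair CMAV Wt ev St rtr rtr_smul exists_rdual)
open Pool.Agent.W547.LD (hom1 hom1_apply isHom_hom1)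
open Pool.Agent.TH504.CB (isHodge_comp)

noncomputable section

section gen

theorem isHom_comp {X Y Z : AV} {f : X.H →ₗ[ℚ] Y.H} {g : Y.H →ₗ[ℚ] Z.H} (hg : IsHom Y Z g)
    (hf : IsHom X Y f) : IsHom X Z (g.comp f) := by
  obtain ⟨Φ, hΦ⟩ := hf
  obtain ⟨Ψ, hΨ⟩ := hg
  refine ⟨Ψ.comp Φ, fun v => ?_⟩
  change Ψ (Φ (X.per v)) = _
  rw [hΦ, hΨ]
  rfl

theorem isHom_sum' {X Y : AV} {κ : Type} [Fintype κ] (f : κ → X.H →ₗ[ℚ] Y.H)
    (hf : ∀ k, IsHom X Y (f k)) : IsHom X Y (∑ k, f k) := by
  choose Ψ hΨ using hf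
  refine ⟨∑ k, Ψ k, fun v => ?_⟩
  rw [LinearMap.sum_apply, LinearMap.sum_apply, map_sum]
  exact Finset.sum_congr rfl fun k _ => hΨ k v

theorem isHodge_pull {X Y : AV} {h : X.H →ₗ[ℚ] Y.H} (hh : IsHom X Y h) {κ : Type}
    {f : Y.H [⋀^κ]→ₗ[ℚ] ℚ} (hf : IsHodge Y.per f) : IsHodge X.per (f.compLinearMap h) := by
  obtain ⟨Ψ, hΨ⟩ := hh
  exact isHodge_comp h Ψ hΨ hf

/-- An abelian variety is a factor of a power if it is a factor by finitely many homomorphisms. -/
theorem powerFactor_of_sum {B X : AV} {κ : Type} [Fintype κ] (f : κ → B.H →ₗ[ℚ] X.H)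
    (g : κ → X.H →ₗ[ℚ] B.H) (hf : ∀ k, IsHom B X (f k)) (hg : ∀ k, IsHom X B (g k))
    (h : ∀ v, ∑ k, g k (f k v) = v) : IsPowerFactor B X := by
  classical
  let e := Fintype.equivFin κ
  refine ⟨Fintype.card κ, LinearMap.pi fun k => f (e.symm k),
    ∑ k : Fin (Fintype.card κ), (g (e.symm k)).comp (LinearMap.proj k),
    isHom_pi _ fun k => hf (e.symm k), isHom_sum' _ fun k =>
      isHom_comp (hg (e.symm k)) (isHom_proj k), fun v => ?_⟩
  rw [LinearMap.sum_apply]
  have h1 : ∀ k : Fin (Fintype.card κ), ((g (e.symm k)).comp (LinearMap.proj k))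
      ((LinearMap.pi fun k => f (e.symm k)) v) = g (e.symm k) (f (e.symm k) v) := fun k => rfl
  refine (Finset.sum_congr rfl fun k _ => h1 k).trans ?_
  rw [← h v]
  conv_rhs => rw [← h v]
  exact Equiv.sum_comp e.symm fun k => g k (f k (∑ k, g k (f k v)))

/-- Hodge classes on factors of powers. -/
theorem mem_of_powerFactor (𝒜 : Sys) {B X : AV} (hB : IsPowerFactor B X)
    (h : ∀ n, 𝒜.AllHodge (pow X n)) : 𝒜.AllHodge B := by
  intro κ _ f hf
  obtain ⟨m, i, p, hi, hp, hpi⟩ := hB
  have h1 := h m κ (f.compLinearMap p) (isHodge_pull hp hf)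
  have h2 := 𝒜.pull i hi _ h1
  have h3 : (f.compLinearMap p).compLinearMap i = f := by
    ext v
    rw [AlternatingMap.compLinearMap_apply, AlternatingMap.compLinearMap_apply]
    congr 1
    funext k
    exact hpi (v k)
  rwa [h3] at h2

end gen

section wt

variable {L : Type} [Field L] [NumberField L] [IsCMField L] [IsGalois ℚ L]

theorem rtr_mul {K : Type} [Field K] [NumberField K] (ι : K →+* L) (k : K) (x : L) :
    rtr ι (x * ι k) = rtr ι x * k := by
  let _ := ι.toAlgebra
  change Algebra.trace K L (x * ι k) = Algebra.trace K L x * k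
  have h1 : x * ι k = k • x := by
    rw [Algebra.smul_def, mul_comm]
    rfl
  rw [h1, map_smul, smul_eq_mul, mul_comm]

theorem exists_rtr_one {K : Type} [Field K] [NumberField K] (ι : K →+* L) : ∃ c : L, rtr ι c = 1 := by
  let _ := ι.toAlgebra
  have : FiniteDimensional K L := Module.Finite.of_restrictScalars_finite ℚ K L
  have hne : (finrank K L : K) ≠ 0 := Nat.cast_ne_zero.2 finrank_pos.ne'
  refine ⟨algebraMap K L ((finrank K L : K)⁻¹), ?_⟩
  change Algebra.trace K L _ = 1
  rw [Algebra.trace_algebraMap, nsmul_eq_mul, mul_inv_cancel₀ hne]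

open Classical in
/-- The component belonging to a weight as a factor. -/
theorem exists_single (j : L →+* ℂ) {B X0 : CMAV} (x : Wt B L) (y : Wt X0 L)
    (hxy : St j x = St j y) :
    ∃ (n : ℕ) (f : Fin n → B.H1 →ₗ[ℚ] X0.H1) (g : Fin n → X0.H1 →ₗ[ℚ] B.H1),
      (∀ k, IsHom (toAV B) (toAV X0) (f k)) ∧ (∀ k, IsHom (toAV X0) (toAV B) (g k)) ∧
      ∀ w : B.H1, ∑ k, g k (f k w) = (Pi.single x.1 (w x.1) : B.H1) := by
  obtain ⟨n, a, b, hab⟩ := exists_rdual y.2
  obtain ⟨c, hc⟩ := exists_rtr_one x.2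
  refine ⟨n, fun k => hom1 (a k) x y, fun k => hom1 (c * b k) y x,
    fun k => isHom_toAV (isHom_hom1 j _ x y hxy), fun k => isHom_toAV (isHom_hom1 j _ y x hxy.symm),
    fun w => ?_⟩
  have h1 : ∀ k, hom1 (c * b k) y x (hom1 (a k) x y w) =
      (Pi.single x.1 (rtr x.2 (c * b k * y.2 (rtr y.2 (a k * ev w x)))) : B.H1) := by
    intro k
    rw [hom1_apply, hom1_apply]
    have h2 : ev (Pi.single y.1 (rtr y.2 (a k * ev w x)) : X0.H1) y =
        y.2 (rtr y.2 (a k * ev w x)) := by
      unfold ev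
      rw [Pi.single_eq_same]
    rw [h2]
  have h3 : ∑ k, rtr x.2 (c * b k * y.2 (rtr y.2 (a k * ev w x))) = w x.1 := by
    rw [← map_sum]
    have h4 : ∑ k, c * b k * y.2 (rtr y.2 (a k * ev w x)) = c * ev w x := by
      conv_rhs => rw [hab (ev w x), Finset.mul_sum]
      exact Finset.sum_congr rfl fun k _ => mul_assoc _ _ _
    rw [h4]
    change rtr x.2 (c * x.2 (w x.1)) = _
    rw [rtr_mul, hc, one_mul]
  rw [Finset.sum_congr rfl fun k _ => h1 k]
  funext i
  have h5 : (∑ k, (Pi.single x.1 (rtr x.2 (c * b k * y.2 (rtr y.2 (a k * ev w x)))) : B.H1)) i =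
      ∑ k, (Pi.single x.1 (rtr x.2 (c * b k * y.2 (rtr y.2 (a k * ev w x)))) : B.H1) i :=
    Finset.sum_apply i _ _
  rw [h5]
  by_cases hi : i = x.1
  · subst hi
    simp only [Pi.single_eq_same]
    exact h3
  · simp only [Pi.single_eq_of_ne hi, Finset.sum_const_zero]

/-- If all factors have a weight which occurs in `X0` then the abelian variety is a factor of a
power of `X0`. -/
theorem powerFactor_of_wt (j : L →+* ℂ) {B X0 : CMAV}
    (h : ∀ q : B.I, ∃ (φ : (B.factor q).E →+* L) (y : Wt X0 L), St j (⟨q, φ⟩ : Wt B L) = St j y) :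
    IsPowerFactor (toAV B) (toAV X0) := by
  classical
  choose φ y hy using h
  choose n f g hf hg hs using fun q => exists_single j (⟨q, φ q⟩ : Wt B L) (y q) (hy q)
  refine powerFactor_of_sum (κ := Σ q : B.I, Fin (n q)) (fun k => f k.1 k.2) (fun k => g k.1 k.2)
    (fun k => hf k.1 k.2) (fun k => hg k.1 k.2) fun w => ?_
  rw [Fintype.sum_sigma]
  have h1 : ∀ q : B.I, ∑ k : Fin (n q), g q k (f q k w) = (Pi.single q (w q) : B.H1) :=
    fun q => hs q w
  refine (Finset.sum_congr rfl fun q _ => h1 q).trans ?_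
  exact Finset.univ_sum_single w

end wt

section iso

variable {X : AV} {X0 : CMAV} (e : X.H ≃ₗ[ℚ] X0.H1) (Θ : X.T ≃ₗ[ℂ] X0.Tan)
  (hΘ : ∀ v, Θ (X.per v) = X0.per (e v))

include hΘ in
theorem isHom_e : IsHom X (toAV X0) e.toLinearMap := ⟨Θ.toLinearMap, hΘ⟩

include hΘ in
theorem isHom_e_symm : IsHom (toAV X0) X e.symm.toLinearMap := by
  refine ⟨Θ.symm.toLinearMap, fun v => ?_⟩
  change Θ.symm (X0.per v) = X.per (e.symm v)
  rw [LinearEquiv.symm_apply_eq, hΘ, e.apply_symm_apply]

include hΘ in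
theorem powerFactor_trans {B : AV} (hB : IsPowerFactor B (toAV X0)) : IsPowerFactor B X := by
  obtain ⟨m, i, p, hi, hp, hpi⟩ := hB
  refine ⟨m, (LinearMap.pi fun k => e.symm.toLinearMap.comp (LinearMap.proj k)).comp i,
    p.comp (LinearMap.pi fun k => e.toLinearMap.comp (LinearMap.proj k)),
    isHom_comp (isHom_map (X := fun _ : Fin m => toAV X0) (Y := fun _ : Fin m => X) _
      fun k => isHom_e_symm e Θ hΘ) hi,
    isHom_comp hp (isHom_map (X := fun _ : Fin m => X) (Y := fun _ : Fin m => toAV X0) _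
      fun k => isHom_e e Θ hΘ), fun v => ?_⟩
  have h1 : (LinearMap.pi fun k => e.toLinearMap.comp (LinearMap.proj k))
      ((LinearMap.pi fun k => e.symm.toLinearMap.comp (LinearMap.proj k)) (i v)) = i v := by
    funext k
    exact e.apply_symm_apply (i v k)
  change p ((LinearMap.pi fun k => e.toLinearMap.comp (LinearMap.proj k))
      ((LinearMap.pi fun k => e.symm.toLinearMap.comp (LinearMap.proj k)) (i v))) = v
  rw [h1, hpi]

/-- The power of an abelian variety of CM type. -/
abbrev powC (X0 : CMAV) (n : ℕ) : CMAV := ⟨Fin n × X0.I, fun k => X0.factor k.2⟩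

include hΘ in
/-- Hodge classes on powers. -/
theorem allHodge_pow (𝒜 : Sys) (n : ℕ) (h : 𝒜.AllHodge (toAV (powC X0 n))) :
    𝒜.AllHodge (pow X n) := by
  intro κ _ f hf
  let ε : (pow X n).H →ₗ[ℚ] (powC X0 n).H1 :=
    { toFun := fun v k => e (v k.1) k.2
      map_add' := fun v w => by
        funext k
        exact congrFun (map_add e (v k.1) (w k.1)) k.2
      map_smul' := fun c v => by
        funext k
        exact congrFun (map_smul e c (v k.1)) k.2 }
  let ε' : (powC X0 n).H1 →ₗ[ℚ] (pow X n).H :=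
    { toFun := fun v k => e.symm fun i => v (k, i)
      map_add' := fun v w => by
        funext k
        exact map_add e.symm (fun i => v (k, i)) (fun i => w (k, i))
      map_smul' := fun c v => by
        funext k
        exact map_smul e.symm c (fun i => v (k, i)) }
  let Θ1 : (pow X n).T →ₗ[ℂ] (powC X0 n).Tan :=
    { toFun := fun v k => Θ (v k.1) k.2
      map_add' := fun v w => by
        funext k
        exact congrFun (map_add Θ (v k.1) (w k.1)) k.2
      map_smul' := fun c v => by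
        funext k
        exact congrFun (map_smul Θ c (v k.1)) k.2 }
  let Θ2 : (powC X0 n).Tan →ₗ[ℂ] (pow X n).T :=
    { toFun := fun v k => Θ.symm fun i => v (k, i)
      map_add' := fun v w => by
        funext k
        exact map_add Θ.symm (fun i => v (k, i)) (fun i => w (k, i))
      map_smul' := fun c v => by
        funext k
        exact map_smul Θ.symm c (fun i => v (k, i)) }
  have h1 : IsHom (pow X n) (toAV (powC X0 n)) ε := by
    refine ⟨Θ1, fun v => ?_⟩
    funext k
    exact congrFun (hΘ (v k.1)) k.2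
  have h2 : IsHom (toAV (powC X0 n)) (pow X n) ε' := by
    refine ⟨Θ2, fun v => ?_⟩
    funext k
    change Θ.symm (X0.per fun i => v (k, i)) = X.per (e.symm fun i => v (k, i))
    rw [LinearEquiv.symm_apply_eq, hΘ, e.apply_symm_apply]
  have h3 := 𝒜.pull ε h1 _ (h κ (f.compLinearMap ε') (isHodge_pull h2 hf))
  have h4 : (f.compLinearMap ε').compLinearMap ε = f := by
    ext v
    rw [AlternatingMap.compLinearMap_apply, AlternatingMap.compLinearMap_apply]
    congr 1
    funext k
    funext l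
    exact e.symm_apply_apply (v k l)
  exact (congrArg (𝒜.A (pow X n) κ) h4).mp h3

end iso

end

end Pool.Agent.K4H21.DB
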