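import Pool.Agent.K4H34.DB.Five
import Pool.Agent.K4H21.DB.Main

/-!
# Relations of imaginary quadratic fields with small multiplicities

A relation which is invariant under a subgroup `N` of index two is the sum, over the `N`-orbits `O` of
half systems which occur in it, of relations between the elements of `O` and the half system `N`.
-/

set_option linter.unusedSectionVars false
set_option linter.unusedVariables false
set_option autoImplicit false

namespace Pool.Agent.K4H21.DB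

open Module NumberField Pool.Agent.Y90 Pool.Agent.R915 Pool.Agent.K4H29.HC
open Pool.Agent.W547.KB (cc IsHalf)
open Pool.Agent.W547.LD (tr mem_tr tr_one tr_tr tr_compl tr_inv_tr tr_tr_inv tr_injective tr_cc
  ne_compl Orb IsImag)
open Pool.Agent.K4H34.DB (pos mem_pos sup mem_sup sup_subset orb mem_orb tr_mem_orb F F_mul F_cc uO
  uO_compl sum_uO card_orb_eq sg_or)

noncomputable section

variable {L : Type} [Field L] [NumberField L] [IsCMField L] [IsGalois ℚ L]

/-- The half system of an imaginary quadratic field. -/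
def sN (N : Subgroup (L ≃ₐ[ℚ] L)) : Set (L ≃ₐ[ℚ] L) := {σ | σ ∈ N}

theorem isHalf_sN {N : Subgroup (L ≃ₐ[ℚ] L)} (hN : IsImag N) : IsHalf (sN N) := by
  intro σ
  change σ ∈ N ↔ ¬ cc L * σ ∈ N
  constructor
  · intro h h'
    exact hN.1 ((Subgroup.mul_mem_cancel_right N h).1 h')
  · intro h
    by_contra h'
    exact h (hN.2 σ h')

theorem tr_sN_mem {N : Subgroup (L ≃ₐ[ℚ] L)} {τ : L ≃ₐ[ℚ] L} (hτ : τ ∈ N) : tr τ (sN N) = sN N := by
  ext σ
  rw [mem_tr]
  exact Subgroup.mul_mem_cancel_right N hτ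

theorem tr_sN_notMem {N : Subgroup (L ≃ₐ[ℚ] L)} (hN : IsImag N) (j : L →+* ℂ) {τ : L ≃ₐ[ℚ] L}
    (hτ : τ ∉ N) : tr τ (sN N) = (sN N)ᶜ := by
  ext σ
  rw [mem_tr]
  change σ * τ ∈ N ↔ ¬ σ ∈ N
  rw [hN.mul_mem_iff j σ τ]
  tauto

open Classical in
/-- The odd indicator function of a set. -/
def uT (U T : Set (L ≃ₐ[ℚ] L)) : ℤ := (if T = U then 1 else 0) - (if Tᶜ = U then 1 else 0)

theorem uT_compl (U T : Set (L ≃ₐ[ℚ] L)) : uT U Tᶜ = -uT U T := by
  unfold uT
  rw [compl_compl]
  ring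

theorem sum_uT (U : Set (L ≃ₐ[ℚ] L)) (σ : L ≃ₐ[ℚ] L) : ∑ T, uT U T * sg T σ = 2 * sg U σ := by
  classical
  have h1 : ∀ T, uT U T * sg T σ = (if T = U then sg T σ else 0) +
      (if T = Uᶜ then -sg T σ else 0) := by
    intro T
    unfold uT
    have h2 : Tᶜ = U ↔ T = Uᶜ := by
      constructor
      · rintro rfl
        rw [compl_compl]
      · rintro rfl
        rw [compl_compl]
    by_cases h3 : T = U <;> by_cases h4 : T = Uᶜ <;> simp [h2, h3, h4]
  rw [Finset.sum_congr rfl fun T _ => h1 T, Finset.sum_add_distrib, Finset.sum_ite_eq',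
    Finset.sum_ite_eq', if_pos (Finset.mem_univ _), if_pos (Finset.mem_univ _), sg_compl]
  ring

variable {P : Set (Set (L ≃ₐ[ℚ] L))} (hH : ∀ S ∈ P, IsHalf S)
  (hst : ∀ (τ : L ≃ₐ[ℚ] L), ∀ S ∈ P, tr τ S ∈ P)

/-- The half systems with the one of the quadratic field. -/
def PN (P : Set (Set (L ≃ₐ[ℚ] L))) (N : Subgroup (L ≃ₐ[ℚ] L)) : Set (Set (L ≃ₐ[ℚ] L)) :=
  P ∪ {sN N, (sN N)ᶜ}

include hH in
theorem isHalf_PN {N : Subgroup (L ≃ₐ[ℚ] L)} (hN : IsImag N) : ∀ S ∈ PN P N, IsHalf S := by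
  rintro S (h | h | h)
  · exact hH S h
  · rw [h]
    exact isHalf_sN hN
  · rw [h]
    exact (isHalf_sN hN).compl

include hst in
theorem tr_PN {N : Subgroup (L ≃ₐ[ℚ] L)} (hN : IsImag N) (j : L →+* ℂ) :
    ∀ (τ : L ≃ₐ[ℚ] L), ∀ S ∈ PN P N, tr τ S ∈ PN P N := by
  rintro τ S (h | h | h)
  · exact Or.inl (hst τ S h)
  · rw [h]
    by_cases hτ : τ ∈ N
    · rw [tr_sN_mem hτ]
      exact Or.inr (Or.inl rfl)
    · rw [tr_sN_notMem hN j hτ]
      exact Or.inr (Or.inr rfl)
  · rw [h]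
    by_cases hτ : τ ∈ N
    · rw [tr_compl, tr_sN_mem hτ]
      exact Or.inr (Or.inr rfl)
    · rw [tr_compl, tr_sN_notMem hN j hτ, compl_compl]
      exact Or.inr (Or.inl rfl)

section quad

variable {v : Set (L ≃ₐ[ℚ] L) → ℤ} (hv : v ∈ Lam P) (hN : IsImag (stv v))

include hH hv hN in
/-- The sum of the signs over an orbit is a multiple of the sign of the quadratic field. -/
theorem F_eq_mul (j : L →+* ℂ) (S : Set (L ≃ₐ[ℚ] L)) (σ : L ≃ₐ[ℚ] L) :
    F v S σ = F v S 1 * sg (sN (stv v)) σ := by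
  unfold sg
  by_cases h : σ ∈ stv v
  · rw [if_pos (show σ ∈ sN (stv v) from h), mul_one]
    have h1 := F_mul (v := v) S 1 h
    rwa [one_mul] at h1
  · rw [if_neg (show σ ∉ sN (stv v) from h)]
    have h1 := F_mul (v := v) S 1 (hN.2 σ h)
    rw [one_mul, F_cc hH hv] at h1
    linarith

/-- The relation belonging to an orbit. -/
def wO (v : Set (L ≃ₐ[ℚ] L) → ℤ) (S : Set (L ≃ₐ[ℚ] L)) : Set (L ≃ₐ[ℚ] L) → ℤ :=
  uO v S - F v S 1 • uT (sN (stv v))

theorem wO_apply (S T : Set (L ≃ₐ[ℚ] L)) :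
    wO v S T = uO v S T - F v S 1 * uT (sN (stv v)) T := rfl

include hH hst hv hN in
theorem wO_mem (j : L →+* ℂ) (S : Set (L ≃ₐ[ℚ] L)) : wO v S ∈ Lam (PN P (stv v)) := by
  classical
  have hcP : ∀ T, T ∈ P → Tᶜ ∈ P := by
    intro T hT
    rw [← tr_cc j (hH T hT)]
    exact hst _ T hT
  refine ⟨fun T hT => ?_, fun T => ?_, fun σ => ?_⟩
  · have h1 : T ∉ orb v S := fun h => hT (Or.inl (sup_subset hv (mem_sup.2 (mem_orb.1 h).1.ne')))
    have h2 : Tᶜ ∉ orb v S := fun h => hT (Or.inl (by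
      have h3 := hcP _ (sup_subset hv (mem_sup.2 (mem_orb.1 h).1.ne'))
      rwa [compl_compl] at h3))
    have h3 : T ≠ sN (stv v) := fun h => hT (Or.inr (Or.inl h))
    have h4 : Tᶜ ≠ sN (stv v) := fun h => hT (Or.inr (Or.inr (by
      rw [Set.mem_singleton_iff, ← h, compl_compl])))
    rw [wO_apply]
    unfold uO uT
    rw [if_neg h1, if_neg h2, if_neg h3, if_neg h4]
    ring
  · rw [wO_apply, wO_apply, uO_compl, uT_compl]
    ring
  · have h1 : ∀ T, wO v S T * sg T σ = uO v S T * sg T σ -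
        F v S 1 * (uT (sN (stv v)) T * sg T σ) := fun T => by
      rw [wO_apply]
      ring
    rw [Finset.sum_congr rfl fun T _ => h1 T, Finset.sum_sub_distrib, ← Finset.mul_sum, sum_uO,
      sum_uT, F_eq_mul hH hv hN j]
    ring

theorem uT_tr {U : Set (L ≃ₐ[ℚ] L)} {τ : L ≃ₐ[ℚ] L} (h : tr τ U = U) (T : Set (L ≃ₐ[ℚ] L)) :
    uT U (tr τ T) = uT U T := by
  classical
  have h1 : ∀ T : Set (L ≃ₐ[ℚ] L), tr τ T = U ↔ T = U := by
    intro T
    constructor
    · intro h2
      apply tr_injective τ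
      rw [h2, h]
    · rintro rfl
      exact h
  have h2 : (tr τ T)ᶜ = tr τ Tᶜ := (tr_compl τ T).symm
  unfold uT
  rw [h2]
  simp only [h1]

theorem uO_tr {S : Set (L ≃ₐ[ℚ] L)} {τ : L ≃ₐ[ℚ] L} (hτ : τ ∈ stv v) (T : Set (L ≃ₐ[ℚ] L)) :
    uO v S (tr τ T) = uO v S T := by
  classical
  have h1 : ∀ T, tr τ T ∈ orb v S ↔ T ∈ orb v S := by
    intro T
    constructor
    · intro h
      have h2 := tr_mem_orb h ((stv v).inv_mem hτ)
      rwa [tr_inv_tr] at h2
    · intro h
      exact tr_mem_orb h hτ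
  have h2 : (tr τ T)ᶜ = tr τ Tᶜ := (tr_compl τ T).symm
  unfold uO
  rw [h2]
  simp only [h1]

include hH hst hv hN in
theorem stv_wO (j : L →+* ℂ) {S : Set (L ≃ₐ[ℚ] L)} (h0 : wO v S ≠ 0) : stv (wO v S) = stv v := by
  have hle : stv v ≤ stv (wO v S) := by
    intro τ hτ T
    rw [wO_apply, wO_apply, uO_tr hτ, uT_tr (tr_sN_mem hτ)]
  refine le_antisymm (fun τ hτ => ?_) hle
  by_contra h
  have h1 := hle (hN.2 τ h)
  exact cc_notMem_stv (isHalf_PN hH hN) (tr_PN hst hN j) j (wO_mem hH hst hv hN j S) h0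
    ((Subgroup.mul_mem_cancel_right _ hτ).1 h1)

theorem card_wO (S : Set (L ≃ₐ[ℚ] L)) :
    ∑ T ∈ pos (wO v S), wO v S T ≤ (orb v S).card + |F v S 1| := by
  classical
  have h1 : ∀ T, (if 0 < wO v S T then wO v S T else 0) ≤ (if T ∈ orb v S then 1 else 0) +
      ((if T = sN (stv v) then max (-F v S 1) 0 else 0) +
        (if T = (sN (stv v))ᶜ then max (F v S 1) 0 else 0)) := by
    intro T
    have h2 : Tᶜ = sN (stv v) ↔ T = (sN (stv v))ᶜ := by
      constructor
      · intro h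
        rw [← h, compl_compl]
      · rintro rfl
        rw [compl_compl]
    rw [wO_apply]
    unfold uO uT
    simp only [h2]
    have hm1 := le_max_left (-F v S 1) 0
    have hm2 := le_max_right (-F v S 1) 0
    have hm3 := le_max_left (F v S 1) 0
    have hm4 := le_max_right (F v S 1) 0
    have hne : T = sN (stv v) → T ≠ (sN (stv v))ᶜ := fun h h' => ne_compl _ (h.symm.trans h')
    by_cases a1 : T ∈ orb v S <;> by_cases a2 : Tᶜ ∈ orb v S <;>
      by_cases a3 : T = sN (stv v) <;> by_cases a4 : T = (sN (stv v))ᶜ <;>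
      simp only [a1, a2, a3, a4, if_true, if_false] <;>
      first
      | exact absurd a4 (hne a3)
      | (split_ifs <;> omega)
  unfold pos
  rw [Finset.sum_filter]
  refine (Finset.sum_le_sum fun T _ => h1 T).trans ?_
  rw [Finset.sum_add_distrib, Finset.sum_add_distrib, Finset.sum_ite_eq', Finset.sum_ite_eq',
    if_pos (Finset.mem_univ _), if_pos (Finset.mem_univ _), Finset.sum_ite_mem,
    Finset.univ_inter, Finset.sum_const, nsmul_eq_mul, mul_one]
  rcases abs_cases (F v S 1) with h | h <;> rw [h.1] <;> rcases max_cases (-F v S 1) 0 with h' | h' <;>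
    rcases max_cases (F v S 1) 0 with h'' | h'' <;> rw [h'.1, h''.1] <;> omega

include hv in
/-- The relation is the sum of the relations belonging to its orbits. -/
theorem sum_wO : v = ∑ q : QV v, wO v (xV v q) := by
  classical
  have h1 : v = ∑ q : QV v, uO v (xV v q) := by
    funext S
    rw [Finset.sum_apply]
    have h2 := congrFun (odd_sV v hv.2.1) S
    rw [odd_eq] at h2
    have h3 : ∀ S, cntZ (sV v) S = ∑ q : QV v, if S ∈ orb v (xV v q) then (1 : ℤ) else 0 := by
      intro S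
      unfold cntZ
      have e1 : ∑ k : Orb (stv v) (xV v), (if sV v k = S then (1 : ℤ) else 0) =
          ((Finset.univ.filter fun k : Orb (stv v) (xV v) => sV v k = S).card : ℤ) := by
        rw [Finset.sum_boole]
      have e2 : ∑ q : QV v, (if S ∈ orb v (xV v q) then (1 : ℤ) else 0) =
          ((Finset.univ.filter fun q : QV v => S ∈ orb v (xV v q)).card : ℤ) := by
        rw [Finset.sum_boole]
      rw [e1, e2]
      congr 1
      refine Finset.card_bij (fun k _ => k.1) ?_ ?_ ?_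
      · intro k hk
        have h2 := (Finset.mem_filter.1 hk).2
        refine Finset.mem_filter.2 ⟨Finset.mem_univ _, ?_⟩
        rw [← h2]
        exact mem_orb.2 ⟨sV_pos v k, k.2.2⟩
      · rintro ⟨q, S1, h1⟩ hk ⟨q', S2, h2⟩ hk' h
        change q = q' at h
        subst h
        have e3 : S1 = S := (Finset.mem_filter.1 hk).2
        have e4 : S2 = S := (Finset.mem_filter.1 hk').2
        subst e3
        subst e4
        rfl
      · intro q hq
        exact ⟨⟨q, S, (mem_orb.1 (Finset.mem_filter.1 hq).2).2⟩,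
          Finset.mem_filter.2 ⟨Finset.mem_univ _, rfl⟩, rfl⟩
    rw [h3, h3, ← Finset.sum_sub_distrib] at h2
    exact h2.symm
  have h2 : ∑ q : QV v, F v (xV v q) 1 = 0 := by
    have h3 := hv.2.2 1
    have h4 : ∀ T, v T * sg T 1 = ∑ q : QV v, uO v (xV v q) T * sg T 1 := by
      intro T
      conv_lhs => rw [h1]
      rw [Finset.sum_apply, Finset.sum_mul]
    rw [Finset.sum_congr rfl fun T _ => h4 T, Finset.sum_comm,
      Finset.sum_congr rfl fun q _ => sum_uO (v := v) (xV v q) 1, ← Finset.mul_sum] at h3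
    omega
  conv_lhs => rw [h1]
  unfold wO
  rw [Finset.sum_sub_distrib, ← Finset.sum_smul, h2, zero_smul, sub_zero]

include hH hst in
/-- **Relations of imaginary quadratic fields which act with multiplicities at most three.** -/
theorem ok_quad (𝒜 : Sys) (j : L →+* ℂ) (hv : v ∈ Lam P) (h0 : v ≠ 0)
    (h2 : finrank ℚ (fK (stv v)) = 2)
    (hm : ∀ q : QV v, (orb v (xV v q)).card + |F v (xV v q) 1| ≤ 7) : Ok (csys 𝒜) j v := by
  classical
  have hN := isImag_stv hH hst j hv h0 h2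
  have h3 : ∀ q : QV v, Ok (csys 𝒜) j (wO v (xV v q)) := by
    intro q
    by_cases hw : wO v (xV v q) = 0
    · rw [hw]
      exact ok_zero (csys 𝒜) j
    · have h4 := stv_wO hH hst hv hN j hw
      refine ok_imag (isHalf_PN hH hN) (tr_PN hst hN j) (csys 𝒜) (dw_mem 𝒜) j
        (wO_mem hH hst hv hN j _) hw (by rw [h4]; exact h2) ?_
      have h5 := card_orb_eq (wO v (xV v q))
      have h6 := card_wO (v := v) (xV v q)
      have h7 := hm q
      omega
  have h4 : ∀ s : Finset (QV v), Ok (csys 𝒜) j (∑ q ∈ s, wO v (xV v q)) := by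
    intro s
    induction s using Finset.induction_on with
    | empty =>
      rw [Finset.sum_empty]
      exact ok_zero (csys 𝒜) j
    | insert a s ha ih =>
      rw [Finset.sum_insert ha]
      exact (h3 a).add (csys 𝒜) ih
  rw [sum_wO hv]
  exact h4 Finset.univ

end quad

end

end Pool.Agent.K4H21.DB
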