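import Pool.Agent.K4H21.DB.Wd

/-!
# The stabilizer of a relation, and representatives of the orbits
-/

set_option linter.unusedSectionVars false
set_option linter.unusedVariables false
set_option autoImplicit false

namespace Pool.Agent.K4H21.DB

open NumberField Pool.Agent.H204R3.CM Equiv Module
open Pool.Agent.W547.KB (CMPair CMAV IsHom Wt ev evLin mono monoAlt mono_apply mono_eq_det
  St Balanced trForm trForm_apply isHodge_trForm cc emb_cc cc_cc cc_ne cc_comm comp_surjective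
  IsHalf exists_dual)
open Pool.Agent.W547.LD (tr mem_tr tr_one tr_tr tr_compl tr_inv_tr tr_tr_inv tr_injective stab
  mem_stab tr_cc ne_compl isHalf_tr isCM_of_conj Orb mono_scale mono_mem_of_pull)
open Pool.Agent.K4H34.DB (IsW isW_mem_span)
open Pool.Agent.K4H34.VR (Short span_short short_neg card_short short_comp)

noncomputable section

variable {L : Type} [Field L] [NumberField L] [IsCMField L] [IsGalois ℚ L]

section odd

variable {κ κ' : Type} [Fintype κ] [DecidableEq κ] [Fintype κ'] [DecidableEq κ']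

open Classical in
/-- The number of times `S` occurs. -/
def cntZ (s : κ → Set (L ≃ₐ[ℚ] L)) (S : Set (L ≃ₐ[ℚ] L)) : ℤ := ∑ k, if s k = S then 1 else 0

theorem odd_eq (s : κ → Set (L ≃ₐ[ℚ] L)) (S : Set (L ≃ₐ[ℚ] L)) :
    odd s S = cntZ s S - cntZ s Sᶜ := by
  unfold odd cntZ
  rw [Finset.sum_sub_distrib]

theorem sum_cntZ (s : κ → Set (L ≃ₐ[ℚ] L)) (f : Set (L ≃ₐ[ℚ] L) → ℤ) :
    ∑ S, cntZ s S * f S = ∑ k, f (s k) := by
  classical
  unfold cntZ
  have h1 : ∀ S : Set (L ≃ₐ[ℚ] L), (∑ k, if s k = S then (1 : ℤ) else 0) * f S =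
      ∑ k, if s k = S then f S else 0 := by
    intro S
    rw [Finset.sum_mul]
    exact Finset.sum_congr rfl fun k _ => by split_ifs <;> ring
  rw [Finset.sum_congr rfl fun S _ => h1 S, Finset.sum_comm]
  refine Finset.sum_congr rfl fun k _ => ?_
  rw [Finset.sum_ite_eq, if_pos (Finset.mem_univ _)]

theorem sum_odd (s : κ → Set (L ≃ₐ[ℚ] L)) (σ : L ≃ₐ[ℚ] L) :
    ∑ S, odd s S * sg S σ = 2 * ∑ k, sg (s k) σ := by
  have h1 : ∑ S, odd s S * sg S σ = ∑ S, cntZ s S * sg S σ - ∑ S, cntZ s Sᶜ * sg S σ := by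
    rw [← Finset.sum_sub_distrib]
    refine Finset.sum_congr rfl fun S _ => ?_
    rw [odd_eq]
    ring
  have h2 : ∑ S, cntZ s Sᶜ * sg S σ = -∑ S, cntZ s S * sg S σ := by
    rw [← Equiv.sum_comp (Equiv.mk compl compl (compl_compl ·) (compl_compl ·) :
      Set (L ≃ₐ[ℚ] L) ≃ Set (L ≃ₐ[ℚ] L)), ← Finset.sum_neg_distrib]
    refine Finset.sum_congr rfl fun S _ => ?_
    change cntZ s Sᶜᶜ * sg Sᶜ σ = _
    rw [compl_compl, sg_compl]
    ring
  rw [h1, h2, sum_cntZ]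
  ring

theorem balanced_of_odd {P : Set (Set (L ≃ₐ[ℚ] L))} {s : κ → Set (L ≃ₐ[ℚ] L)}
    (h : odd s ∈ Lam P) : Balanced s := by
  intro σ
  have h1 := h.2.2 σ
  rw [sum_odd] at h1
  change ∑ k, sg (s k) σ = 0
  omega

end odd

section stv

/-- The stabilizer of a function on the sets. -/
def stv (v : Set (L ≃ₐ[ℚ] L) → ℤ) : Subgroup (L ≃ₐ[ℚ] L) where
  carrier := {τ | ∀ S, v (tr τ S) = v S}
  one_mem' := fun S => by rw [tr_one]
  mul_mem' {τ τ'} h h' := fun S => by rw [← tr_tr, h, h']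
  inv_mem' {τ} h := fun S => by
    have h1 := h (tr τ⁻¹ S)
    rw [tr_tr_inv] at h1
    exact h1.symm

theorem mem_stv {v : Set (L ≃ₐ[ℚ] L) → ℤ} {τ : L ≃ₐ[ℚ] L} :
    τ ∈ stv v ↔ ∀ S, v (tr τ S) = v S := Iff.rfl

variable {P : Set (Set (L ≃ₐ[ℚ] L))} (hH : ∀ S ∈ P, IsHalf S)
  (hst : ∀ (τ : L ≃ₐ[ℚ] L), ∀ S ∈ P, tr τ S ∈ P)

include hH hst in
theorem tr_cc_neg (j : L →+* ℂ) {v : Set (L ≃ₐ[ℚ] L) → ℤ} (hv : v ∈ Lam P) (S : Set (L ≃ₐ[ℚ] L)) :
    v (tr (cc L) S) = -v S := by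
  by_cases hS : S ∈ P
  · rw [tr_cc j (hH S hS), hv.2.1]
  · have h1 : tr (cc L) S ∉ P := by
      intro h
      have h2 := hst (cc L)⁻¹ _ h
      rw [tr_inv_tr] at h2
      exact hS h2
    rw [hv.1 _ h1, hv.1 _ hS, neg_zero]

include hH hst in
theorem cc_notMem_stv (j : L →+* ℂ) {v : Set (L ≃ₐ[ℚ] L) → ℤ} (hv : v ∈ Lam P) (h0 : v ≠ 0) :
    cc L ∉ stv v := by
  intro h
  apply h0
  funext S
  have h1 := h S
  rw [tr_cc_neg hH hst j hv] at h1
  change v S = 0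
  omega

/-- Right translation as a permutation of the sets. -/
def trE (τ : L ≃ₐ[ℚ] L) : Set (L ≃ₐ[ℚ] L) ≃ Set (L ≃ₐ[ℚ] L) :=
  ⟨tr τ, tr τ⁻¹, tr_inv_tr τ, tr_tr_inv τ⟩

include hst in
theorem tr_mem_Lam {v : Set (L ≃ₐ[ℚ] L) → ℤ} (hv : v ∈ Lam P) (τ : L ≃ₐ[ℚ] L) :
    (fun S => v (tr τ S)) ∈ Lam P := by
  refine ⟨fun S hS => ?_, fun S => ?_, fun σ => ?_⟩
  · refine hv.1 _ fun h => hS ?_
    have h1 := hst τ⁻¹ _ h
    rwa [tr_inv_tr] at h1
  · change v (tr τ Sᶜ) = -v (tr τ S)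
    rw [tr_compl, hv.2.1]
  · rw [← hv.2.2 (σ * τ⁻¹)]
    refine Fintype.sum_equiv (trE τ) _ _ fun S => ?_
    change v (tr τ S) * sg S σ = v (tr τ S) * sg (tr τ S) (σ * τ⁻¹)
    congr 1
    have h1 : (σ * τ⁻¹ ∈ tr τ S) ↔ (σ ∈ S) := by
      rw [mem_tr, inv_mul_cancel_right]
    by_cases h2 : σ ∈ S
    · unfold sg
      rw [if_pos h2, if_pos (h1.2 h2)]
    · unfold sg
      rw [if_neg h2, if_neg fun h => h2 (h1.1 h)]

include hst in
theorem tr_mem_Short {v : Set (L ≃ₐ[ℚ] L) → ℤ} (hv : v ∈ Short (Lam P)) (τ : L ≃ₐ[ℚ] L) :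
    (fun S => v (tr τ S)) ∈ Short (Lam P) :=
  short_comp (trE τ) (fun c hc => tr_mem_Lam hst hc τ) (fun c hc => tr_mem_Lam hst hc τ⁻¹) hv

/-- The translates of a function. -/
def trs (v : Set (L ≃ₐ[ℚ] L) → ℤ) : Set (Set (L ≃ₐ[ℚ] L) → ℤ) :=
  Set.range fun τ : L ≃ₐ[ℚ] L => fun S => v (tr τ S)

/-- The number of the translates is the degree of the fixed field of the stabilizer. -/
theorem ncard_trs (v : Set (L ≃ₐ[ℚ] L) → ℤ) : (trs v).ncard = finrank ℚ (fK (stv v)) := by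
  classical
  let f : (L ≃ₐ[ℚ] L) → trs v := fun τ => ⟨fun S => v (tr τ⁻¹ S), τ⁻¹, rfl⟩
  have _ : Finite (trs v) := (Set.finite_range _).to_subtype
  have _ : Fintype (trs v) := Fintype.ofFinite _
  have h1 : Nat.card (L ≃ₐ[ℚ] L) = ∑ y : trs v, Nat.card {τ : L ≃ₐ[ℚ] L // f τ = y} := by
    rw [← Nat.card_sigma]
    exact Nat.card_congr (Equiv.sigmaFiberEquiv f).symm
  have hff : ∀ τ τ', f τ = f τ' ↔ τ⁻¹ * τ' ∈ stv v := by
    intro τ τ'
    constructor
    · intro h S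
      have h2 : ∀ S, v (tr τ⁻¹ S) = v (tr τ'⁻¹ S) := fun S => congrFun (congrArg Subtype.val h) S
      rw [← tr_tr, h2, tr_inv_tr]
    · intro h
      refine Subtype.ext (funext fun S => ?_)
      change v (tr τ⁻¹ S) = v (tr τ'⁻¹ S)
      have h2 := h (tr τ'⁻¹ S)
      rw [tr_tr, mul_assoc, mul_inv_cancel, mul_one] at h2
      exact h2
  have h2 : ∀ y : trs v, Nat.card {τ : L ≃ₐ[ℚ] L // f τ = y} = Nat.card (stv v) := by
    rintro ⟨_, τ0, rfl⟩
    have hf0 : f τ0⁻¹ = ⟨fun S => v (tr τ0 S), τ0, rfl⟩ := by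
      refine Subtype.ext (funext fun S => ?_)
      change v (tr τ0⁻¹⁻¹ S) = _
      rw [inv_inv]
    rw [← hf0]
    refine Nat.card_congr
      { toFun := fun τ => ⟨τ0 * τ.1, ?_⟩
        invFun := fun σ => ⟨τ0⁻¹ * σ.1, ?_⟩
        left_inv := fun τ => ?_
        right_inv := fun σ => ?_ }
    · have h3 := (hff _ _).1 τ.2.symm
      rwa [inv_inv] at h3
    · refine ((hff _ _).2 ?_).symm
      rw [inv_inv, mul_inv_cancel_left]
      exact σ.2
    · exact Subtype.ext (inv_mul_cancel_left _ _)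
    · exact Subtype.ext (mul_inv_cancel_left _ _)
  rw [Finset.sum_congr rfl fun y _ => h2 y, Finset.sum_const, Finset.card_univ, smul_eq_mul,
    IsGalois.card_aut_eq_finrank, ← finrank_fK (stv v)] at h1
  have h3 : 0 < Nat.card (stv v) := Nat.card_pos
  have h4 := Nat.eq_of_mul_eq_mul_right h3 h1
  rw [h4, ← Nat.card_eq_fintype_card]
  rfl

theorem mem_trs_self (v : Set (L ≃ₐ[ℚ] L) → ℤ) : v ∈ trs v :=
  ⟨1, funext fun S => by
    change v (tr 1 S) = v S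
    rw [tr_one]⟩

theorem trs_eq {v w : Set (L ≃ₐ[ℚ] L) → ℤ} (h : w ∈ trs v) : trs w = trs v := by
  obtain ⟨τ, rfl⟩ := h
  ext u
  constructor
  · rintro ⟨σ, rfl⟩
    exact ⟨τ * σ, funext fun S => by
      change v (tr (τ * σ) S) = v (tr τ (tr σ S))
      rw [tr_tr]⟩
  · rintro ⟨σ, rfl⟩
    exact ⟨τ⁻¹ * σ, funext fun S => by
      change v (tr τ (tr (τ⁻¹ * σ) S)) = v (tr σ S)
      rw [tr_tr, mul_inv_cancel_left]⟩

end stv

section orbit

variable (v : Set (L ≃ₐ[ℚ] L) → ℤ)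

/-- The orbits of the stabilizer on the sets with positive coefficient. -/
def orbS : Setoid {S : Set (L ≃ₐ[ℚ] L) // 0 < v S} where
  r S S' := ∃ τ ∈ stv v, tr τ S.1 = S'.1
  iseqv :=
    { refl := fun S => ⟨1, (stv v).one_mem, tr_one _⟩
      symm := by
        rintro S S' ⟨τ, hτ, h⟩
        exact ⟨τ⁻¹, (stv v).inv_mem hτ, by rw [← h, tr_inv_tr]⟩
      trans := by
        rintro S S' S'' ⟨τ, hτ, h⟩ ⟨τ', hτ', h'⟩
        exact ⟨τ' * τ, (stv v).mul_mem hτ' hτ, by rw [← tr_tr, h, h']⟩ }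

/-- The index set: an orbit with multiplicity. -/
abbrev QV : Type := Σ o : Quotient (orbS v), Fin (v o.out.1).toNat

instance : Finite (Quotient (orbS v)) := inferInstance

instance : Fintype (Quotient (orbS v)) := Fintype.ofFinite _

/-- The half systems representing the orbits. -/
def xV (q : QV v) : Set (L ≃ₐ[ℚ] L) := q.1.out.1

instance : Fintype (Orb (stv v) (xV v)) := Fintype.ofFinite _

instance : DecidableEq (Orb (stv v) (xV v)) := Classical.decEq _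

/-- The family of the half systems, with their multiplicities. -/
def sV (k : Orb (stv v) (xV v)) : Set (L ≃ₐ[ℚ] L) := k.2.1

theorem v_orb (q : QV v) {S : Set (L ≃ₐ[ℚ] L)} (h : ∃ τ ∈ stv v, tr τ (xV v q) = S) :
    v S = v (xV v q) := by
  obtain ⟨τ, hτ, rfl⟩ := h
  exact hτ _

theorem cntZ_sV (S : Set (L ≃ₐ[ℚ] L)) : cntZ (sV v) S = (v S).toNat := by
  classical
  have h1 : cntZ (sV v) S = ∑ q : QV v, if (∃ τ ∈ stv v, tr τ (xV v q) = S) then (1 : ℤ) else 0 := by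
    unfold cntZ
    have e1 : ∑ k : Orb (stv v) (xV v), (if sV v k = S then (1 : ℤ) else 0) =
        ((Finset.univ.filter fun k : Orb (stv v) (xV v) => sV v k = S).card : ℤ) := by
      rw [Finset.sum_boole]
    have e2 : ∑ q : QV v, (if (∃ τ ∈ stv v, tr τ (xV v q) = S) then (1 : ℤ) else 0) =
        ((Finset.univ.filter fun q : QV v => ∃ τ ∈ stv v, tr τ (xV v q) = S).card : ℤ) := by
      rw [Finset.sum_boole]
    rw [e1, e2]
    congr 1
    refine Finset.card_bij (fun k _ => k.1) ?_ ?_ ?_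
    · intro k hk
      have h2 := (Finset.mem_filter.1 hk).2
      refine Finset.mem_filter.2 ⟨Finset.mem_univ _, ?_⟩
      rw [← h2]
      exact k.2.2
    · rintro ⟨q, S1, h1⟩ hk ⟨q', S2, h2⟩ hk' h
      change q = q' at h
      subst h
      have e3 : S1 = S := (Finset.mem_filter.1 hk).2
      have e4 : S2 = S := (Finset.mem_filter.1 hk').2
      subst e3
      subst e4
      rfl
    · intro q hq
      exact ⟨⟨q, S, (Finset.mem_filter.1 hq).2⟩, Finset.mem_filter.2 ⟨Finset.mem_univ _, rfl⟩, rfl⟩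
  rw [h1, Fintype.sum_sigma]
  have h2 : ∀ o : Quotient (orbS v), ∑ m : Fin (v o.out.1).toNat,
      (if (∃ τ ∈ stv v, tr τ (xV v ⟨o, m⟩) = S) then (1 : ℤ) else 0) =
      if (∃ τ ∈ stv v, tr τ o.out.1 = S) then ((v o.out.1).toNat : ℤ) else 0 := by
    intro o
    change ∑ m : Fin (v o.out.1).toNat,
      (if (∃ τ ∈ stv v, tr τ o.out.1 = S) then (1 : ℤ) else 0) = _
    rw [Finset.sum_const, Finset.card_univ, Fintype.card_fin, nsmul_eq_mul]
    split_ifs <;> simp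
  rw [Finset.sum_congr rfl fun o _ => h2 o]
  by_cases hS : 0 < v S
  · rw [Finset.sum_eq_single (Quotient.mk (orbS v) ⟨S, hS⟩)]
    · have h3 : ∃ τ ∈ stv v, tr τ (Quotient.mk (orbS v) ⟨S, hS⟩).out.1 = S :=
        Quotient.exact (s := orbS v) (Quotient.out_eq (Quotient.mk (orbS v) ⟨S, hS⟩))
      rw [if_pos h3]
      obtain ⟨τ, hτ, h4⟩ := h3
      have h5 : v (Quotient.mk (orbS v) ⟨S, hS⟩).out.1 = v S := by
        rw [← hτ, h4]
      rw [h5]
    · intro o _ ho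
      rw [if_neg]
      intro h3
      apply ho
      have h4 : Quotient.mk (orbS v) o.out = Quotient.mk (orbS v) ⟨S, hS⟩ := Quotient.sound h3
      rw [← h4, Quotient.out_eq]
    · intro h
      exact absurd (Finset.mem_univ _) h
  · have h3 : (v S).toNat = 0 := Int.toNat_eq_zero.2 (not_lt.1 hS)
    rw [h3, Nat.cast_zero]
    refine Finset.sum_eq_zero fun o _ => ?_
    rw [if_neg]
    rintro ⟨τ, hτ, h4⟩
    have h5 := hτ o.out.1
    rw [h4] at h5
    exact hS (by rw [h5]; exact o.out.2)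

theorem odd_sV (ho : ∀ S, v Sᶜ = -v S) : odd (sV v) = v := by
  funext S
  rw [odd_eq, cntZ_sV, cntZ_sV, ho]
  exact Int.toNat_sub_toNat_neg _

theorem xV_pos (q : QV v) : 0 < v (xV v q) := q.1.out.2

theorem sV_pos (k : Orb (stv v) (xV v)) : 0 < v (sV v k) := by
  have h := v_orb v k.1 k.2.2
  change 0 < v k.2.1
  rw [h]
  exact xV_pos v k.1

theorem nonempty_orb (ho : ∀ S, v Sᶜ = -v S) (h0 : v ≠ 0) : Nonempty (Orb (stv v) (xV v)) := by
  classical
  obtain ⟨S, hS⟩ : ∃ S, 0 < v S := by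
    obtain ⟨S, hS⟩ := Function.ne_iff.1 h0
    rcases lt_or_gt_of_ne hS with h | h
    · refine ⟨Sᶜ, ?_⟩
      rw [ho]
      change v S < 0 at h
      omega
    · exact ⟨S, h⟩
  by_contra hcon
  rw [not_nonempty_iff] at hcon
  have h1 := cntZ_sV v S
  unfold cntZ at h1
  rw [Fintype.sum_empty] at h1
  omega

end orbit

section gal

variable {X : CMAV} {κ : Type} {A : (κ : Type) → (X.H1 [⋀^κ]→ₗ[ℚ] ℚ) → Prop}

theorem LS.gal (τ : L ≃ₐ[ℚ] L) {F : (κ → X.H1) → L} (hF : F ∈ LS L A κ) :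
    (fun v => τ (F v)) ∈ LS L A κ := by
  induction hF using Submodule.span_induction with
  | mem F hF =>
    obtain ⟨f, hf, rfl⟩ := hF
    have h1 : (fun v : κ → X.H1 => τ ((f v : ℚ) : L)) = fun v => ((f v : ℚ) : L) := by
      funext v
      exact map_ratCast τ _
    rw [h1]
    exact LS.of hf
  | zero =>
    have h1 : (fun v : κ → X.H1 => τ ((0 : (κ → X.H1) → L) v)) = 0 := by
      funext v
      exact map_zero τ
    rw [h1]
    exact Submodule.zero_mem _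
  | add F G _ _ hF hG =>
    have h1 : (fun v : κ → X.H1 => τ ((F + G) v)) = (fun v => τ (F v)) + fun v => τ (G v) := by
      funext v
      exact map_add τ _ _
    rw [h1]
    exact Submodule.add_mem _ hF hG
  | smul c F _ hF =>
    have h1 : (fun v : κ → X.H1 => τ ((c • F) v)) = τ c • fun v => τ (F v) := by
      funext v
      exact map_mul τ _ _
    rw [h1]
    exact Submodule.smul_mem _ _ hF

theorem algC_gal (𝒞 : CSys) {j : L →+* ℂ} [Fintype κ] [DecidableEq κ]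
    {s : κ → Set (L ≃ₐ[ℚ] L)} (hs : AlgC 𝒞 j s) (τ : L ≃ₐ[ℚ] L) :
    AlgC 𝒞 j fun k => tr τ (s k) := by
  intro X I hI
  let I' : κ → Wt X L := fun k => ⟨(I k).1, ((τ⁻¹ : L ≃ₐ[ℚ] L) : L →+* L).comp (I k).2⟩
  have h1 : ∀ k, St j (I' k) = s k := by
    intro k
    have h2 : St j (I' k) = tr τ⁻¹ (St j (I k)) := rfl
    rw [h2, hI, tr_inv_tr]
  have h2 := LS.gal τ (hs X I' h1)
  have h3 : (fun v => τ (mono I' v)) = mono I := by
    funext v
    rw [mono_apply, mono_apply, map_sum]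
    refine Finset.sum_congr rfl fun π _ => ?_
    rw [map_mul, map_intCast, map_prod]
    congr 1
    refine Finset.prod_congr rfl fun k _ => ?_
    exact τ.apply_symm_apply _
  rwa [h3] at h2

theorem Ok.gal (𝒞 : CSys) {j : L →+* ℂ} {v : Set (L ≃ₐ[ℚ] L) → ℤ} (h : Ok 𝒞 j v)
    (τ : L ≃ₐ[ℚ] L) : Ok 𝒞 j fun S => v (tr τ S) := by
  obtain ⟨κ, _, _, s, hs, hsv, hA⟩ := h
  refine ⟨κ, inferInstance, inferInstance, fun k => tr τ⁻¹ (s k), fun k => isHalf_tr j (hs k) _, ?_,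
    algC_gal 𝒞 hA τ⁻¹⟩
  subst hsv
  funext S
  unfold odd
  refine Finset.sum_congr rfl fun k _ => ?_
  have h1 : (tr τ⁻¹ (s k) = S) ↔ (s k = tr τ S) := by
    constructor
    · rintro rfl
      rw [tr_tr_inv]
    · intro h
      rw [h, tr_inv_tr]
  have h2 : (tr τ⁻¹ (s k) = Sᶜ) ↔ (s k = (tr τ S)ᶜ) := by
    rw [← tr_compl]
    constructor
    · intro h
      rw [← h, tr_tr_inv]
    · intro h
      rw [h, tr_inv_tr]
  simp only [h1, h2]

theorem ok_of_sV (𝒞 : CSys) {j : L →+* ℂ} {P : Set (Set (L ≃ₐ[ℚ] L))}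
    (hH : ∀ S ∈ P, IsHalf S) {v : Set (L ≃ₐ[ℚ] L) → ℤ} (hv : v ∈ Lam P)
    (hA : AlgC 𝒞 j (sV v)) : Ok 𝒞 j v :=
  ⟨Orb (stv v) (xV v), inferInstance, inferInstance, sV v, fun k => hH _ (by
    by_contra h
    have h1 := sV_pos v k
    rw [hv.1 _ h] at h1
    exact lt_irrefl _ h1), odd_sV v hv.2.1, hA⟩

end gal

end

end Pool.Agent.K4H21.DB
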