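import Pool.Agent.W547.KB.Cancel
import Pool.Agent.W547.LD.Pull
import Pool.Agent.W547.LD.Field

/-!
# Systems of classes on abelian varieties of CM type, and their span over a number field
-/

set_option linter.unusedSectionVars false
set_option linter.unusedVariables false
set_option autoImplicit false

namespace Pool.Agent.K4H21.DB

open NumberField Pool.Agent.H204R3.CM Equiv Module
open Pool.Agent.W547.KB (CMPair CMAV IsHom Wt ev evLin mono monoAlt mono_apply mono_eq_det mono_cup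
  mono_reindex mono_pull St Balanced trForm trForm_apply isHodge_trForm exists_dual cc emb_cc cc_cc
  cc_ne cc_comm comp_cc comp_injective comp_surjective IsHalf typeOf mem_typeOf isCMType_typeOf can
  canI splitTwo card_split det_conj_ne mem_q cupFun cupAlt cupAlt_apply pushAlt)

noncomputable section

/-- The classes `A κ f` form a ring which contains the Hodge classes of degree two. -/
structure IsRing (X : CMAV) (A : (κ : Type) → (X.H1 [⋀^κ]→ₗ[ℚ] ℚ) → Prop) : Prop where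
  unit : ∀ {κ : Type} [IsEmpty κ] (f : X.H1 [⋀^κ]→ₗ[ℚ] ℚ), A κ f
  divisor : ∀ {κ : Type}, Nat.card κ = 2 → ∀ f : X.H1 [⋀^κ]→ₗ[ℚ] ℚ, IsHodge X.per f → A κ f
  zero : ∀ κ : Type, A κ 0
  add : ∀ {κ : Type} (f g : X.H1 [⋀^κ]→ₗ[ℚ] ℚ), A κ f → A κ g → A κ (f + g)
  smul : ∀ {κ : Type} (a : ℚ) (f : X.H1 [⋀^κ]→ₗ[ℚ] ℚ), A κ f → A κ (a • f)
  reindex : ∀ {κ κ' : Type} (e : κ ≃ κ') (f : X.H1 [⋀^κ]→ₗ[ℚ] ℚ), A κ f → A κ' (f.domDomCongr e)
  cup : ∀ {κ κ' : Type} [Fintype κ] [DecidableEq κ] [Fintype κ'] [DecidableEq κ']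
    (f : X.H1 [⋀^κ]→ₗ[ℚ] ℚ) (g : X.H1 [⋀^κ']→ₗ[ℚ] ℚ), A κ f → A κ' g →
    ∀ h : X.H1 [⋀^κ ⊕ κ']→ₗ[ℚ] ℚ,
    (∀ v : κ ⊕ κ' → X.H1, h v = ∑ σ : Equiv.Perm (κ ⊕ κ'), ((Equiv.Perm.sign σ : ℤ) : ℚ) *
      (f (fun k => v (σ (Sum.inl k))) * g (fun k => v (σ (Sum.inr k))))) → A (κ ⊕ κ') h

/-- A system of classes on all abelian varieties of CM type, stable under cup products, pull-backs
and push-forwards. -/
structure CSys where
  A : (X : CMAV) → (κ : Type) → (X.H1 [⋀^κ]→ₗ[ℚ] ℚ) → Prop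
  ring : ∀ X, IsRing X (A X)
  pull : ∀ {X Y : CMAV} {κ : Type} (h : X.H1 →ₗ[ℚ] Y.H1), IsHom X Y h →
    ∀ f : Y.H1 [⋀^κ]→ₗ[ℚ] ℚ, A Y κ f → A X κ (f.compLinearMap h)
  push : ∀ {X Y : CMAV} {κ κ' : Type} (b : Module.Basis κ' ℚ Y.H1)
    (f : (X.prod Y).H1 [⋀^κ ⊕ κ']→ₗ[ℚ] ℚ), A (X.prod Y) (κ ⊕ κ') f →
    ∀ g : X.H1 [⋀^κ]→ₗ[ℚ] ℚ,
    (∀ v : κ → X.H1,
      g v = f (Sum.elim (fun k => X.pair Y (v k) 0) (fun k => X.pair Y 0 (b k)))) → A X κ g

section span

variable {L : Type} [Field L] [NumberField L] {X Y : CMAV} {κ κ' : Type}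

/-- The span over `L` of a set of classes. -/
def LS (L : Type) [Field L] [NumberField L] {X : CMAV}
    (A : (κ : Type) → (X.H1 [⋀^κ]→ₗ[ℚ] ℚ) → Prop) (κ : Type) : Submodule L ((κ → X.H1) → L) :=
  Submodule.span L {g | ∃ f : X.H1 [⋀^κ]→ₗ[ℚ] ℚ, A κ f ∧ g = fun v => ((f v : ℚ) : L)}

variable {A : (κ : Type) → (X.H1 [⋀^κ]→ₗ[ℚ] ℚ) → Prop}

theorem LS.of {f : X.H1 [⋀^κ]→ₗ[ℚ] ℚ} (hf : A κ f) : (fun v => ((f v : ℚ) : L)) ∈ LS L A κ :=
  Submodule.subset_span ⟨f, hf, rfl⟩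

theorem LS.mono' {A' : (κ : Type) → (X.H1 [⋀^κ]→ₗ[ℚ] ℚ) → Prop}
    (h : ∀ f : X.H1 [⋀^κ]→ₗ[ℚ] ℚ, A κ f → A' κ f) : LS L A κ ≤ LS L A' κ := by
  refine Submodule.span_mono ?_
  rintro g ⟨f, hf, rfl⟩
  exact ⟨f, h f hf, rfl⟩

theorem LS.unit (hA : IsRing X A) [IsEmpty κ] (F : (κ → X.H1) → L) : F ∈ LS L A κ := by
  have h1 : F = F (fun k => isEmptyElim k) • (fun v =>
      (((AlternatingMap.constOfIsEmpty ℚ X.H1 κ (1 : ℚ)) v : ℚ) : L)) := by
    funext v
    have h2 : v = fun k => isEmptyElim k := funext fun k => isEmptyElim k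
    subst h2
    simp
  rw [h1]
  exact Submodule.smul_mem _ _ (LS.of (hA.unit _))

theorem LS.reindex (hA : IsRing X A) (e : κ ≃ κ') {F : (κ → X.H1) → L} (hF : F ∈ LS L A κ) :
    (fun v : κ' → X.H1 => F (fun k => v (e k))) ∈ LS L A κ' := by
  induction hF using Submodule.span_induction with
  | mem F hF =>
    obtain ⟨f, hf, rfl⟩ := hF
    exact LS.of (hA.reindex e f hf)
  | zero => exact Submodule.zero_mem _
  | add F G _ _ hF hG => exact Submodule.add_mem _ hF hG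
  | smul c F _ hF => exact Submodule.smul_mem _ c hF

theorem LS.cup (hA : IsRing X A) [Fintype κ] [DecidableEq κ] [Fintype κ'] [DecidableEq κ']
    {F : (κ → X.H1) → L} {G : (κ' → X.H1) → L} (hF : F ∈ LS L A κ) (hG : G ∈ LS L A κ') :
    cupFun F G ∈ LS L A (κ ⊕ κ') := by
  induction hF using Submodule.span_induction with
  | mem F hF =>
    obtain ⟨f, hf, rfl⟩ := hF
    induction hG using Submodule.span_induction with
    | mem G hG =>
      obtain ⟨g, hg, rfl⟩ := hG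
      have h1 : cupFun (fun v => ((f v : ℚ) : L)) (fun v => ((g v : ℚ) : L)) =
          fun v => ((cupAlt f g v : ℚ) : L) := by
        funext v
        rw [cupAlt_apply]
        unfold cupFun
        push_cast
        rfl
      rw [h1]
      exact LS.of (hA.cup f g hf hg _ (cupAlt_apply f g))
    | zero =>
      have h1 : cupFun (fun v => ((f v : ℚ) : L)) (0 : (κ' → X.H1) → L) = 0 := by
        funext v
        simp [cupFun]
      rw [h1]
      exact Submodule.zero_mem _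
    | add G G' _ _ hG hG' =>
      have h1 : cupFun (fun v => ((f v : ℚ) : L)) (G + G') =
          cupFun (fun v => ((f v : ℚ) : L)) G + cupFun (fun v => ((f v : ℚ) : L)) G' := by
        funext v
        simp only [cupFun, Pi.add_apply, mul_add, Finset.sum_add_distrib]
      rw [h1]
      exact Submodule.add_mem _ hG hG'
    | smul c G _ hG =>
      have h1 : cupFun (fun v => ((f v : ℚ) : L)) (c • G) =
          c • cupFun (fun v => ((f v : ℚ) : L)) G := by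
        funext v
        simp only [cupFun, Pi.smul_apply, smul_eq_mul, Finset.mul_sum]
        exact Finset.sum_congr rfl fun σ _ => by ring
      rw [h1]
      exact Submodule.smul_mem _ c hG
  | zero =>
    have h1 : cupFun (0 : (κ → X.H1) → L) G = 0 := by
      funext v
      simp [cupFun]
    rw [h1]
    exact Submodule.zero_mem _
  | add F F' _ _ hF hF' =>
    have h1 : cupFun (F + F') G = cupFun F G + cupFun F' G := by
      funext v
      simp only [cupFun, Pi.add_apply, mul_add, add_mul, Finset.sum_add_distrib]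
    rw [h1]
    exact Submodule.add_mem _ hF hF'
  | smul c F _ hF =>
    have h1 : cupFun (c • F) G = c • cupFun F G := by
      funext v
      simp only [cupFun, Pi.smul_apply, smul_eq_mul, Finset.mul_sum]
      exact Finset.sum_congr rfl fun σ _ => by ring
    rw [h1]
    exact Submodule.smul_mem _ c hF

theorem LS.pull (𝒞 : CSys) {h : X.H1 →ₗ[ℚ] Y.H1} (hh : IsHom X Y h) {F : (κ → Y.H1) → L}
    (hF : F ∈ LS L (𝒞.A Y) κ) : (fun v : κ → X.H1 => F (fun k => h (v k))) ∈ LS L (𝒞.A X) κ := by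
  induction hF using Submodule.span_induction with
  | mem F hF =>
    obtain ⟨f, hf, rfl⟩ := hF
    exact LS.of (𝒞.pull h hh f hf)
  | zero => exact Submodule.zero_mem _
  | add F G _ _ hF hG => exact Submodule.add_mem _ hF hG
  | smul c F _ hF => exact Submodule.smul_mem _ c hF

theorem LS.push (𝒞 : CSys) (b : Module.Basis κ' ℚ Y.H1) {F : (κ ⊕ κ' → (X.prod Y).H1) → L}
    (hF : F ∈ LS L (𝒞.A (X.prod Y)) (κ ⊕ κ')) :
    (fun v : κ → X.H1 => F (Sum.elim (fun k => X.pair Y (v k) 0) (fun k => X.pair Y 0 (b k)))) ∈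
      LS L (𝒞.A X) κ := by
  induction hF using Submodule.span_induction with
  | mem F hF =>
    obtain ⟨f, hf, rfl⟩ := hF
    exact LS.of (f := pushAlt b f) (𝒞.push b f hf _ (fun v => rfl))
  | zero => exact Submodule.zero_mem _
  | add F G _ _ hF hG => exact Submodule.add_mem _ hF hG
  | smul c F _ hF => exact Submodule.smul_mem _ c hF

/-- Descent. -/
theorem of_LS (hA : IsRing X A) [Fintype κ] {f : X.H1 [⋀^κ]→ₗ[ℚ] ℚ}
    (hf : (fun v => ((f v : ℚ) : L)) ∈ LS L A κ) : A κ f := by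
  let S : Set ((κ → X.H1) → ℚ) := {g | ∃ f : X.H1 [⋀^κ]→ₗ[ℚ] ℚ, A κ f ∧ g = fun v => f v}
  have h1 : (fun v => ((f v : ℚ) : L)) ∈
      Submodule.span L {g : (κ → X.H1) → L | ∃ s ∈ S, g = fun x => ((s x : ℚ) : L)} := by
    refine Submodule.span_mono ?_ hf
    rintro g ⟨f, hf, rfl⟩
    exact ⟨fun v => f v, ⟨f, hf, rfl⟩, rfl⟩
  have h2 := span_descent S (fun v => f v) h1
  have h3 : ∀ g ∈ Submodule.span ℚ S, ∃ f : X.H1 [⋀^κ]→ₗ[ℚ] ℚ, A κ f ∧ g = fun v => f v := by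
    intro g hg
    induction hg using Submodule.span_induction with
    | mem g hg => exact hg
    | zero => exact ⟨0, hA.zero κ, rfl⟩
    | add g g' _ _ h h' =>
      obtain ⟨f, hf, rfl⟩ := h
      obtain ⟨f', hf', rfl⟩ := h'
      exact ⟨f + f', hA.add f f' hf hf', rfl⟩
    | smul c g _ h =>
      obtain ⟨f, hf, rfl⟩ := h
      exact ⟨c • f, hA.smul c f hf, rfl⟩
  obtain ⟨f', hf', h4⟩ := h3 _ h2
  have h5 : f = f' := AlternatingMap.ext fun v => congrFun h4 v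
  rw [h5]
  exact hf'

end span

section alg

variable {L : Type} [Field L] [NumberField L] [IsCMField L] [IsGalois ℚ L] {X : CMAV}
  {κ κ' : Type} [Fintype κ] [DecidableEq κ] [Fintype κ'] [DecidableEq κ']
  {A : (κ : Type) → (X.H1 [⋀^κ]→ₗ[ℚ] ℚ) → Prop}

/-- All monomials on `X` with the given half systems are in the span of the classes. -/
def AlgR {X : CMAV} (A : (κ : Type) → (X.H1 [⋀^κ]→ₗ[ℚ] ℚ) → Prop) (j : L →+* ℂ)
    (s : κ → Set (L ≃ₐ[ℚ] L)) : Prop :=
  ∀ I : κ → Wt X L, (∀ k, St j (I k) = s k) → mono I ∈ LS L A κ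

theorem algR_reindex (hA : IsRing X A) {j : L →+* ℂ} (e : κ ≃ κ') {s : κ → Set (L ≃ₐ[ℚ] L)}
    {s' : κ' → Set (L ≃ₐ[ℚ] L)} (hs : AlgR A j s) (h : ∀ k, s' (e k) = s k) : AlgR A j s' := by
  intro I hI
  have h1 := hs (fun k => I (e k)) (fun k => by rw [hI, h])
  have h2 := LS.reindex hA e h1
  rw [mono_reindex] at h2
  simpa using h2

theorem algR_sum (hA : IsRing X A) {j : L →+* ℂ} {s : κ → Set (L ≃ₐ[ℚ] L)}
    {s' : κ' → Set (L ≃ₐ[ℚ] L)} (hs : AlgR A j s) (hs' : AlgR A j s') :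
    AlgR A j (Sum.elim s s') := by
  intro I hI
  have h1 := hs (fun k => I (Sum.inl k)) (fun k => hI (Sum.inl k))
  have h2 := hs' (fun k => I (Sum.inr k)) (fun k => hI (Sum.inr k))
  have h3 := LS.cup hA h1 h2
  rw [mono_cup] at h3
  have h4 : (Fintype.card (Perm κ) : L) * (Fintype.card (Perm κ') : L) ≠ 0 := by
    rw [← Nat.cast_mul]
    exact Nat.cast_ne_zero.2 (Nat.mul_ne_zero Fintype.card_ne_zero Fintype.card_ne_zero)
  have h5 := Submodule.smul_mem _ (((Fintype.card (Perm κ) : L) * (Fintype.card (Perm κ') : L))⁻¹) h3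
  rw [smul_smul, inv_mul_cancel₀ h4, one_smul] at h5
  have h6 : Sum.elim (fun k => I (Sum.inl k)) (fun k => I (Sum.inr k)) = I := by
    funext s
    cases s <;> rfl
  rwa [h6] at h5

theorem algR_empty (hA : IsRing X A) [IsEmpty κ] (j : L →+* ℂ) (s : κ → Set (L ≃ₐ[ℚ] L)) :
    AlgR A j s :=
  fun I hI => LS.unit hA _

theorem mem_of_trForm (I : κ → Wt X L) (h : ∀ α : L, A κ (trForm α I)) : mono I ∈ LS L A κ := by
  obtain ⟨n, a, b, hab⟩ := exists_dual L
  have h1 : mono I = ∑ i, b i • (fun v : κ → X.H1 => ((trForm (a i) I v : ℚ) : L)) := by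
    funext v
    rw [Finset.sum_apply]
    exact hab (mono I v)
  rw [h1]
  exact Submodule.sum_mem _ fun i _ => Submodule.smul_mem _ _ (LS.of (h (a i)))

theorem algR_two (hA : IsRing X A) (j : L →+* ℂ) (hκ : Nat.card κ = 2)
    {s : κ → Set (L ≃ₐ[ℚ] L)} (hs : Balanced s) : AlgR A j s := by
  intro I hI
  have h1 : (fun k => St j (I k)) = s := funext hI
  refine mem_of_trForm I fun α => hA.divisor hκ _ ?_
  exact isHodge_trForm j I (by rw [h1]; exact hs) α

theorem algR_pair (hA : IsRing X A) (j : L →+* ℂ) (S : Set (L ≃ₐ[ℚ] L)) : AlgR A j ![S, Sᶜ] := by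
  refine algR_two hA j (by simp) fun σ => ?_
  by_cases h : σ ∈ S <;> simp [Fin.sum_univ_two, h]

theorem algR_split (hA : IsRing X A) {j : L →+* ℂ} {s : κ → Set (L ≃ₐ[ℚ] L)} (a b : κ)
    (hab : a ≠ b) (hs : s b = (s a)ᶜ)
    (h : AlgR A j (fun x : {x : κ // x ≠ a ∧ x ≠ b} => s x.1)) : AlgR A j s := by
  refine algR_reindex hA (splitTwo a b hab) (algR_sum hA h (algR_pair hA j (s a))) ?_
  rintro (x | x)
  · rfl
  · fin_cases x
    · rfl
    · exact hs

open Classical in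
/-- The number of times `S` occurs in the family, minus the number of times the complement occurs. -/
def odd (s : κ → Set (L ≃ₐ[ℚ] L)) (S : Set (L ≃ₐ[ℚ] L)) : ℤ :=
  ∑ k, ((if s k = S then 1 else 0) - (if s k = Sᶜ then 1 else 0))

theorem odd_sum (s : κ → Set (L ≃ₐ[ℚ] L)) (s' : κ' → Set (L ≃ₐ[ℚ] L)) (S : Set (L ≃ₐ[ℚ] L)) :
    odd (Sum.elim s s') S = odd s S + odd s' S := by
  unfold odd
  rw [Fintype.sum_sum_type]
  rfl

theorem odd_compl (s : κ → Set (L ≃ₐ[ℚ] L)) (S : Set (L ≃ₐ[ℚ] L)) :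
    odd (fun k => (s k)ᶜ) S = -odd s S := by
  classical
  unfold odd
  rw [← Finset.sum_neg_distrib]
  refine Finset.sum_congr rfl fun k _ => ?_
  have h1 : ((s k)ᶜ = S) ↔ (s k = Sᶜ) := by
    rw [compl_eq_comm]
    exact eq_comm
  have h2 : ((s k)ᶜ = Sᶜ) ↔ (s k = S) := compl_inj_iff
  simp only [h1, h2]
  ring

/-- Families without odd part are unions of pairs. -/
theorem algR_of_odd (hA : IsRing X A) (j : L →+* ℂ) (n : ℕ) : ∀ (κ : Type) [Fintype κ]
    [DecidableEq κ], Fintype.card κ = n → ∀ s : κ → Set (L ≃ₐ[ℚ] L), (∀ S, odd s S = 0) →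
    AlgR A j s := by
  classical
  induction n using Nat.strong_induction_on with
  | _ n ih =>
    intro κ _ _ hn s hs
    rcases isEmpty_or_nonempty κ with h | ⟨⟨a⟩⟩
    · exact algR_empty hA j s
    · obtain ⟨b, hb⟩ : ∃ b, s b = (s a)ᶜ := by
        by_contra hcon
        push Not at hcon
        have h1 := hs (s a)
        unfold odd at h1
        have h2 : ∀ k ∈ Finset.univ, (0 : ℤ) ≤
            ((if s k = s a then 1 else 0) - (if s k = (s a)ᶜ then 1 else 0)) := by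
          intro k _
          rw [if_neg (hcon k), sub_zero]
          split_ifs <;> simp
        have h3 := (Finset.sum_eq_zero_iff_of_nonneg h2).1 h1 a (Finset.mem_univ a)
        rw [if_neg (hcon a), if_pos rfl] at h3
        norm_num at h3
      have hab : a ≠ b := by
        rintro rfl
        exact Pool.Agent.W547.LD.ne_compl (s a) hb
      have hcard := card_split a b hab
      refine algR_split hA a b hab hb ?_
      refine ih _ (by omega) {x : κ // x ≠ a ∧ x ≠ b} rfl _ fun S => ?_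
      have h1 := hs S
      unfold odd at h1 ⊢
      rw [← Equiv.sum_comp (splitTwo a b hab), Fintype.sum_sum_type, Fin.sum_univ_two] at h1
      have e0 : splitTwo a b hab (Sum.inr 0) = a := rfl
      have e1 : splitTwo a b hab (Sum.inr 1) = b := rfl
      have e2 : ∀ x, splitTwo a b hab (Sum.inl x) = x.1 := fun x => rfl
      simp only [e0, e1, e2] at h1
      have h2 : (s b = S) ↔ (s a = Sᶜ) := by
        rw [hb, compl_eq_comm]
        exact eq_comm
      have h3 : (s b = Sᶜ) ↔ (s a = S) := by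
        rw [hb]
        exact compl_inj_iff
      simp only [h2, h3] at h1
      linarith

end alg

section cancel

variable (𝒞 : CSys) {L : Type} [Field L] [NumberField L] [IsCMField L] [IsGalois ℚ L]
  {κ κ' : Type} [Fintype κ] [DecidableEq κ] [Fintype κ'] [DecidableEq κ']

/-- All monomials with the given half systems are in the span of the classes. -/
def AlgC (j : L →+* ℂ) (s : κ → Set (L ≃ₐ[ℚ] L)) : Prop := ∀ X, AlgR (𝒞.A X) j s

theorem algC_of_can (j : L →+* ℂ) (s : κ → Set (L ≃ₐ[ℚ] L)) (hs : ∀ k, IsHalf (s k))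
    (h : mono (canI j s hs) ∈ LS L (𝒞.A (can j s hs)) κ) : AlgC 𝒞 j s := by
  intro X I hI
  let hh : X.H1 →ₗ[ℚ] (can j s hs).H1 := LinearMap.pi (fun k => evLin (I k))
  have hmem : ∀ (k : κ) (ψ : L →+* ℂ), ψ ∈ typeOf j (s k) →
      ψ.comp (I k).2 ∈ (X.factor (I k).1).Φ := by
    rintro k ψ ⟨σ, hσ, rfl⟩
    rw [← hI k] at hσ
    exact hσ
  let H : X.Tan →ₗ[ℂ] (can j s hs).Tan :=
    LinearMap.pi fun k => LinearMap.pi fun ψ =>
      (LinearMap.proj (⟨ψ.1.comp (I k).2, hmem k ψ.1 ψ.2⟩ : (X.factor (I k).1).Φ)).comp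
        (LinearMap.proj (R := ℂ) (φ := fun i => (X.factor i).Φ → ℂ) (I k).1)
  have hom : IsHom X (can j s hs) hh := ⟨H, fun w => rfl⟩
  have h1 := LS.pull 𝒞 hom h
  rwa [mono_pull hh I (canI j s hs) (fun w k => rfl)] at h1

/-- Cancellation of a pair. -/
theorem algC_cancel (j : L →+* ℂ) {s : κ → Set (L ≃ₐ[ℚ] L)} (hs : ∀ k, IsHalf (s k))
    {S : Set (L ≃ₐ[ℚ] L)} (hS : IsHalf S) (h : AlgC 𝒞 j (Sum.elim s ![S, Sᶜ])) :
    AlgC 𝒞 j s := by
  classical
  let q : (L ≃ₐ[ℚ] L) → Set (L ≃ₐ[ℚ] L) := fun σ => {τ | τ * σ ∈ S}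
  have hq : ∀ σ, q (cc L * σ) = (q σ)ᶜ := by
    intro σ
    ext τ
    have h1 : τ * (cc L * σ) = cc L * (τ * σ) := by
      rw [← mul_assoc, ← mul_assoc, cc_comm j]
    change τ * (cc L * σ) ∈ S ↔ ¬ (τ * σ ∈ S)
    rw [h1, hS (τ * σ), not_not]
  have hq1 : q 1 = S := by
    ext τ
    change τ * 1 ∈ S ↔ _
    rw [mul_one]
  have hqc : q (cc L) = Sᶜ := by
    rw [← hq1, ← hq 1, mul_one]
  have hne : (1 : L ≃ₐ[ℚ] L) ≠ cc L := fun h => cc_ne h.symm
  have hqcc : ∀ σ, q (cc L * (cc L * σ)) = q σ := by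
    intro σ
    rw [← mul_assoc, cc_cc, one_mul]
  -- the other weights of the factor
  have hodd : ∀ T, odd (fun σ : {σ : L ≃ₐ[ℚ] L // σ ≠ 1 ∧ σ ≠ cc L} => q σ.1) T = 0 := by
    intro T
    let e : {σ : L ≃ₐ[ℚ] L // σ ≠ 1 ∧ σ ≠ cc L} ≃ {σ : L ≃ₐ[ℚ] L // σ ≠ 1 ∧ σ ≠ cc L} :=
      Function.Involutive.toPerm (fun σ => ⟨cc L * σ.1, fun h => σ.2.2 (by
          exact mul_left_cancel (a := cc L) (h.trans cc_cc.symm)), fun h => σ.2.1 (by
          exact mul_left_cancel (a := cc L) (by rw [h, mul_one]))⟩) (by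
        intro σ
        refine Subtype.ext ?_
        change cc L * (cc L * σ.1) = σ.1
        rw [← mul_assoc, cc_cc, one_mul])
    have h1 : odd (fun σ : {σ : L ≃ₐ[ℚ] L // σ ≠ 1 ∧ σ ≠ cc L} => q σ.1) T =
        -odd (fun σ : {σ : L ≃ₐ[ℚ] L // σ ≠ 1 ∧ σ ≠ cc L} => q σ.1) T := by
      rw [← odd_compl]
      unfold odd
      refine Fintype.sum_equiv e _ _ fun σ => ?_
      change _ = (if (q (cc L * σ.1))ᶜ = T then (1 : ℤ) else 0) -
        if (q (cc L * σ.1))ᶜ = Tᶜ then 1 else 0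
      rw [hq, compl_compl]
    omega
  have h2 : AlgC 𝒞 j (Sum.elim s q) := fun X => by
    refine algR_reindex (𝒞.ring X) (((Equiv.sumAssoc κ (Fin 2) _).trans (Equiv.sumCongr
      (Equiv.refl κ) ((Equiv.sumComm _ _).trans (splitTwo 1 (cc L) hne)))))
      (algR_sum (𝒞.ring X) (h X) (algR_of_odd (𝒞.ring X) j _ _ rfl _ hodd)) ?_
    rintro ((k | k) | x)
    · rfl
    · fin_cases k
      · exact hq1
      · exact hqc
    · rfl
  -- the variety
  refine algC_of_can 𝒞 j s hs ?_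
  let X : CMAV := can j s hs
  let Y : CMAV := ⟨Unit, fun _ => ⟨L, typeOf j S, isCMType_typeOf j hS⟩⟩
  let I : κ ⊕ (L ≃ₐ[ℚ] L) → Wt (X.prod Y) L :=
    Sum.elim (fun k => ⟨Sum.inl k, RingHom.id L⟩) (fun σ => ⟨Sum.inr (), (σ : L →+* L)⟩)
  have hI : ∀ k, St j (I k) = Sum.elim s q k := by
    rintro (k | σ)
    · ext τ
      exact mem_typeOf j (s k) τ
    · ext τ
      exact mem_q j S τ σ
  have h3 := h2 (X.prod Y) I hI
  have hcard : Fintype.card (Fin (finrank ℚ L)) = Fintype.card (L ≃ₐ[ℚ] L) := by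
    rw [Fintype.card_fin, ← Nat.card_eq_fintype_card, IsGalois.card_aut_eq_finrank]
  let b0 : Basis (L ≃ₐ[ℚ] L) ℚ L := (Module.finBasis ℚ L).reindex (Fintype.equivOfCardEq hcard)
  let eY : L ≃ₗ[ℚ] Y.H1 := (LinearEquiv.funUnique Unit ℚ L).symm
  have h4 := LS.push 𝒞 (b0.map eY) h3
  let D : L := Matrix.det (Matrix.of fun τ σ : L ≃ₐ[ℚ] L => σ (b0 τ))
  have hD : D ≠ 0 := det_conj_ne b0
  have h5 : (fun v : κ → X.H1 => mono I (Sum.elim (fun k => X.pair Y (v k) 0)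
      (fun k => X.pair Y 0 ((b0.map eY) k)))) = D • mono (canI j s hs) := by
    funext v
    rw [Pi.smul_apply, smul_eq_mul, mono_eq_det, mono_eq_det]
    have h6 : (Matrix.of fun k l => ev ((Sum.elim (fun k => X.pair Y (v k) 0)
      (fun k => X.pair Y 0 ((b0.map eY) k)) : κ ⊕ (L ≃ₐ[ℚ] L) → (X.prod Y).H1) k) (I l)) =
        Matrix.fromBlocks (Matrix.of fun k l => ev (v k) (canI j s hs l)) 0 0
          (Matrix.of fun τ σ : L ≃ₐ[ℚ] L => σ (b0 τ)) := by
      ext k l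
      rcases k with k | τ <;> rcases l with l | σ
      · rfl
      · exact map_zero (σ : L →+* L)
      · exact map_zero (RingHom.id L)
      · rfl
    rw [h6, Matrix.det_fromBlocks_zero₂₁, mul_comm]
  rw [h5] at h4
  have h7 := Submodule.smul_mem _ D⁻¹ h4
  rwa [smul_smul, inv_mul_cancel₀ hD, one_smul] at h7

theorem algC_reindex {j : L →+* ℂ} (e : κ ≃ κ') {s : κ → Set (L ≃ₐ[ℚ] L)}
    {s' : κ' → Set (L ≃ₐ[ℚ] L)} (hs : AlgC 𝒞 j s) (h : ∀ k, s' (e k) = s k) : AlgC 𝒞 j s' :=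
  fun X => algR_reindex (𝒞.ring X) e (hs X) h

theorem algC_sum {j : L →+* ℂ} {s : κ → Set (L ≃ₐ[ℚ] L)} {s' : κ' → Set (L ≃ₐ[ℚ] L)}
    (hs : AlgC 𝒞 j s) (hs' : AlgC 𝒞 j s') : AlgC 𝒞 j (Sum.elim s s') :=
  fun X => algR_sum (𝒞.ring X) (hs X) (hs' X)

end cancel

end

end Pool.Agent.K4H21.DB
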