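import Pool.Agent.K4H21.DB.Fd
import Pool.Agent.K4H34.DB.Pow

/-!
# The abelian variety and the Weil classes belonging to a subgroup and to finitely many half systems
-/

set_option linter.unusedSectionVars false
set_option linter.unusedVariables false
set_option autoImplicit false

namespace Pool.Agent.K4H21.DB

open NumberField Pool.Agent.H204R3.CM Equiv Module
open Pool.Agent.W547.KB (CMPair CMAV IsHom Wt ev evLin mono monoAlt mono_apply mono_eq_det
  St Balanced trForm trForm_apply isHodge_trForm cc emb_cc cc_cc cc_ne cc_comm comp_surjective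
  IsHalf exists_dual)
open Pool.Agent.W547.LD (tr mem_tr tr_one tr_tr tr_compl tr_inv_tr tr_tr_inv tr_injective stab
  mem_stab tr_cc ne_compl isHalf_tr isCM_of_conj Orb mono_scale mono_mem_of_pull)
open Pool.Agent.K4H34.DB (IsW isW_mem_span)

noncomputable section

variable {L : Type} [Field L] [NumberField L] [IsCMField L] [IsGalois ℚ L]

section det

/-- Different weights give linearly independent coordinates. -/
theorem ev_indep (X : CMAV) : LinearIndependent L (fun (x : Wt X L) (w : X.H1) => ev w x) := by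
  classical
  rw [linearIndependent_iff']
  intro s g hg x hx
  obtain ⟨i, φ⟩ := x
  have h1 : ∀ a : (X.factor i).E, ∑ y ∈ s, g y * ev (Pi.single i a : X.H1) y = 0 := by
    intro a
    have h2 := congrFun hg (Pi.single i a)
    rw [Finset.sum_apply] at h2
    exact h2
  let t : Finset ((X.factor i).E →+* L) := Finset.univ.filter fun ψ => (⟨i, ψ⟩ : Wt X L) ∈ s
  have h2 : ∀ a : (X.factor i).E, ∑ ψ ∈ t, g ⟨i, ψ⟩ * ψ a = 0 := by
    intro a
    rw [← h1 a]
    have h3 : ∑ ψ ∈ t, g ⟨i, ψ⟩ * ψ a =
        ∑ y ∈ t.image fun ψ => (⟨i, ψ⟩ : Wt X L), g y * ev (Pi.single i a : X.H1) y := by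
      rw [Finset.sum_image]
      · refine Finset.sum_congr rfl fun ψ _ => ?_
        have h4 : ev (Pi.single i a : X.H1) (⟨i, ψ⟩ : Wt X L) = ψ a := by
          change ψ ((Pi.single i a : X.H1) i) = _
          rw [Pi.single_eq_same]
        rw [h4]
      · intro ψ _ ψ' _ h
        exact eq_of_heq (Sigma.mk.inj h).2
    rw [h3]
    refine Finset.sum_subset ?_ ?_
    · intro y hy
      obtain ⟨ψ, hψ, rfl⟩ := Finset.mem_image.1 hy
      exact (Finset.mem_filter.1 hψ).2
    · rintro ⟨k, ψ⟩ hy hy'
      have hk : k ≠ i := by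
        rintro rfl
        exact hy' (Finset.mem_image.2 ⟨ψ, Finset.mem_filter.2 ⟨Finset.mem_univ _, hy⟩, rfl⟩)
      have h4 : ev (Pi.single i a : X.H1) (⟨k, ψ⟩ : Wt X L) = 0 := by
        change ψ ((Pi.single i a : X.H1) k) = _
        rw [Pi.single_eq_of_ne hk, map_zero]
      rw [h4, mul_zero]
  have h3 : LinearIndependent L (fun ψ : (X.factor i).E →+* L => fun a : (X.factor i).E => ψ a) := by
    have h4 := linearIndependent_monoidHom (X.factor i).E L
    have h5 : Function.Injective (fun ψ : (X.factor i).E →+* L => (ψ : (X.factor i).E →* L)) := by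
      intro ψ ψ' h
      ext a
      exact DFunLike.congr_fun h a
    exact h4.comp _ h5
  rw [linearIndependent_iff'] at h3
  exact h3 t (fun ψ => g ⟨i, ψ⟩) (by
    funext a
    rw [Finset.sum_apply]
    exact h2 a) φ (Finset.mem_filter.2 ⟨Finset.mem_univ _, hx⟩)

/-- Linearly independent functions have a nonzero determinant. -/
theorem exists_det_ne {W : Type} {F : Type} [Field F] {κ : Type} [Fintype κ] [DecidableEq κ]
    (f : κ → W → F) (hf : LinearIndependent F f) :
    ∃ v : κ → W, (Matrix.of fun k l => f l (v k)).det ≠ 0 := by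
  classical
  let U : Set (κ → F) := Set.range fun w => fun l => f l w
  have hU : Submodule.span F U = ⊤ := by
    by_contra hne
    obtain ⟨y, hy⟩ : ∃ y, y ∉ Submodule.span F U := by
      by_contra hcon
      push Not at hcon
      exact hne (eq_top_iff.2 fun y _ => hcon y)
    obtain ⟨ℓ, hℓ, hker⟩ := Submodule.exists_le_ker_of_notMem hy
    apply hℓ
    have h1 : ∀ w, ∑ l, ℓ (Pi.single l 1) * f l w = 0 := by
      intro w
      have h2 : ℓ (fun l => f l w) = 0 := hker (Submodule.subset_span ⟨w, rfl⟩)
      rw [← h2, LinearMap.pi_apply_eq_sum_univ ℓ]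
      refine Finset.sum_congr rfl fun l _ => ?_
      rw [smul_eq_mul, mul_comm]
      congr 2
      funext k
      rw [Pi.single_apply]
      by_cases h : l = k
      · rw [if_pos h, if_pos h.symm]
      · rw [if_neg h, if_neg (fun h' => h h'.symm)]
    rw [Fintype.linearIndependent_iff] at hf
    have h2 := hf (fun l => ℓ (Pi.single l 1)) (by
      funext w
      rw [Finset.sum_apply]
      exact h1 w)
    rw [LinearMap.pi_apply_eq_sum_univ ℓ]
    refine Finset.sum_eq_zero fun l _ => ?_
    have h3 : (fun k => if l = k then (1 : F) else 0) = Pi.single l 1 := by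
      funext k
      rw [Pi.single_apply]
      by_cases h : l = k
      · rw [if_pos h, if_pos h.symm]
      · rw [if_neg h, if_neg (fun h' => h h'.symm)]
    rw [h3, h2 l, smul_zero]
  obtain ⟨B, hB1, hB2, hB3⟩ := exists_linearIndependent F U
  rw [hU] at hB2
  let b : Basis B F (κ → F) := Basis.mk hB3 (by rw [Subtype.range_coe]; exact hB2.ge)
  have hfin : Finite B := Module.Finite.finite_basis b
  have _ := Fintype.ofFinite B
  have hcard : Fintype.card B = Fintype.card κ := by
    rw [← Module.finrank_eq_card_basis b, Module.finrank_fintype_fun_eq_card]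
  let e : κ ≃ B := Fintype.equivOfCardEq hcard.symm
  choose v hv using fun k : κ => hB1 (e k).2
  refine ⟨v, ?_⟩
  have h1 : LinearIndependent F (fun k => (Matrix.of fun k l => f l (v k)).row k) := by
    have h2 : (fun k => (Matrix.of fun k l => f l (v k)).row k) = fun k => ((e k : B) : κ → F) := by
      funext k
      rw [← hv k]
      rfl
    rw [h2]
    exact hB3.comp e e.injective
  have h2 := Matrix.linearIndependent_rows_iff_isUnit.1 h1
  rw [Matrix.isUnit_iff_isUnit_det] at h2
  exact h2.ne_zero

/-- The monomial of different weights is not zero. -/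
theorem mono_ne_zero {X : CMAV} {κ : Type} [Fintype κ] [DecidableEq κ] (J : κ → Wt X L)
    (hJ : Function.Injective J) : ∃ v, mono J v ≠ 0 := by
  obtain ⟨v, hv⟩ := exists_det_ne (fun (k : κ) (w : X.H1) => ev w (J k)) ((ev_indep X).comp J hJ)
  exact ⟨v, by rwa [mono_eq_det]⟩

end det

section main

variable {Q : Type} [Fintype Q] (j : L →+* ℂ) (H : Subgroup (L ≃ₐ[ℚ] L))
  (x : Q → Set (L ≃ₐ[ℚ] L)) (hx : ∀ q, IsHalf (x q))

/-- The abelian variety. -/
abbrev wv : CMAV := ⟨Q, fun q => pairK j (H ⊓ stab (x q)) (x q) (hx q) inf_le_right⟩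

/-- The elements of the fixed field of `H` as elements of the fields of the factors. -/
def eltK (t : fK H) (q : Q) : ((wv j H x hx).factor q).E :=
  (show fK (H ⊓ stab (x q)) from ⟨t.1, fK_le inf_le_left t.2⟩)

/-- The action of the fixed field of `H`. -/
def actK : fK H →+* Module.End ℚ (wv j H x hx).H1 where
  toFun t :=
    { toFun := fun w q => eltK j H x hx t q * w q
      map_add' := fun w w' => by
        funext q
        exact mul_add _ _ _
      map_smul' := fun a w => by
        funext q
        exact mul_smul_comm a _ (w q) }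
  map_one' := by
    refine LinearMap.ext fun w => funext fun q => ?_
    exact one_mul (w q)
  map_mul' t t' := by
    refine LinearMap.ext fun w => funext fun q => ?_
    exact mul_assoc (eltK j H x hx t q) (eltK j H x hx t' q) (w q)
  map_zero' := by
    refine LinearMap.ext fun w => funext fun q => ?_
    exact zero_mul (w q)
  map_add' t t' := by
    refine LinearMap.ext fun w => funext fun q => ?_
    exact add_mul (eltK j H x hx t q) (eltK j H x hx t' q) (w q)

theorem actK_apply (t : fK H) (w : (wv j H x hx).H1) (q : Q) :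
    actK j H x hx t w q = eltK j H x hx t q * w q := rfl

theorem isHom_actK (t : fK H) : IsHom (wv j H x hx) (wv j H x hx) (actK j H x hx t) := by
  refine ⟨LinearMap.pi fun q => LinearMap.pi fun ψ =>
    (ψ.1 (eltK j H x hx t q)) •
      ((LinearMap.proj (R := ℂ) (φ := fun _ : ((wv j H x hx).factor q).Φ => ℂ) ψ).comp
          (LinearMap.proj (R := ℂ) (φ := fun i => ((wv j H x hx).factor i).Φ → ℂ) q)),
    fun w => ?_⟩
  funext q ψ
  exact (map_mul ψ.1 (eltK j H x hx t q) (w q)).symm

/-- The weight given by an index and an automorphism. -/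
def wK (q : Q) (τ : L ≃ₐ[ℚ] L) : Wt (wv j H x hx) L := ⟨q, emK (H ⊓ stab (x q)) τ⟩

theorem St_wK (q : Q) (τ : L ≃ₐ[ℚ] L) : St j (wK j H x hx q τ) = tr τ (x q) := by
  ext σ
  rw [mem_tr, ← mem_tyK j (K := H ⊓ stab (x q)) inf_le_right (σ * τ)]
  exact Iff.rfl

/-- The weights of the Weil class. -/
def ow (k : Orb H x) : Wt (wv j H x hx) L := wK j H x hx k.1 k.2.2.choose

theorem St_ow (k : Orb H x) : St j (ow j H x hx k) = k.2.1 := by
  unfold ow
  rw [St_wK]
  exact k.2.2.choose_spec.2

theorem ow_injective : Function.Injective (ow j H x hx) := by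
  rintro ⟨q, S, hS⟩ ⟨q', S', hS'⟩ h
  have h1 : q = q' := congrArg Sigma.fst h
  subst h1
  have h2 : S = S' := by
    have h3 := St_ow j H x hx ⟨q, S, hS⟩
    rw [h] at h3
    exact h3.symm.trans (St_ow j H x hx ⟨q, S', hS'⟩)
  subst h2
  rfl

theorem ev_actK (t : fK H) (k : Orb H x) (w : (wv j H x hx).H1) :
    ev (actK j H x hx t w) (ow j H x hx k) = t * ev w (ow j H x hx k) := by
  have h1 : ev (actK j H x hx t w) (ow j H x hx k) =
      k.2.2.choose (t : L) * ev w (ow j H x hx k) :=
    map_mul (ow j H x hx k).2 (eltK j H x hx t k.1) (w k.1)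
  rw [h1, (mem_fK H _).1 t.2 _ k.2.2.choose_spec.1]

theorem finrank_wv [Fintype (Orb H x)] :
    finrank ℚ (wv j H x hx).H1 = Fintype.card (Orb H x) * finrank ℚ (fK H) := by
  classical
  have h1 : finrank ℚ (wv j H x hx).H1 = ∑ q, finrank ℚ (fK (H ⊓ stab (x q))) :=
    Module.finrank_pi_fintype ℚ
  rw [h1, ← Nat.card_eq_fintype_card, Nat.card_sigma, Finset.sum_mul]
  exact Finset.sum_congr rfl fun q _ => finrank_inf H (x q)

variable {n : ℕ} (e : Orb H x ≃ Fin n) [Fintype (Orb H x)] [DecidableEq (Orb H x)]

/-- The weights of the Weil class, numbered. -/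
def own (k : Fin n) : Wt (wv j H x hx) L := ow j H x hx (e.symm k)

theorem own_injective : Function.Injective (own j H x hx e) :=
  (ow_injective j H x hx).comp e.symm.injective

theorem isW_trForm (α : L) : IsW (actK j H x hx) (trForm α (own j H x hx e)) := by
  intro t v k l
  rw [trForm_apply, trForm_apply]
  have h1 : ∀ (w : (wv j H x hx).H1) (k : Fin n), ev (actK j H x hx t w) (own j H x hx e k) =
      (t : L) * ev w (own j H x hx e k) := fun w k => ev_actK j H x hx t _ w
  rw [mono_scale _ _ (t : L) h1, mono_scale _ _ (t : L) h1]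

theorem isHodge_own (hbal : Balanced (fun k : Orb H x => k.2.1)) (α : L) :
    IsHodge (wv j H x hx).per (trForm α (own j H x hx e)) := by
  refine isHodge_trForm j _ ?_ α
  intro σ
  have h1 := hbal σ
  refine Eq.trans ?_ h1
  refine Fintype.sum_equiv e.symm _ _ fun k => ?_
  have h2 : σ ∈ St j (own j H x hx e k) ↔ σ ∈ (e.symm k).2.1 := by
    unfold own
    rw [St_ow]
  by_cases h3 : σ ∈ (e.symm k).2.1
  · rw [if_pos (h2.2 h3), if_pos h3]
  · rw [if_neg (fun h => h3 (h2.1 h)), if_neg h3]

theorem exists_trForm_ne : ∃ α : L, trForm α (own j H x hx e) ≠ 0 := by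
  obtain ⟨v, hv⟩ := mono_ne_zero (own j H x hx e) (own_injective j H x hx e)
  by_contra hcon
  push Not at hcon
  apply hv
  apply (traceForm_nondegenerate ℚ L).1
  intro α
  have h1 := congrArg (fun f => f v) (hcon α)
  rw [Algebra.traceForm_apply, mul_comm]
  exact h1

include e in
/-- If a nonzero Weil class belongs to the system then the monomials belong to its span. -/
theorem algC_of_weil (𝒞 : CSys) (hn : 0 < n) (hcard : Fintype.card (Orb H x) = n)
    {f : (wv j H x hx).H1 [⋀^Fin n]→ₗ[ℚ] ℚ} (hf : IsW (actK j H x hx) f) (hf0 : f ≠ 0)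
    (hA : 𝒞.A (wv j H x hx) (Fin n) f) : AlgC 𝒞 j (fun k : Orb H x => k.2.1) := by
  have hall : ∀ α, 𝒞.A (wv j H x hx) (Fin n) (trForm α (own j H x hx e)) := by
    intro α
    have h1 := isW_mem_span (actK j H x hx) hn (by rw [finrank_wv, hcard]) f _ hf
      (isW_trForm j H x hx e α) hf0
    have h2 : ∀ g ∈ Submodule.span ℚ (Set.range fun t : fK H => f.compLinearMap (actK j H x hx t)),
        𝒞.A (wv j H x hx) (Fin n) g := by
      intro g hg
      induction hg using Submodule.span_induction with
      | mem g hg =>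
        obtain ⟨t, rfl⟩ := hg
        exact 𝒞.pull _ (isHom_actK j H x hx t) f hA
      | zero => exact (𝒞.ring _).zero _
      | add g g' _ _ h h' => exact (𝒞.ring _).add _ _ h h'
      | smul c g _ h => exact (𝒞.ring _).smul _ _ h
    exact h2 _ h1
  have h1 : mono (own j H x hx e) ∈ LS L (𝒞.A (wv j H x hx)) (Fin n) := mem_of_trForm _ hall
  have h2 : AlgC 𝒞 j (fun k : Fin n => (e.symm k).2.1) := by
    intro X I hI
    refine mono_mem_of_pull j I (own j H x hx e) (own_injective j H x hx e)
      (fun k => by rw [hI]; exact (St_ow j H x hx (e.symm k)).symm) _ fun g hg => ?_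
    exact LS.pull 𝒞 hg h1
  exact algC_reindex 𝒞 e.symm h2 fun k => rfl

end main

end

end Pool.Agent.K4H21.DB
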